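import Mathlib

/-!
Algebraic core of the Brumfiel-Hilden statement.
-/

namespace Pool.Agent.H418R3.BHCore

section RingLemma

variable {B : Type*} [Ring B] {G : Type*} [Group G]

/-- In a ring without 2-torsion: if every `u g + u g⁻¹ = 2` then `(u g - 1)` are square zero. -/
theorem sq_zero (u : G →* B) (hu : ∀ g, u g + u g⁻¹ = 2) (g : G) :
    (u g - 1) * (u g - 1) = 0 := by
  have h1 : u g * u g⁻¹ = 1 := by rw [← map_mul, mul_inv_cancel, map_one]
  have h2 : u g⁻¹ = 2 - u g := by rw [← hu g]; abel
  rw [h2] at h1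
  have h3 : (u g - 1) * (u g - 1) = 1 - u g * (2 - u g) := by noncomm_ring
  rw [h3, h1, sub_self]

theorem a_mul (u : G →* B) (g h : G) :
    u (g * h) - 1 = (u g - 1) * (u h - 1) + (u g - 1) + (u h - 1) := by
  rw [map_mul]; noncomm_ring

theorem a_inv (u : G →* B) (hu : ∀ g, u g + u g⁻¹ = 2) (g : G) :
    u g⁻¹ - 1 = - (u g - 1) := by
  have h2 : u g⁻¹ = 2 - u g := by rw [← hu g]; abel
  rw [h2, ← one_add_one_eq_two]; abel

theorem anticomm (u : G →* B) (hu : ∀ g, u g + u g⁻¹ = 2)
    (h2 : ∀ x : B, x + x = 0 → x = 0) (g h : G) :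
    (u g - 1) * (u h - 1) = - ((u h - 1) * (u g - 1)) := by
  have hg := sq_zero u hu g
  have hh := sq_zero u hu h
  have hgh := sq_zero u hu (g * h)
  have hgh' := sq_zero u hu (g * h⁻¹)
  rw [a_mul] at hgh
  rw [a_mul, a_inv u hu h] at hgh'
  set a := u g - 1
  set b := u h - 1
  -- expand
  have e1 : (a * b + a + b) * (a * b + a + b)
      = a * b * a * b + a * b * a + a * (b * b) + (a * a) * b + a * a + a * b
        + b * a * b + b * a + b * b := by noncomm_ring
  have e2 : (a * -b + a + -b) * (a * -b + a + -b)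
      = a * b * a * b - a * b * a + a * (b * b) - (a * a) * b + a * a - a * b
        + b * a * b - b * a + b * b := by noncomm_ring
  rw [e1, hg, hh] at hgh
  rw [e2, hg, hh] at hgh'
  simp only [mul_zero, zero_mul, add_zero, sub_zero] at hgh hgh'
  have key : (a * b * a + a * b + b * a) + (a * b * a + a * b + b * a) = 0 := by
    have : (a * b * a + a * b + b * a) + (a * b * a + a * b + b * a) =
      (a * b * a * b + a * b * a + a * b + b * a * b + b * a)
      - (a * b * a * b - a * b * a - a * b + b * a * b - b * a) := by noncomm_ring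
    rw [this, hgh, hgh', sub_zero]
  have k2 := h2 _ key
  have k3 : a * b * a = 0 := by
    have : a * (a * b * a + a * b + b * a) = (a * a) * b * a + (a * a) * b + a * b * a := by
      noncomm_ring
    rw [k2, hg] at this
    simpa using this.symm
  rw [k3, zero_add] at k2
  exact eq_neg_of_add_eq_zero_left k2

theorem triple (u : G →* B) (hu : ∀ g, u g + u g⁻¹ = 2)
    (h2 : ∀ x : B, x + x = 0 → x = 0) (k g h : G) :
    (u k - 1) * ((u g - 1) * (u h - 1)) = 0 := by
  have e : (u g - 1) * (u h - 1) = (u (g * h) - 1) - (u g - 1) - (u h - 1) := by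
    rw [a_mul]; abel
  have c1 : (u k - 1) * ((u g - 1) * (u h - 1)) = - (((u g - 1) * (u h - 1)) * (u k - 1)) := by
    have h1 := anticomm u hu h2 k (g * h)
    have h3 := anticomm u hu h2 k g
    have h4 := anticomm u hu h2 k h
    rw [e]
    generalize u (g * h) - 1 = p at h1 ⊢
    generalize u g - 1 = q at h3 ⊢
    generalize u h - 1 = r at h4 ⊢
    generalize u k - 1 = t at h1 h3 h4 ⊢
    rw [mul_sub, mul_sub, sub_mul, sub_mul, h1, h3, h4]
    abel
  have c2 : (u k - 1) * ((u g - 1) * (u h - 1)) = ((u g - 1) * (u h - 1)) * (u k - 1) := by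
    rw [← mul_assoc, anticomm u hu h2 k g, neg_mul, mul_assoc, anticomm u hu h2 k h]
    noncomm_ring
  apply h2
  nth_rewrite 1 [c1]
  rw [c2]
  abel

/-- two-sided products all vanish -/
theorem prod_zero (u : G →* B) (hu : ∀ g, u g + u g⁻¹ = 2)
    (h2 : ∀ x : B, x + x = 0 → x = 0) (m : G) (hm : Subgroup.normalClosure {m} = ⊤) (k w : G) :
    (u k - 1) * (u w - 1) = 0 := by
  -- additive homomorphism for fixed k
  have hhom : ∀ k w h : G, (u k - 1) * (u (w * h) - 1) =
      (u k - 1) * (u w - 1) + (u k - 1) * (u h - 1) := by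
    intro k w h
    rw [a_mul, mul_add, mul_add, triple u hu h2, zero_add]
  have hker : ∀ k : G, (u k - 1) * (u m - 1) = 0 → ∀ w, (u k - 1) * (u w - 1) = 0 := by
    intro k hk
    let S : Subgroup G :=
      { carrier := {w | (u k - 1) * (u w - 1) = 0}
        mul_mem' := by
          intro a b ha hb
          simp only [Set.mem_ofPred_eq] at *
          rw [hhom, ha, hb, add_zero]
        one_mem' := by simp
        inv_mem' := by
          intro a ha
          simp only [Set.mem_ofPred_eq] at *
          rw [a_inv u hu, mul_neg, ha, neg_zero] }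
    have hS : S.Normal := by
      constructor
      intro n hn g
      change (u k - 1) * (u (g * n * g⁻¹) - 1) = 0
      have hn' : (u k - 1) * (u n - 1) = 0 := hn
      rw [hhom, hhom, hn', a_inv u hu, mul_neg]
      abel
    have hle : Subgroup.normalClosure {m} ≤ S :=
      Subgroup.normalClosure_le_normal (by simpa using (show m ∈ S from hk))
    intro w
    have : w ∈ S := hle (by rw [hm]; trivial)
    exact this
  have hmw : ∀ w, (u m - 1) * (u w - 1) = 0 := hker m (sq_zero u hu m)
  have hwm : ∀ w, (u w - 1) * (u m - 1) = 0 := by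
    intro w
    rw [anticomm u hu h2, hmw, neg_zero]
  exact hker k (hwm k) w

/-- the conclusion: every `u w` is `1 + n (u m - 1)` -/
theorem linear (u : G →* B) (hu : ∀ g, u g + u g⁻¹ = 2)
    (h2 : ∀ x : B, x + x = 0 → x = 0) (m : G) (hm : Subgroup.normalClosure {m} = ⊤) (w : G) :
    ∃ n : ℤ, u w - 1 = n • (u m - 1) := by
  have hhom : ∀ w h : G, u (w * h) - 1 = (u w - 1) + (u h - 1) := by
    intro w h
    rw [a_mul, prod_zero u hu h2 m hm, zero_add]
  let S : Subgroup G :=
    { carrier := {w | ∃ n : ℤ, u w - 1 = n • (u m - 1)}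
      mul_mem' := by
        rintro a b ⟨n, hn⟩ ⟨k, hk⟩
        exact ⟨n + k, by rw [hhom, hn, hk, add_smul]⟩
      one_mem' := ⟨0, by simp⟩
      inv_mem' := by
        rintro a ⟨n, hn⟩
        exact ⟨-n, by rw [a_inv u hu, hn, neg_smul]⟩ }
  have hS : S.Normal := by
    constructor
    rintro n ⟨k, hk⟩ g
    refine ⟨k, ?_⟩
    rw [hhom, hhom, hk, a_inv u hu]
    abel
  have hle : Subgroup.normalClosure {m} ≤ S :=
    Subgroup.normalClosure_le_normal (by
      simpa using (show m ∈ S from ⟨1, by simp⟩))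
  exact (hle (by rw [hm]; trivial) : w ∈ S)

end RingLemma

end Pool.Agent.H418R3.BHCore
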