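import Mathlib
import Pool.Agent.H418R3.BHCore

/-!
Abstract form: `R` central in `A`, `A` spanned over `R` by a group of units, with traces in `R`.
-/

namespace Pool.Agent.H418R3.BHAbs

open Pool.Agent.H418R3.BHCore

variable {R A : Type*} [CommRing R] [Ring A] [Algebra R A] {G : Type*} [Group G]

structure Setup (el : G →* A) (t : G → R) : Prop where
  ht : ∀ g, algebraMap R A (t g) = el g + el g⁻¹
  inj : Function.Injective (algebraMap R A)
  span : Submodule.span R (Set.range el) = ⊤
  half : ∃ c : R, c * 2 = 1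

variable {el : G →* A} {t : G → R}

namespace Setup

theorem el_mul_inv (g : G) : el g * el g⁻¹ = 1 := by
  rw [← map_mul, mul_inv_cancel, map_one]

theorem el_inv_mul (g : G) : el g⁻¹ * el g = 1 := by
  rw [← map_mul, inv_mul_cancel, map_one]

theorem t_inv (S : Setup el t) (g : G) : t g⁻¹ = t g := by
  apply S.inj
  rw [S.ht, S.ht, inv_inv, add_comm]

theorem t_one (S : Setup el t) : t 1 = 2 := by
  apply S.inj
  rw [S.ht, inv_one, map_one, map_ofNat, one_add_one_eq_two]

theorem t_comm (S : Setup el t) (g h : G) : t (g * h) = t (h * g) := by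
  apply S.inj
  have h1 : el h * algebraMap R A (t (g * h)) * el h⁻¹ = algebraMap R A (t (g * h)) := by
    rw [← Algebra.commutes, mul_assoc, el_mul_inv, mul_one]
  rw [← h1, S.ht, S.ht, mul_add, add_mul, ← map_mul, ← map_mul, ← map_mul, ← map_mul]
  congr 2 <;> group

theorem t_mul (S : Setup el t) (g h : G) : t g * t h = t (g * h) + t (g * h⁻¹) := by
  apply S.inj
  have h1 : el g⁻¹ * algebraMap R A (t h) = algebraMap R A (t h) * el g⁻¹ :=
    (Algebra.commutes _ _).symm
  calc algebraMap R A (t g * t h) = algebraMap R A (t g) * algebraMap R A (t h) := map_mul _ _ _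
    _ = el g * algebraMap R A (t h) + el g⁻¹ * algebraMap R A (t h) := by
        rw [S.ht g, add_mul]
    _ = el g * algebraMap R A (t h) + algebraMap R A (t h) * el g⁻¹ := by rw [h1]
    _ = el g * (el h + el h⁻¹) + (el h + el h⁻¹) * el g⁻¹ := by rw [S.ht h]
    _ = algebraMap R A (t (g * h) + t (g * h⁻¹)) := by
        rw [map_add, S.ht, S.ht]
        simp only [mul_add, add_mul, ← map_mul, mul_inv_rev, inv_inv]
        abel

/-- `(g - g⁻¹)(m - m⁻¹) + (m - m⁻¹)(g - g⁻¹) = 2 (t(gm) - t(gm⁻¹))`. -/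
theorem sym (S : Setup el t) (g m : G) :
    (el g - el g⁻¹) * (el m - el m⁻¹) + (el m - el m⁻¹) * (el g - el g⁻¹)
      = algebraMap R A (2 * (t (g * m) - t (g * m⁻¹))) := by
  have e1 : t (g * m) + t (m * g) - t (g * m⁻¹) - t (m⁻¹ * g) =
      2 * (t (g * m) - t (g * m⁻¹)) := by
    rw [S.t_comm m g, S.t_comm m⁻¹ g]; ring
  rw [← e1, map_sub, map_sub, map_add, S.ht, S.ht, S.ht, S.ht]
  simp only [mul_sub, sub_mul, ← map_mul, mul_inv_rev, inv_inv]
  abel

theorem two_inj (S : Setup el t) (x : A) (hx : x + x = 0) : x = 0 := by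
  obtain ⟨c, hc⟩ := S.half
  have : (algebraMap R A c) * (x + x) = x := by
    rw [← two_mul, ← mul_assoc, ← map_ofNat (algebraMap R A) 2, ← map_mul, hc, map_one, one_mul]
  rw [← this, hx, mul_zero]

theorem two_inj' (S : Setup el t) (x : R) (hx : 2 * x = 0) : x = 0 := by
  obtain ⟨c, hc⟩ := S.half
  calc x = (c * 2) * x := by rw [hc, one_mul]
    _ = c * (2 * x) := by ring
    _ = 0 := by rw [hx, mul_zero]

/-- the key exchange identity -/
theorem star (S : Setup el t) (g m l : G) (hml : Commute m l) :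
    algebraMap R A (t (g * m) - t (g * m⁻¹)) * (el l - el l⁻¹)
      = algebraMap R A (t (g * l) - t (g * l⁻¹)) * (el m - el m⁻¹) := by
  set a := el g - el g⁻¹ with ha
  set b := el m - el m⁻¹ with hb
  set c := el l - el l⁻¹ with hc
  have hbc : b * c = c * b := by
    have h1 : el m * el l = el l * el m := by rw [← map_mul, ← map_mul, hml.eq]
    have h2 : el m⁻¹ * el l = el l * el m⁻¹ := by
      rw [← map_mul, ← map_mul, hml.inv_left.eq]
    have h3 : el m * el l⁻¹ = el l⁻¹ * el m := by
      rw [← map_mul, ← map_mul, hml.inv_right.eq]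
    have h4 : el m⁻¹ * el l⁻¹ = el l⁻¹ * el m⁻¹ := by
      rw [← map_mul, ← map_mul, hml.inv_left.inv_right.eq]
    rw [hb, hc]
    simp only [mul_sub, sub_mul, h1, h2, h3, h4]
    abel
  have hp := S.sym g m
  have hq := S.sym g l
  rw [← ha, ← hb] at hp
  rw [← ha, ← hc] at hq
  -- P = 2 p
  set p := t (g * m) - t (g * m⁻¹) with hpdef
  set q := t (g * l) - t (g * l⁻¹) with hqdef
  have cp : algebraMap R A (2 * p) * c = c * algebraMap R A (2 * p) := Algebra.commutes _ _
  have cq : algebraMap R A (2 * q) * b = b * algebraMap R A (2 * q) := Algebra.commutes _ _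
  have e1 : algebraMap R A (2 * p) * c - algebraMap R A (2 * q) * b = b * a * c - c * a * b := by
    rw [← hp, ← hq]
    have : a * b * c = a * c * b := by rw [mul_assoc, mul_assoc, hbc]
    calc (a * b + b * a) * c - (a * c + c * a) * b
        = (a * b * c - a * c * b) + (b * a * c - c * a * b) := by noncomm_ring
      _ = _ := by rw [this, sub_self, zero_add]
  have e2 : algebraMap R A (2 * p) * c - algebraMap R A (2 * q) * b = -(b * a * c - c * a * b) := by
    rw [cp, cq, ← hp, ← hq]
    have : c * b * a = b * c * a := by rw [hbc]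
    calc c * (a * b + b * a) - b * (a * c + c * a)
        = (c * b * a - b * c * a) - (b * a * c - c * a * b) := by noncomm_ring
      _ = _ := by rw [this, sub_self, zero_sub]
  have e3 : algebraMap R A (2 * p) * c - algebraMap R A (2 * q) * b = 0 := by
    apply S.two_inj
    nth_rewrite 1 [e1]
    rw [e2]; abel
  have e4 : (algebraMap R A p * c - algebraMap R A q * b)
      + (algebraMap R A p * c - algebraMap R A q * b) = 0 := by
    rw [← e3, two_mul, two_mul, map_add, map_add]
    noncomm_ring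
  exact sub_eq_zero.mp (S.two_inj _ e4)

end Setup

/-- the two-sided ideal `n A` of `A` -/
def nIdeal (A : Type*) [Ring A] [Algebra R A] (n : Ideal R) : Ideal A where
  carrier := ((n • (⊤ : Submodule R A) : Submodule R A) : Set A)
  add_mem' := fun ha hb => Submodule.add_mem _ ha hb
  zero_mem' := Submodule.zero_mem _
  smul_mem' := by
    intro c x hx
    rw [SetLike.mem_coe] at hx ⊢
    refine Submodule.smul_induction_on hx ?_ ?_
    · intro r hr y _
      rw [smul_eq_mul, mul_smul_comm]
      exact Submodule.smul_mem_smul hr Submodule.mem_top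
    · intro x y hx hy
      rw [smul_add]
      exact Submodule.add_mem _ hx hy

theorem mem_nIdeal (n : Ideal R) (x : A) :
    x ∈ nIdeal A n ↔ x ∈ (n • (⊤ : Submodule R A) : Submodule R A) := Iff.rfl

instance nIdeal_two (n : Ideal R) : (nIdeal A n).IsTwoSided where
  mul_mem_of_left := by
    intro a b hx
    rw [mem_nIdeal] at hx ⊢
    refine Submodule.smul_induction_on hx ?_ ?_
    · intro r hr y _
      rw [smul_mul_assoc]
      exact Submodule.smul_mem_smul hr Submodule.mem_top
    · intro x y hx hy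
      rw [add_mul]
      exact Submodule.add_mem _ hx hy

theorem algebraMap_mem_nIdeal (n : Ideal R) {r : R} (hr : r ∈ n) :
    algebraMap R A r ∈ nIdeal A n := by
  rw [mem_nIdeal, Algebra.algebraMap_eq_smul_one]
  exact Submodule.smul_mem_smul hr Submodule.mem_top

section ClaimB

open Setup

variable (S : Setup el t) (m : G) (hm : Subgroup.normalClosure {m} = ⊤)
  (n : Ideal R) (hn : n.IsPrime) (hJ : ∀ g, t (g * m) - t (g * m⁻¹) ∈ n)

include S hn in
theorem not_two_mem : (2 : R) ∉ n := by
  obtain ⟨c, hc⟩ := S.half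
  intro h
  exact hn.ne_top ((Ideal.eq_top_iff_one n).mpr (hc ▸ n.mul_mem_left c h))

include S hm hn hJ

theorem exists_sign (w : G) :
    ∃ s : ℤˣ, ∀ g, t (g * w) - ((s : ℤ) : R) * t g ∈ n := by
  -- case `w = m`
  have hbase : ∃ s : ℤˣ, ∀ g, t (g * m) - ((s : ℤ) : R) * t g ∈ n := by
    -- `2 t(gm) ≡ t(g) t(m)`
    have h1 : ∀ g, 2 * t (g * m) - t g * t m ∈ n := by
      intro g
      have : 2 * t (g * m) - t g * t m = t (g * m) - t (g * m⁻¹) := by
        rw [S.t_mul]; ring
      rw [this]; exact hJ g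
    -- `t(m)^2 ≡ 4`
    have h2 : (t m - 2) * (t m + 2) ∈ n := by
      have e1 := h1 m
      have e2 : t m * t m = t (m * m) + 2 := by
        rw [S.t_mul, mul_inv_cancel, S.t_one]
      have : (t m - 2) * (t m + 2) = 2 * t (m * m) - t m * t m := by
        have : t (m * m) = t m * t m - 2 := by rw [e2]; ring
        rw [this]; ring
      rw [this]; exact e1
    have h2' := not_two_mem S n hn
    rcases hn.mem_or_mem h2 with h | h
    · refine ⟨1, fun g => ?_⟩
      have e : 2 * (t (g * m) - ((1 : ℤˣ) : ℤ) * t g) ∈ n := by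
        have : 2 * (t (g * m) - (((1 : ℤˣ) : ℤ) : R) * t g)
            = (2 * t (g * m) - t g * t m) + t g * (t m - 2) := by
          push_cast; ring
        rw [this]
        exact n.add_mem (h1 g) (n.mul_mem_left _ h)
      exact (hn.mem_or_mem e).resolve_left h2'
    · refine ⟨-1, fun g => ?_⟩
      have e : 2 * (t (g * m) - (((-1 : ℤˣ) : ℤ) : R) * t g) ∈ n := by
        have : 2 * (t (g * m) - (((-1 : ℤˣ) : ℤ) : R) * t g)
            = (2 * t (g * m) - t g * t m) + t g * (t m + 2) := by
          push_cast; ring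
        rw [this]
        exact n.add_mem (h1 g) (n.mul_mem_left _ h)
      exact (hn.mem_or_mem e).resolve_left h2'
  let N : Subgroup G :=
    { carrier := {w | ∃ s : ℤˣ, ∀ g, t (g * w) - ((s : ℤ) : R) * t g ∈ n}
      mul_mem' := by
        rintro a b ⟨s, hs⟩ ⟨r, hr⟩
        refine ⟨r * s, fun g => ?_⟩
        have : t (g * (a * b)) - (((r * s : ℤˣ) : ℤ) : R) * t g
            = (t (g * a * b) - ((r : ℤ) : R) * t (g * a))
              + ((r : ℤ) : R) * (t (g * a) - ((s : ℤ) : R) * t g) := by
          rw [mul_assoc]; push_cast; ring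
        rw [this]
        exact n.add_mem (hr _) (n.mul_mem_left _ (hs g))
      one_mem' := ⟨1, fun g => by simp⟩
      inv_mem' := by
        rintro a ⟨s, hs⟩
        refine ⟨s, fun g => ?_⟩
        have h1 := hs (g * a⁻¹)
        rw [inv_mul_cancel_right] at h1
        have h2 : ((s : ℤ) : R) * ((s : ℤ) : R) = 1 := by
          rw [← Int.cast_mul, ← Units.val_mul, Int.units_mul_self]; simp
        have : t (g * a⁻¹) - ((s : ℤ) : R) * t g =
            (-((s : ℤ) : R)) * (t g - ((s : ℤ) : R) * t (g * a⁻¹)) := by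
          calc t (g * a⁻¹) - ((s : ℤ) : R) * t g
              = (((s : ℤ) : R) * ((s : ℤ) : R)) * t (g * a⁻¹) - ((s : ℤ) : R) * t g := by
                rw [h2, one_mul]
            _ = _ := by ring
        rw [this]
        exact n.mul_mem_left _ h1 }
  have hN : N.Normal := by
    constructor
    rintro w ⟨s, hs⟩ h
    refine ⟨s, fun g => ?_⟩
    have e1 : t (g * (h * w * h⁻¹)) = t (h⁻¹ * g * h * w) := by
      have : g * (h * w * h⁻¹) = (g * h * w) * h⁻¹ := by group
      rw [this, S.t_comm]; congr 1; group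
    have e2 : t g = t (h⁻¹ * g * h) := by
      have : h⁻¹ * g * h = h⁻¹ * (g * h) := by group
      rw [this, S.t_comm]; congr 1; group
    rw [e1, e2]
    exact hs _
  have hle : Subgroup.normalClosure {m} ≤ N :=
    Subgroup.normalClosure_le_normal (by simpa using (show m ∈ N from hbase))
  exact (hle (by rw [hm]; trivial) : w ∈ N)

theorem sign_unique (s r : ℤˣ) (w : G)
    (hs : ∀ g, t (g * w) - ((s : ℤ) : R) * t g ∈ n)
    (hr : ∀ g, t (g * w) - ((r : ℤ) : R) * t g ∈ n) : s = r := by
  by_contra hne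
  have h2' := not_two_mem S n hn
  have h1 := n.sub_mem (hr 1) (hs 1)
  rw [S.t_one] at h1
  have hsr : r = -s := by
    rcases Int.units_eq_one_or s with rfl | rfl <;> rcases Int.units_eq_one_or r with rfl | rfl <;>
      simp_all
  subst hsr
  have h3 : ((s : ℤ) : R) * (2 * 2) ∈ n := by
    have : t (1 * w) - (((-s : ℤˣ) : ℤ) : R) * 2 - (t (1 * w) - ((s : ℤ) : R) * 2)
        = ((s : ℤ) : R) * (2 * 2) := by push_cast; ring
    rw [← this]; exact h1
  have h4 : ((s : ℤ) : R) * ((s : ℤ) : R) = 1 := by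
    rw [← Int.cast_mul, ← Units.val_mul, Int.units_mul_self]; simp
  have h5 : (2 * 2 : R) ∈ n := by
    have := n.mul_mem_left ((s : ℤ) : R) h3
    rwa [← mul_assoc, h4, one_mul] at this
  rcases hn.mem_or_mem h5 with h | h <;> exact h2' h

theorem exists_hom :
    ∃ κ : G →* ℤˣ, ∀ w g, t (g * w) - ((κ w : ℤ) : R) * t g ∈ n := by
  choose κ hκ using exists_sign S m hm n hn hJ
  refine ⟨{ toFun := κ, map_one' := ?_, map_mul' := ?_ }, fun w g => hκ w g⟩
  · refine sign_unique S m hm n hn hJ _ _ 1 (hκ 1) (fun g => by simp)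
  · intro a b
    refine sign_unique S m hm n hn hJ _ _ (a * b) (hκ _) (fun g => ?_)
    have : t (g * (a * b)) - (((κ a * κ b : ℤˣ) : ℤ) : R) * t g
        = (t (g * a * b) - ((κ b : ℤ) : R) * t (g * a))
          + ((κ b : ℤ) : R) * (t (g * a) - ((κ a : ℤ) : R) * t g) := by
      rw [mul_assoc]; push_cast; ring
    rw [this]
    exact n.add_mem (hκ _ _) (n.mul_mem_left _ (hκ _ _))

theorem claimB : (⊤ : Submodule R A) ≤ n • (⊤ : Submodule R A) ⊔ Submodule.span R {1, el m} := by
  obtain ⟨κ, hκ⟩ := exists_hom S m hm n hn hJ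
  let I := nIdeal A n
  let π : A →+* A ⧸ I := Ideal.Quotient.mk I
  let u : G →* A ⧸ I :=
    { toFun := fun g => π (((κ g : ℤ) : A) * el g)
      map_one' := by simp
      map_mul' := by
        intro a b
        rw [← map_mul]
        congr 1
        rw [map_mul, map_mul]
        push_cast
        have : ((κ b : ℤ) : A) * el a = el a * ((κ b : ℤ) : A) := (Int.cast_commute _ _)
        calc ((κ a : ℤ) : A) * ((κ b : ℤ) : A) * (el a * el b)
            = ((κ a : ℤ) : A) * (((κ b : ℤ) : A) * el a) * el b := by noncomm_ring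
          _ = ((κ a : ℤ) : A) * (el a * ((κ b : ℤ) : A)) * el b := by rw [this]
          _ = _ := by noncomm_ring }
  have hsq : ∀ g, ((κ g : ℤ) : R) * ((κ g : ℤ) : R) = 1 := by
    intro g
    rw [← Int.cast_mul, ← Units.val_mul, Int.units_mul_self]; simp
  have hu : ∀ g, u g + u g⁻¹ = 2 := by
    intro g
    change π (((κ g : ℤ) : A) * el g) + π (((κ g⁻¹ : ℤ) : A) * el g⁻¹) = 2
    have hk : κ g⁻¹ = κ g := by
      rw [map_inv, Int.units_inv_eq_self]
    rw [hk, ← map_add, ← mul_add, ← S.ht]
    have h1 : t g - ((κ g : ℤ) : R) * 2 ∈ n := by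
      have := hκ g 1
      rwa [one_mul, S.t_one] at this
    have h2 : ((κ g : ℤ) : R) * t g - 2 ∈ n := by
      have : ((κ g : ℤ) : R) * t g - 2 = ((κ g : ℤ) : R) * (t g - ((κ g : ℤ) : R) * 2) := by
        rw [mul_sub, ← mul_assoc, hsq, one_mul]
      rw [this]; exact n.mul_mem_left _ h1
    have h3 : ((κ g : ℤ) : A) * algebraMap R A (t g) - 2 ∈ I := by
      have := algebraMap_mem_nIdeal (A := A) n h2
      rwa [map_sub, map_mul, map_intCast, map_ofNat] at this
    have h4 : π (((κ g : ℤ) : A) * algebraMap R A (t g) - 2) = 0 :=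
      Ideal.Quotient.eq_zero_iff_mem.mpr h3
    rw [map_sub, sub_eq_zero, map_ofNat] at h4
    exact h4
  have h2 : ∀ x : A ⧸ I, x + x = 0 → x = 0 := by
    intro x hx
    obtain ⟨c, hc⟩ := S.half
    have : π (algebraMap R A c) * (x + x) = x := by
      rw [← two_mul, ← mul_assoc, ← map_ofNat π 2, ← map_ofNat (algebraMap R A) 2,
        ← map_mul, ← map_mul, hc, map_one, map_one, one_mul]
    rw [← this, hx, mul_zero]
  have hlin := linear u hu h2 m hm
  -- membership of group elements
  have hel : ∀ w, el w ∈ n • (⊤ : Submodule R A) ⊔ Submodule.span R {1, el m} := by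
    intro w
    obtain ⟨k, hk⟩ := hlin w
    -- el w ≡ κ w (1 + k (κ m el m - 1))
    have e1 : π (el w - ((κ w : ℤ) : A) * (1 + (k : A) * (((κ m : ℤ) : A) * el m - 1))) = 0 := by
      have hk' : π (((κ w : ℤ) : A) * el w) - 1 = k • (π (((κ m : ℤ) : A) * el m) - 1) := hk
      have hsqA : ((κ w : ℤ) : A) * ((κ w : ℤ) : A) = 1 := by
        have := congrArg (algebraMap R A) (hsq w)
        rwa [map_mul, map_intCast, map_one] at this
      have : el w - ((κ w : ℤ) : A) * (1 + (k : A) * (((κ m : ℤ) : A) * el m - 1))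
          = ((κ w : ℤ) : A) * ((((κ w : ℤ) : A) * el w - 1)
              - (k : A) * (((κ m : ℤ) : A) * el m - 1)) := by
        calc el w - ((κ w : ℤ) : A) * (1 + (k : A) * (((κ m : ℤ) : A) * el m - 1))
            = (((κ w : ℤ) : A) * ((κ w : ℤ) : A)) * el w
              - ((κ w : ℤ) : A) * (1 + (k : A) * (((κ m : ℤ) : A) * el m - 1)) := by
              rw [hsqA, one_mul]
          _ = _ := by noncomm_ring
      rw [this, map_mul, map_sub, map_sub, map_one, hk']
      have hk2 : π (k : A) = (k : A ⧸ I) := map_intCast π k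
      rw [map_mul π (k : A), hk2, map_sub, map_one, zsmul_eq_mul, sub_self, mul_zero]
    have e2 := Ideal.Quotient.eq_zero_iff_mem.mp e1
    rw [mem_nIdeal] at e2
    have e3 : ((κ w : ℤ) : A) * (1 + (k : A) * (((κ m : ℤ) : A) * el m - 1))
        ∈ Submodule.span R {1, el m} := by
      rw [Submodule.mem_span_pair]
      refine ⟨((κ w : ℤ) : R) * (1 - k), ((κ w : ℤ) : R) * k * ((κ m : ℤ) : R), ?_⟩
      simp only [Algebra.smul_def, map_mul, map_sub, map_one, map_intCast]
      noncomm_ring
    have e4 := Submodule.add_mem_sup e2 e3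
    rwa [sub_add_cancel] at e4
  have hspan := S.span
  rw [← hspan]
  rw [Submodule.span_le]
  rintro _ ⟨w, rfl⟩
  have := hel w
  rw [hspan]
  exact this

end ClaimB

end Pool.Agent.H418R3.BHAbs
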