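import Mathlib
import Pool.Agent.H418R3.BHAbs

/-!
Finite generation over the trace ring, and the conclusion.
-/

namespace Pool.Agent.H418R3.BHMain

open Pool.Agent.H418R3.BHCore Pool.Agent.H418R3.BHAbs

variable {R A : Type*} [CommRing R] [Ring A] [Algebra R A] {G : Type*} [Group G]
variable {el : G →* A} {t : G → R}

theorem triple_trace (S : Setup el t) (g h k : G) :
    (el g - el g⁻¹) * (el h - el h⁻¹) * (el k - el k⁻¹)
      - (el k - el k⁻¹) * (el h - el h⁻¹) * (el g - el g⁻¹)
    = algebraMap R A (t (g * h * k) - t (g * h * k⁻¹) - t (g * h⁻¹ * k) + t (g * h⁻¹ * k⁻¹)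
        - t (g⁻¹ * h * k) + t (g⁻¹ * h * k⁻¹) + t (g⁻¹ * h⁻¹ * k) - t (g⁻¹ * h⁻¹ * k⁻¹)) := by
  simp only [map_add, map_sub, S.ht, mul_sub, sub_mul, mul_inv_rev, inv_inv]
  simp only [← map_mul, mul_assoc]
  abel

/-- the spanning set -/
def gen (el : G →* A) (F : Finset G) : Set A :=
  {1} ∪ (fun g => el g - el g⁻¹) '' F ∪
    (fun p : G × G => (el p.1 - el p.1⁻¹) * (el p.2 - el p.2⁻¹)) '' (F ×ˢ F : Finset (G × G))

theorem gen_finite (el : G →* A) (F : Finset G) : (gen el F).Finite := by
  unfold gen
  refine ((Set.finite_singleton _).union (F.finite_toSet.image _)).union ?_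
  exact (Finset.finite_toSet _).image _

theorem one_mem_gen (el : G →* A) (F : Finset G) : (1 : A) ∈ gen el F :=
  Or.inl (Or.inl rfl)

theorem d_mem_gen (el : G →* A) (F : Finset G) {g : G} (hg : g ∈ F) :
    el g - el g⁻¹ ∈ gen el F := Or.inl (Or.inr ⟨g, hg, rfl⟩)

theorem dd_mem_gen (el : G →* A) (F : Finset G) {g h : G} (hg : g ∈ F) (hh : h ∈ F) :
    (el g - el g⁻¹) * (el h - el h⁻¹) ∈ gen el F :=
  Or.inr ⟨(g, h), by simp [hg, hh], rfl⟩

theorem half_mem (S : Setup el t) (M : Submodule R A) {x : A} (hx : x + x ∈ M) : x ∈ M := by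
  obtain ⟨c, hc⟩ := S.half
  have : x = c • (x + x) := by
    rw [← two_smul R x, smul_smul, hc, one_smul]
  rw [this]; exact M.smul_mem _ hx

theorem d_mul_mem (S : Setup el t) (F : Finset G) {g : G} (hg : g ∈ F) {x : A}
    (hx : x ∈ Submodule.span R (gen el F)) :
    (el g - el g⁻¹) * x ∈ Submodule.span R (gen el F) := by
  induction hx using Submodule.span_induction with
  | zero => rw [mul_zero]; exact Submodule.zero_mem _
  | add x y _ _ hx hy => rw [mul_add]; exact Submodule.add_mem _ hx hy
  | smul a x _ hx => rw [mul_smul_comm]; exact Submodule.smul_mem _ _ hx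
  | mem x hx =>
    rcases hx with (hx | ⟨h, hh, rfl⟩) | ⟨⟨h, k⟩, hhk, rfl⟩
    · rw [Set.mem_singleton_iff] at hx
      rw [hx, mul_one]
      exact Submodule.subset_span (d_mem_gen el F hg)
    · exact Submodule.subset_span (dd_mem_gen el F hg hh)
    · have hh : h ∈ F ∧ k ∈ F := by simpa using hhk
      apply half_mem S
      simp only
      set a := el g - el g⁻¹ with ha
      set b := el h - el h⁻¹ with hb
      set c := el k - el k⁻¹ with hc
      have e : a * (b * c) + a * (b * c) = (a * b * c - c * b * a)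
          + ((a * b + b * a) * c - b * (a * c + c * a) + (b * c + c * b) * a) := by
        noncomm_ring
      rw [e, triple_trace S g h k, S.sym g h, S.sym g k, S.sym h k]
      refine Submodule.add_mem _ ?_ (Submodule.add_mem _ (Submodule.sub_mem _ ?_ ?_) ?_)
      · rw [Algebra.algebraMap_eq_smul_one]
        exact Submodule.smul_mem _ _ (Submodule.subset_span (one_mem_gen el F))
      · rw [← Algebra.smul_def]
        exact Submodule.smul_mem _ _ (Submodule.subset_span (d_mem_gen el F hh.2))
      · rw [← Algebra.commutes, ← Algebra.smul_def]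
        exact Submodule.smul_mem _ _ (Submodule.subset_span (d_mem_gen el F hh.1))
      · rw [← Algebra.smul_def]
        exact Submodule.smul_mem _ _ (Submodule.subset_span (d_mem_gen el F hg))

theorem el_mul_mem (S : Setup el t) (F : Finset G) {g : G} (hg : g ∈ F) {x : A}
    (hx : x ∈ Submodule.span R (gen el F)) :
    el g * x ∈ Submodule.span R (gen el F) := by
  apply half_mem S
  have e : el g * x + el g * x = algebraMap R A (t g) * x + (el g - el g⁻¹) * x := by
    rw [S.ht]; noncomm_ring
  rw [e, ← Algebra.smul_def]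
  exact Submodule.add_mem _ (Submodule.smul_mem _ _ hx) (d_mul_mem S F hg hx)

theorem el_inv_mul_mem (S : Setup el t) (F : Finset G) {g : G} (hg : g ∈ F) {x : A}
    (hx : x ∈ Submodule.span R (gen el F)) :
    el g⁻¹ * x ∈ Submodule.span R (gen el F) := by
  apply half_mem S
  have e : el g⁻¹ * x + el g⁻¹ * x = algebraMap R A (t g) * x - (el g - el g⁻¹) * x := by
    rw [S.ht]; noncomm_ring
  rw [e, ← Algebra.smul_def]
  exact Submodule.sub_mem _ (Submodule.smul_mem _ _ hx) (d_mul_mem S F hg hx)

theorem top_fg (S : Setup el t) [hG : Group.FG G] : (⊤ : Submodule R A).FG := by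
  obtain ⟨F, hF⟩ : ∃ F : Finset G, Subgroup.closure (F : Set G) = ⊤ := Group.fg_def.mp hG
  have key : ∀ w : G, ∀ x ∈ Submodule.span R (gen el F), el w * x ∈ Submodule.span R (gen el F) := by
    intro w
    have hw : w ∈ Subgroup.closure (F : Set G) := by rw [hF]; trivial
    induction hw using Subgroup.closure_induction with
    | mem y hy => intro x hx; exact el_mul_mem S F hy hx
    | one => intro x hx; rw [map_one, one_mul]; exact hx
    | mul a b _ _ ha hb => intro x hx; rw [map_mul, mul_assoc]; exact ha _ (hb _ hx)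
    | inv a ha' ha =>
      -- inverse: `a⁻¹ x = t(a) x - a x`
      intro x hx
      have e : el a⁻¹ * x = algebraMap R A (t a) * x - el a * x := by
        rw [S.ht]; noncomm_ring
      rw [e, ← Algebra.smul_def]
      exact Submodule.sub_mem _ (Submodule.smul_mem _ _ hx) (ha x hx)
  have htop : Submodule.span R (gen el F) = ⊤ := by
    rw [eq_top_iff, ← S.span, Submodule.span_le]
    rintro _ ⟨w, rfl⟩
    have := key w 1 (Submodule.subset_span (one_mem_gen el F))
    rwa [mul_one] at this
  rw [← htop]
  exact Submodule.fg_span (gen_finite el F)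

/-- The main abstract theorem. -/
theorem main_abs (S : Setup el t) [Group.FG G] (m l : G)
    (hm : Subgroup.normalClosure {m} = ⊤) (hl : Commute m l) :
    el l ∈ Submodule.span R {1, el m} := by
  set P : Submodule R A := Submodule.span R {1, el m} with hP
  have h1P : (1 : A) ∈ P := Submodule.subset_span (by simp)
  have hmP : el m ∈ P := Submodule.subset_span (by simp)
  let J : Ideal R :=
    { carrier := {r | r • el l ∈ P}
      add_mem' := by
        intro a b ha hb
        simp only [Set.mem_ofPred_eq] at *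
        rw [add_smul]; exact P.add_mem ha hb
      zero_mem' := by simp
      smul_mem' := by
        intro c x hx
        simp only [Set.mem_ofPred_eq] at *
        rw [smul_assoc]; exact P.smul_mem _ hx }
  by_contra hcon
  have hJ : J ≠ ⊤ := by
    intro h
    apply hcon
    have : (1 : R) ∈ J := by rw [h]; trivial
    have h' : (1 : R) • el l ∈ P := this
    rwa [one_smul] at h'
  obtain ⟨n, hn, hJn⟩ := J.exists_le_maximal hJ
  by_cases hcase : ∀ g, t (g * m) - t (g * m⁻¹) ∈ n
  · -- Nakayama
    have hB := claimB S m hm n hn.isPrime hcase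
    have hQ : (⊤ : Submodule R (A ⧸ P)) ≤ n • (⊤ : Submodule R (A ⧸ P)) := by
      have h1 : Submodule.map P.mkQ ⊤ ≤
          Submodule.map P.mkQ (n • (⊤ : Submodule R A) ⊔ P) := Submodule.map_mono hB
      rw [Submodule.map_sup, Submodule.map_smul'', Submodule.mkQ_map_self, sup_bot_eq,
        Submodule.map_top, Submodule.range_mkQ] at h1
      exact h1
    have hfg : (⊤ : Submodule R (A ⧸ P)).FG := by
      have := (top_fg S).map P.mkQ
      rwa [Submodule.map_top, Submodule.range_mkQ] at this
    obtain ⟨r, hr, hr2⟩ :=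
      Submodule.exists_sub_one_mem_and_smul_eq_zero_of_fg_of_le_smul n _ hfg hQ
    have h3 := hr2 (P.mkQ (el l)) trivial
    rw [← map_smul, Submodule.mkQ_apply, Submodule.Quotient.mk_eq_zero] at h3
    have h4 : r ∈ n := hJn h3
    have h5 : (1 : R) ∈ n := by
      have := n.sub_mem h4 hr
      rwa [sub_sub_cancel] at this
    exact hn.ne_top ((Ideal.eq_top_iff_one n).mpr h5)
  · push Not at hcase
    obtain ⟨g, hg⟩ := hcase
    apply hg
    have h1 := S.star g m l hl
    set σ := t (g * m) - t (g * m⁻¹) with hσ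
    set τ := t (g * l) - t (g * l⁻¹) with hτ
    have h2 : (2 * σ) • el l = (σ * t l) • (1 : A) + τ • (el m + el m) - (τ * t m) • (1 : A) := by
      have e1 : (2 * σ) • el l = (σ * t l) • (1 : A)
          + (algebraMap R A σ * (el l - el l⁻¹)) := by
        rw [Algebra.smul_def, Algebra.smul_def, mul_one, map_mul, map_mul, S.ht, map_ofNat]
        have : (2 : A) * algebraMap R A σ = algebraMap R A σ * 2 := by
          rw [← map_ofNat (algebraMap R A) 2]; exact Algebra.commutes _ _
        rw [this]
        noncomm_ring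
      rw [e1, h1, Algebra.smul_def τ, Algebra.smul_def (τ * t m), mul_one, map_mul _ τ, S.ht m]
      noncomm_ring
    have h3 : (2 * σ) • el l ∈ P := by
      rw [h2]
      exact P.sub_mem (P.add_mem (P.smul_mem _ h1P) (P.smul_mem _ (P.add_mem hmP hmP)))
        (P.smul_mem _ h1P)
    have h4 : 2 * σ ∈ n := hJn h3
    exact (hn.isPrime.mem_or_mem h4).resolve_left (not_two_mem S n hn.isPrime)

end Pool.Agent.H418R3.BHMain
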