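import Mathlib
import Pool.Agent.H418R3.BHMain

/-!
# The Brumfiel-Hilden algebra of a group
-/

namespace Pool.Agent.H418R3

/-- The defining relations of `H[π]`: every `h + h⁻¹` commutes with every `g` in the complex
group algebra of `π`. -/
inductive BHRel (π : Type*) [Group π] : MonoidAlgebra ℂ π → MonoidAlgebra ℂ π → Prop
  | central (g h : π) :
      BHRel π
        (MonoidAlgebra.of ℂ π g * (MonoidAlgebra.of ℂ π h + MonoidAlgebra.of ℂ π h⁻¹))
        ((MonoidAlgebra.of ℂ π h + MonoidAlgebra.of ℂ π h⁻¹) * MonoidAlgebra.of ℂ π g)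

/-- The algebra `H[π] = ℂ[π] / ⟨ g (h + h⁻¹) - (h + h⁻¹) g ⟩` (quotient by the two-sided ideal
generated by these elements). -/
abbrev BHAlg (π : Type*) [Group π] : Type _ := RingQuot (BHRel π)

/-- The canonical map `π → H[π]`. -/
noncomputable def bhOf (π : Type*) [Group π] : π →* BHAlg π :=
  ((RingQuot.mkAlgHom ℂ (BHRel π) : MonoidAlgebra ℂ π →ₐ[ℂ] BHAlg π) :
    MonoidAlgebra ℂ π →* BHAlg π).comp (MonoidAlgebra.of ℂ π)

/-- `H⁺[π]`: the subalgebra of `H[π]` generated by the images of all `g + g⁻¹`. -/
noncomputable def bhPlus (π : Type*) [Group π] : Subalgebra ℂ (BHAlg π) :=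
  Algebra.adjoin ℂ (Set.range fun g : π => bhOf π g + bhOf π g⁻¹)

section General

variable (π : Type*) [Group π]

theorem bhOf_apply (g : π) :
    bhOf π g = RingQuot.mkAlgHom ℂ (BHRel π) (MonoidAlgebra.of ℂ π g) := rfl

theorem bh_central (g h : π) :
    bhOf π g * (bhOf π h + bhOf π h⁻¹) = (bhOf π h + bhOf π h⁻¹) * bhOf π g := by
  simp only [bhOf_apply, ← map_add, ← map_mul]
  exact RingQuot.mkAlgHom_rel ℂ (BHRel.central g h)

theorem bh_induction {p : BHAlg π → Prop} (h0 : p 0) (hadd : ∀ x y, p x → p y → p (x + y))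
    (hsmul : ∀ (c : ℂ) g, p (c • bhOf π g)) (x : BHAlg π) : p x := by
  obtain ⟨y, rfl⟩ := RingQuot.mkAlgHom_surjective ℂ (BHRel π) x
  induction y using MonoidAlgebra.induction_linear with
  | zero => rw [map_zero]; exact h0
  | add a b ha hb => rw [map_add]; exact hadd _ _ ha hb
  | single g c =>
    have : (MonoidAlgebra.single g c : MonoidAlgebra ℂ π) = c • MonoidAlgebra.of ℂ π g := by
      simp
    rw [this, map_smul]
    exact hsmul c g

theorem bhPlus_commutes {x : BHAlg π} (hx : x ∈ bhPlus π) (y : BHAlg π) : x * y = y * x := by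
  induction hx using Algebra.adjoin_induction with
  | mem x hx =>
    obtain ⟨h, hh⟩ := hx
    simp only at hh
    induction y using bh_induction with
    | h0 => simp
    | hadd a b ha hb => rw [mul_add, add_mul, ha, hb]
    | hsmul c g => rw [mul_smul_comm, smul_mul_assoc, ← hh, bh_central]
  | algebraMap r => exact Algebra.commutes r y
  | add a b _ _ ha hb => rw [mul_add, add_mul, ha, hb]
  | mul a b _ _ ha hb => rw [mul_assoc, hb, ← mul_assoc, ha, mul_assoc]

/-- `H⁺` as a ring of scalars -/
def PlusRing : Type _ := bhPlus π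

/-- commutative ring structure on `H⁺` -/
noncomputable instance : CommRing (PlusRing π) :=
  { (inferInstance : Ring (bhPlus π)) with
    mul_comm := fun a b => Subtype.ext (bhPlus_commutes π a.2 b.1) }

/-- the inclusion -/
noncomputable def plusIncl : PlusRing π →+* BHAlg π := ((bhPlus π).val : (bhPlus π) →+* BHAlg π)

theorem plusIncl_mem (r : PlusRing π) : plusIncl π r ∈ bhPlus π :=
  (show (bhPlus π) from r).2

noncomputable instance : Algebra (PlusRing π) (BHAlg π) :=
  RingHom.toAlgebra' (plusIncl π) (fun c x => bhPlus_commutes π (plusIncl_mem π c) x)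

theorem plus_algebraMap (r : PlusRing π) : algebraMap (PlusRing π) (BHAlg π) r = plusIncl π r := rfl

/-- the trace -/
noncomputable def plusTr (g : π) : PlusRing π :=
  (⟨bhOf π g + bhOf π g⁻¹, Algebra.subset_adjoin ⟨g, rfl⟩⟩ : bhPlus π)

/-- constants -/
noncomputable def plusC : ℂ →+* PlusRing π := algebraMap ℂ (bhPlus π)

theorem plusIncl_plusC (c : ℂ) : plusIncl π (plusC π c) = algebraMap ℂ (BHAlg π) c := rfl

theorem bh_setup : BHAbs.Setup (R := PlusRing π) (bhOf π) (plusTr π) :=
  { ht := fun g => rfl
    inj := fun a b h => Subtype.ext h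
    span := by
      rw [eq_top_iff]
      rintro x -
      induction x using bh_induction with
      | h0 => exact Submodule.zero_mem _
      | hadd a b ha hb => exact Submodule.add_mem _ ha hb
      | hsmul c g =>
        have : c • bhOf π g = (plusC π c) • bhOf π g := by
          rw [Algebra.smul_def, Algebra.smul_def, plus_algebraMap, plusIncl_plusC]
        rw [this]
        exact Submodule.smul_mem _ _ (Submodule.subset_span ⟨g, rfl⟩)
    half := ⟨plusC π (1 / 2), by
      rw [← map_ofNat (plusC π) 2, ← map_mul]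
      norm_num⟩ }

end General

/-- **General theorem.** For a finitely generated group `π` normally generated by `m`, the image of
every `l` commuting with `m` lies in the subalgebra generated by `H⁺[π]` and `m, m⁻¹`. -/
theorem bh_general (π : Type*) [Group π] [Group.FG π] (m l : π)
    (hm : Subgroup.normalClosure {m} = ⊤) (hl : Commute m l) :
    bhOf π l ∈ Algebra.adjoin ℂ
      ((bhPlus π : Set (BHAlg π)) ∪ {bhOf π m, bhOf π m⁻¹}) := by
  have hmain := BHMain.main_abs (bh_setup π) m l hm hl
  rw [Submodule.mem_span_pair] at hmain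
  obtain ⟨a, b, hab⟩ := hmain
  rw [← hab, Algebra.smul_def, Algebra.smul_def, mul_one, plus_algebraMap, plus_algebraMap]
  refine Subalgebra.add_mem _ ?_ (Subalgebra.mul_mem _ ?_ ?_)
  · exact Algebra.subset_adjoin (Or.inl (plusIncl_mem π a))
  · exact Algebra.subset_adjoin (Or.inl (plusIncl_mem π b))
  · exact Algebra.subset_adjoin (Or.inr (Or.inl rfl))

end Pool.Agent.H418R3
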