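import Mathlib

open Set Filter Topology

namespace Pool.Agent.H418R3.CT

variable {E : Type*} [AddCommGroup E] [Module ℝ E] [TopologicalSpace E]

/-- `D` is a nonempty compact convex subset of the hyperplane `ψ = 1`. -/
structure Good (ψ : E →L[ℝ] ℝ) (D : Set E) : Prop where
  comp : IsCompact D
  conv : Convex ℝ D
  ne : D.Nonempty
  one : ∀ x ∈ D, ψ x = 1

/-- `D` is invariant under `T` up to normalisation by `ψ`. -/
def Inv (ψ : E →L[ℝ] ℝ) (T : E →L[ℝ] E) (D : Set E) : Prop :=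
  ∀ x ∈ D, 0 < ψ (T x) ∧ (ψ (T x))⁻¹ • T x ∈ D

variable [T2Space E] [IsTopologicalAddGroup E] [ContinuousSMul ℝ E]

theorem good_sub {ψ : E →L[ℝ] ℝ} {D : Set E} (hD : Good ψ D) (A : Set (E →L[ℝ] E))
    (hne : {x | x ∈ D ∧ ∀ T ∈ A, T x = x}.Nonempty) :
    Good ψ {x | x ∈ D ∧ ∀ T ∈ A, T x = x} := by
  refine ⟨?_, ?_, hne, fun x hx => hD.one x hx.1⟩
  · have hcl : IsClosed {x : E | ∀ T ∈ A, T x = x} := by
      have : {x : E | ∀ T ∈ A, T x = x} = ⋂ T ∈ A, {x | T x = x} := by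
        ext x; simp
      rw [this]
      exact isClosed_biInter fun T _ => isClosed_eq T.continuous continuous_id
    exact hD.comp.inter_right hcl
  · intro x hx y hy s t hs ht hst
    refine ⟨hD.conv hx.1 hy.1 hs ht hst, fun T hT => ?_⟩
    rw [map_add, map_smul, map_smul, hx.2 T hT, hy.2 T hT]

omit [T2Space E] in
theorem avg_mem {ψ : E →L[ℝ] ℝ} {D : Set E} (hD : Good ψ D) {G : Type*} [Group G]
    (π : G →* (E →L[ℝ] E)) (F : Subgroup G) [Finite F]
    (hinv : ∀ g ∈ F, Inv ψ (π g) D) : ∃ x ∈ D, ∀ g ∈ F, π g x = x := by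
  classical
  have := Fintype.ofFinite F
  obtain ⟨d, hd⟩ := hD.ne
  set y : E := ∑ g : F, π (g : G) d with hy
  have hpos : ∀ g : F, 0 < ψ (π (g : G) d) := fun g => (hinv g g.2 d hd).1
  have hψy : ψ y = ∑ g : F, ψ (π (g : G) d) := by rw [hy, map_sum]
  have hψpos : 0 < ψ y := by
    rw [hψy]
    exact Finset.sum_pos (fun g _ => hpos g) ⟨1, Finset.mem_univ _⟩
  refine ⟨(ψ y)⁻¹ • y, ?_, ?_⟩
  · have hmem : ∑ g : F, ((ψ y)⁻¹ * ψ (π (g : G) d)) • ((ψ (π (g : G) d))⁻¹ • π (g : G) d) ∈ D := by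
      refine hD.conv.sum_mem (fun g _ => ?_) ?_ (fun g _ => (hinv g g.2 d hd).2)
      · exact (mul_pos (inv_pos.2 hψpos) (hpos g)).le
      · rw [← Finset.mul_sum, ← hψy, inv_mul_cancel₀ hψpos.ne']
    convert hmem using 1
    rw [hy, Finset.smul_sum]
    refine Finset.sum_congr rfl fun g _ => ?_
    rw [smul_smul, mul_assoc, mul_inv_cancel₀ (hpos g).ne', mul_one]
  · intro h hh
    rw [map_smul]
    congr 1
    rw [hy, map_sum]
    rw [← Equiv.sum_comp (Equiv.mulLeft (⟨h, hh⟩ : F)) (fun g : F => π (g : G) d)]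
    refine Finset.sum_congr rfl fun g _ => ?_
    simp [map_mul]

theorem fixed_dir {ψ : E →L[ℝ] ℝ} {D : Set E} (hD : Good ψ D) {G : Type*} [Group G]
    (π : G →* (E →L[ℝ] E)) {ι : Type*} [Nonempty ι] [Preorder ι] [IsDirectedOrder ι]
    (F : ι → Subgroup G) (hfin : ∀ i, Finite (F i)) (hmono : Monotone F)
    (hinv : ∀ i, ∀ g ∈ F i, Inv ψ (π g) D) :
    ∃ x ∈ D, ∀ i, ∀ g ∈ F i, π g x = x := by
  set K : ι → Set E := fun i => {x | x ∈ D ∧ ∀ T ∈ {T | ∃ g ∈ F i, T = π g}, T x = x} with hK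
  have hgood : ∀ i, Good ψ (K i) := by
    intro i
    have := hfin i
    obtain ⟨x, hx, hx2⟩ := avg_mem hD π (F i) (hinv i)
    refine good_sub hD _ ⟨x, hx, ?_⟩
    rintro T ⟨g, hg, rfl⟩
    exact hx2 g hg
  have hdir : Directed (· ⊇ ·) K := by
    intro i j
    obtain ⟨k, hik, hjk⟩ := exists_ge_ge i j
    refine ⟨k, ?_, ?_⟩
    · intro x hx
      refine ⟨hx.1, ?_⟩
      rintro T ⟨g, hg, rfl⟩
      exact hx.2 _ ⟨g, hmono hik hg, rfl⟩
    · intro x hx
      refine ⟨hx.1, ?_⟩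
      rintro T ⟨g, hg, rfl⟩
      exact hx.2 _ ⟨g, hmono hjk hg, rfl⟩
  obtain ⟨x, hx⟩ := IsCompact.nonempty_iInter_of_directed_nonempty_isCompact_isClosed K hdir
    (fun i => (hgood i).ne) (fun i => (hgood i).comp) (fun i => (hgood i).comp.isClosed)
  rw [mem_iInter] at hx
  refine ⟨x, (hx (Classical.arbitrary ι)).1, fun i g hg => (hx i).2 _ ⟨g, hg, rfl⟩⟩

theorem eigen [LocallyConvexSpace ℝ E] {ψ : E →L[ℝ] ℝ} {D : Set E} (hD : Good ψ D) {J : Type*}
    (T : J → E →L[ℝ] E)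
    (hcomm : ∀ i j x, T i (T j x) = T j (T i x)) (hinv : ∀ j, Inv ψ (T j) D) :
    ∃ x ∈ D, ∀ j, T j x = ψ (T j x) • x := by
  classical
  set S : Set (Set E) := {t | Good ψ t ∧ ∀ j, Inv ψ (T j) t} with hS
  obtain ⟨m, hmD, hmin⟩ := zorn_superset_nonempty S (by
    intro c hc hchain hcne
    have : Nonempty c := hcne.to_subtype
    refine ⟨⋂₀ c, ⟨⟨?_, ?_, ?_, ?_⟩, ?_⟩, fun s hs => sInter_subset_of_mem hs⟩
    · obtain ⟨s, hs⟩ := hcne
      exact (hc hs).1.comp.of_isClosed_subset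
        (isClosed_sInter fun t ht => (hc ht).1.comp.isClosed) (sInter_subset_of_mem hs)
    · exact convex_sInter fun t ht => (hc ht).1.conv
    · rw [sInter_eq_iInter]
      refine IsCompact.nonempty_iInter_of_directed_nonempty_isCompact_isClosed _ (fun t u => ?_)
        (fun t => (hc t.2).1.ne) (fun t => (hc t.2).1.comp)
        (fun t => (hc t.2).1.comp.isClosed)
      obtain htu | hut := hchain.total t.2 u.2
      exacts [⟨t, Subset.rfl, htu⟩, ⟨u, hut, Subset.rfl⟩]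
    · intro x hx
      obtain ⟨s, hs⟩ := hcne
      exact (hc hs).1.one x (hx s hs)
    · intro j x hx
      obtain ⟨s, hs⟩ := hcne
      exact ⟨((hc hs).2 j x (hx s hs)).1, fun t ht => ((hc ht).2 j x (hx t ht)).2⟩) D ⟨hD, hinv⟩
  have hmS : Good ψ m ∧ ∀ j, Inv ψ (T j) m := hmin.prop
  obtain ⟨x, hx⟩ := hmS.1.comp.extremePoints_nonempty hmS.1.ne
  refine ⟨x, hmD hx.1, fun j => ?_⟩
  -- the image of `m` under `1 + T j`
  set f : E → E := fun d => (ψ (d + T j d))⁻¹ • (d + T j d) with hf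
  have hpos : ∀ d ∈ m, 0 < ψ (d + T j d) := by
    intro d hd
    rw [map_add, hmS.1.one d hd]
    have := (hmS.2 j d hd).1
    linarith
  have hfm : ∀ d ∈ m, f d ∈ m := by
    intro d hd
    have h1 := hmS.2 j d hd
    have h2 : f d = (ψ (d + T j d))⁻¹ • d +
        ((ψ (d + T j d))⁻¹ * ψ (T j d)) • ((ψ (T j d))⁻¹ • T j d) := by
      simp only [hf]
      rw [smul_add, smul_smul, mul_assoc, mul_inv_cancel₀ h1.1.ne', mul_one]
    rw [h2]
    refine hmS.1.conv hd h1.2 (inv_pos.2 (hpos d hd)).le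
      (mul_pos (inv_pos.2 (hpos d hd)) h1.1).le ?_
    have h3 : ψ (d + T j d) = 1 + ψ (T j d) := by rw [map_add, hmS.1.one d hd]
    have h4 := (hpos d hd).ne'
    rw [h3] at h4 ⊢
    field_simp
  have hDS : f '' m ∈ S := by
    refine ⟨⟨?_, ?_, hmS.1.ne.image f, ?_⟩, ?_⟩
    · refine hmS.1.comp.image_of_continuousOn ?_
      refine ContinuousOn.smul ?_ ?_
      · refine ContinuousOn.inv₀ ?_ (fun d hd => (hpos d hd).ne')
        exact (ψ.continuous.comp (continuous_id.add (T j).continuous)).continuousOn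
      · exact (continuous_id.add (T j).continuous).continuousOn
    · rintro _ ⟨d₁, hd₁, rfl⟩ _ ⟨d₂, hd₂, rfl⟩ s t hs ht hst
      have p1 := hpos d₁ hd₁
      have p2 := hpos d₂ hd₂
      set u : ℝ := s * (ψ (d₁ + T j d₁))⁻¹ with hu
      set v : ℝ := t * (ψ (d₂ + T j d₂))⁻¹ with hv
      have hu0 : 0 ≤ u := mul_nonneg hs (inv_pos.2 p1).le
      have hv0 : 0 ≤ v := mul_nonneg ht (inv_pos.2 p2).le
      have huv : 0 < u + v := by
        rcases hs.eq_or_lt with h | h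
        · have : t = 1 := by linarith
          have hv1 : 0 < v := by rw [hv, this, one_mul]; exact inv_pos.2 p2
          linarith
        · have : 0 < u := mul_pos h (inv_pos.2 p1)
          linarith
      set d : E := (u / (u + v)) • d₁ + (v / (u + v)) • d₂ with hd
      have hdm : d ∈ m := hmS.1.conv hd₁ hd₂ (div_nonneg hu0 huv.le) (div_nonneg hv0 huv.le)
        (by field_simp)
      have hsum : s • f d₁ + t • f d₂ = (u + v) • (d + T j d) := by
        have q1 : s • f d₁ = u • (d₁ + T j d₁) := by simp only [hf, smul_smul, hu]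
        have q2 : t • f d₂ = v • (d₂ + T j d₂) := by simp only [hf, smul_smul, hv]
        rw [q1, q2, hd]
        simp only [smul_smul, map_add, map_smul, smul_add]
        have e1 : (u + v) * (u / (u + v)) = u := by field_simp
        have e2 : (u + v) * (v / (u + v)) = v := by field_simp
        rw [e1, e2]
        abel
      refine ⟨d, hdm, ?_⟩
      have hone : ψ (s • f d₁ + t • f d₂) = 1 := by
        have q1 : ψ (f d₁) = 1 := by
          simp only [hf, map_smul, smul_eq_mul]; exact inv_mul_cancel₀ p1.ne'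
        have q2 : ψ (f d₂) = 1 := by
          simp only [hf, map_smul, smul_eq_mul]; exact inv_mul_cancel₀ p2.ne'
        rw [map_add, map_smul ψ s (f d₁), map_smul ψ t (f d₂), q1, q2]; simpa using hst
      rw [hsum] at hone ⊢
      rw [map_smul, smul_eq_mul] at hone
      simp only [hf]
      congr 1
      exact (eq_inv_of_mul_eq_one_left hone).symm
    · rintro _ ⟨d, hd, rfl⟩
      simp only [hf, map_smul, smul_eq_mul]; exact inv_mul_cancel₀ (hpos d hd).ne'
    · intro i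
      rintro _ ⟨d, hd, rfl⟩
      have h1 := hmS.2 i d hd
      set d' : E := (ψ (T i d))⁻¹ • T i d with hd'
      have hTf : T i (f d) = ((ψ (d + T j d))⁻¹ * ψ (T i d)) • (d' + T j d') := by
        simp only [hf, hd', map_smul, map_add]
        rw [← smul_add, smul_smul, mul_assoc, mul_inv_cancel₀ h1.1.ne', mul_one, hcomm i j]
      have hp' := hpos d' h1.2
      have hc : 0 < (ψ (d + T j d))⁻¹ * ψ (T i d) := mul_pos (inv_pos.2 (hpos d hd)) h1.1
      have hψTf : ψ (T i (f d)) = ((ψ (d + T j d))⁻¹ * ψ (T i d)) * ψ (d' + T j d') := by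
        rw [hTf, map_smul, smul_eq_mul]
      refine ⟨by rw [hψTf]; exact mul_pos hc hp', d', h1.2, ?_⟩
      rw [hψTf, hTf, smul_smul]
      have hcc : ∀ c q : ℝ, 0 < c → (c * q)⁻¹ * c = q⁻¹ := by
        intro c q hc
        rw [mul_inv, mul_comm c⁻¹, mul_assoc, inv_mul_cancel₀ hc.ne', mul_one]
      rw [hcc _ _ hc]
  have hsub : f '' m ⊆ m := by
    rintro _ ⟨d, hd, rfl⟩
    exact hfm d hd
  have heq : f '' m = m := hmin.eq_of_subset hDS hsub
  have hx' : x ∈ f '' m := by rw [heq]; exact hx.1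
  obtain ⟨d, hd, hdx⟩ := hx'
  have h1 := hmS.2 j d hd
  have h3 : ψ (d + T j d) = 1 + ψ (T j d) := by rw [map_add, hmS.1.one d hd]
  have h2 : x = (ψ (d + T j d))⁻¹ • d +
      ((ψ (d + T j d))⁻¹ * ψ (T j d)) • ((ψ (T j d))⁻¹ • T j d) := by
    rw [← hdx]
    simp only [hf]
    rw [smul_add, smul_smul, mul_assoc, mul_inv_cancel₀ h1.1.ne', mul_one]
  have hseg : x ∈ openSegment ℝ d ((ψ (T j d))⁻¹ • T j d) := by
    refine ⟨(ψ (d + T j d))⁻¹, (ψ (d + T j d))⁻¹ * ψ (T j d), inv_pos.2 (hpos d hd),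
      mul_pos (inv_pos.2 (hpos d hd)) h1.1, ?_, h2.symm⟩
    have h4 := (hpos d hd).ne'
    rw [h3] at h4 ⊢
    field_simp
  have hext := mem_extremePoints.1 hx
  obtain ⟨e1, e2⟩ := hext.2 d hd _ h1.2 hseg
  subst e1
  calc T j d = ψ (T j d) • ((ψ (T j d))⁻¹ • T j d) := by
        rw [smul_smul, mul_inv_cancel₀ h1.1.ne', one_smul]
    _ = ψ (T j d) • d := by rw [e2]

end Pool.Agent.H418R3.CT
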