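import Pool.Agent.H418R3.CTMain

open Set Filter Topology

namespace Pool.Agent.H418R3.CT

/-- Translation of the rows of `ℕ × ℤ` by `v`. -/
def tr (v : ℕ → ℤ) : Equiv.Perm (ℕ × ℤ) where
  toFun p := (p.1, p.2 + v p.1)
  invFun p := (p.1, p.2 - v p.1)
  left_inv p := by simp
  right_inv p := by simp

theorem tr_apply (v : ℕ → ℤ) (p : ℕ × ℤ) : tr v p = (p.1, p.2 + v p.1) := rfl

theorem tr_mul (v w : ℕ → ℤ) : tr v * tr w = tr (v + w) := by
  ext p
  · rfl
  · simp [tr_apply]; ring

/-- Permutation of the rows. -/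
def row : Equiv.Perm ℕ →* Equiv.Perm (ℕ × ℤ) where
  toFun σ := Equiv.prodCongr σ (Equiv.refl ℤ)
  map_one' := rfl
  map_mul' σ τ := rfl

theorem row_apply (σ : Equiv.Perm ℕ) (p : ℕ × ℤ) : row σ p = (σ p.1, p.2) := rfl

/-- The generator moving row `i` by `1` and row `j` by `-1`. -/
def aa (i j : ℕ) : Equiv.Perm (ℕ × ℤ) := tr (Pi.single i 1 - Pi.single j 1)

/-- Permutations with support in a finite set. -/
def LL (s : Finset (ℕ × ℤ)) : Subgroup (Equiv.Perm (ℕ × ℤ)) where
  carrier := {g | ∀ p, p ∉ s → g p = p}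
  mul_mem' := by
    intro g h hg hh p hp
    change g (h p) = p
    rw [hh p hp, hg p hp]
  one_mem' := fun _ _ => rfl
  inv_mem' := by
    intro g hg p hp
    change g⁻¹ p = p
    rw [Equiv.Perm.inv_eq_iff_eq]
    exact (hg p hp).symm

theorem finite_LL (s : Finset (ℕ × ℤ)) : Finite (LL s) := by
  classical
  have hmem : ∀ g : LL s, ∀ p : s, g.1 p ∈ s := by
    intro g p
    by_contra h
    have h1 := g.2 _ h
    have h2 : g.1 p = p := g.1.injective h1
    rw [h2] at h
    exact h p.2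
  let f : LL s → (s → s) := fun g p => ⟨g.1 p, hmem g p⟩
  refine Finite.of_injective f ?_
  intro g h hgh
  apply Subtype.ext
  ext1 p
  by_cases hp : p ∈ s
  · have := congrFun hgh ⟨p, hp⟩
    simpa [f] using this
  · rw [g.2 p hp, h.2 p hp]

/-- The generating set of the group. -/
def genSet : Set (Equiv.Perm (ℕ × ℤ)) :=
  {g | ∃ s, g ∈ LL s} ∪ {g | ∃ i j, g = aa i j} ∪ {g | ∃ σ ∈ FinPerm, g = row σ}

/-- The group. -/
def GG : Subgroup (Equiv.Perm (ℕ × ℤ)) := Subgroup.closure genSet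

theorem countable_genSet : genSet.Countable := by
  refine Set.Countable.union (Set.Countable.union ?_ ?_) ?_
  · have : {g | ∃ s, g ∈ LL s} = ⋃ s, (LL s : Set (Equiv.Perm (ℕ × ℤ))) := by
      ext g; simp
    rw [this]
    refine Set.countable_iUnion fun s => ?_
    have := finite_LL s
    exact (Set.toFinite (LL s : Set (Equiv.Perm (ℕ × ℤ)))).countable
  · have : {g | ∃ i j, g = aa i j} = Set.range (fun p : ℕ × ℕ => aa p.1 p.2) := by
      ext g; simp [eq_comm]
    rw [this]
    exact Set.countable_range _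
  · have hc : Countable FinPerm := by
      have := finite_finPermLE
      refine Function.Surjective.countable (f := fun x : (Σ m, FinPermLE m) => x.2.1) ?_
      rintro ⟨σ, m, hm⟩
      exact ⟨⟨m, ⟨⟨σ, m, hm⟩, hm⟩⟩, rfl⟩
    have : {g | ∃ σ ∈ FinPerm, g = row σ} = Set.range (fun σ : FinPerm => row σ.1) := by
      ext g; simp [eq_comm]
    rw [this]
    exact Set.countable_range _

instance countable_GG : Countable GG := by
  have h1 : Countable genSet := countable_genSet.to_subtype
  have h2 : Countable (FreeGroup genSet) := by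
    unfold FreeGroup
    infer_instance
  unfold GG
  rw [FreeGroup.closure_eq_range]
  have : ((FreeGroup.lift ((↑) : genSet → Equiv.Perm (ℕ × ℤ))).range :
      Set (Equiv.Perm (ℕ × ℤ))).Countable := by
    rw [MonoidHom.coe_range]
    exact Set.countable_range _
  exact this.to_subtype

theorem LL_le (s : Finset (ℕ × ℤ)) {g : Equiv.Perm (ℕ × ℤ)} (hg : g ∈ LL s) : g ∈ GG :=
  Subgroup.subset_closure (Or.inl (Or.inl ⟨s, hg⟩))

theorem aa_mem (i j : ℕ) : aa i j ∈ GG :=
  Subgroup.subset_closure (Or.inl (Or.inr ⟨i, j, rfl⟩))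

theorem row_mem {σ : Equiv.Perm ℕ} (hσ : σ ∈ FinPerm) : row σ ∈ GG :=
  Subgroup.subset_closure (Or.inr ⟨σ, hσ, rfl⟩)

/-- The structural data of `GG`. -/
def dataGG : Data GG where
  ι := Finset (ℕ × ℤ)
  ne := ⟨∅⟩
  pre := inferInstance
  dir := by classical infer_instance
  L s := (LL s).subgroupOf GG
  Lfin s := by
    have := finite_LL s
    refine Finite.of_injective (fun g : (LL s).subgroupOf GG => (⟨g.1.1, g.2⟩ : LL s)) ?_
    intro g h hgh
    apply Subtype.ext
    apply Subtype.ext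
    exact congrArg (fun x : LL s => (x : Equiv.Perm (ℕ × ℤ))) hgh
  Lmono := by
    intro s t hst g hg p hp
    exact hg p (fun h => hp (hst h))
  Lnorm := by
    classical
    intro g s h hh
    refine ⟨s.image (fun p => g.1⁻¹ p), ?_⟩
    intro p hp
    have h1 : g.1 p ∉ s := by
      intro h2
      apply hp
      rw [Finset.mem_image]
      exact ⟨g.1 p, h2, g.1.symm_apply_apply p⟩
    have h3 : h.1 (g.1 p) = g.1 p := hh _ h1
    change g.1⁻¹ (h.1 (g.1 p)) = p
    rw [h3]
    exact g.1.symm_apply_apply p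
  a i j := ⟨aa i j, aa_mem i j⟩
  acomm i j k l := by
    apply Subtype.ext
    change aa i j * aa k l = aa k l * aa i j
    rw [aa, aa, tr_mul, tr_mul, add_comm]
  amul i j k := by
    apply Subtype.ext
    change aa i j * aa j k = aa i k
    rw [aa, aa, tr_mul, aa]
    congr 1
    abel
  aself i := by
    apply Subtype.ext
    change aa i i = 1
    rw [aa, sub_self]
    ext p
    · rfl
    · simp [tr_apply]
  r :=
    { toFun := fun σ => ⟨row σ.1, row_mem σ.2⟩
      map_one' := by apply Subtype.ext; rfl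
      map_mul' := by intro σ τ; apply Subtype.ext; rfl }
  rconj σ i j := by
    apply Subtype.ext
    change row σ.1 * aa i j = aa (σ.1 i) (σ.1 j) * row σ.1
    have key : ∀ k l : ℕ, (Pi.single (σ.1 k) (1 : ℤ) : ℕ → ℤ) (σ.1 l) =
        (Pi.single k (1 : ℤ) : ℕ → ℤ) l := by
      intro k l
      by_cases h : l = k
      · subst h; simp
      · rw [Pi.single_eq_of_ne h, Pi.single_eq_of_ne (fun h' => h (σ.1.injective h'))]
    ext p
    · rfl
    · simp only [Equiv.Perm.mul_apply, aa, tr_apply, row_apply, Pi.sub_apply, key]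
  gen := by
    rw [eq_top_iff]
    have h := Subgroup.closure_closure_coe_preimage (k := genSet)
    change ⊤ ≤ _
    have h' : Subgroup.closure ((fun g : GG => (g : Equiv.Perm (ℕ × ℤ))) ⁻¹' genSet) = ⊤ := h
    rw [← h']
    refine Subgroup.closure_mono ?_
    rintro ⟨g, hgG⟩ hg
    rcases hg with (⟨s, hs⟩ | ⟨i, j, hij⟩) | ⟨σ, hσ, hgσ⟩
    · exact Or.inl (Or.inl ⟨s, hs⟩)
    · exact Or.inl (Or.inr ⟨i, j, Subtype.ext hij⟩)
    · exact Or.inr ⟨⟨σ, hσ⟩, Subtype.ext hgσ.symm⟩

end Pool.Agent.H418R3.CT
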