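import Pool.Agent.H418R3.CTGroup
import Pool.Agent.H418R3.CTDefs

open Set Filter Topology

namespace Pool.Agent.H418R3.CT

section base

variable {E : Type*} [AddCommGroup E] [Module ℝ E] [TopologicalSpace E]
  [T2Space E] [IsTopologicalAddGroup E] [ContinuousSMul ℝ E] [LocallyConvexSpace ℝ E]

/-- Every representation of such a group on a cone with compact base has a nonzero fixed
point. -/
theorem fix_of_base {G : Type*} [Group G] (d : Data G) (π : G →* (E →L[ℝ] E)) (C : Set E)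
    (hC : IsConeRep π C) (ψ : E →L[ℝ] ℝ) (hψ : ∀ x ∈ C, x ≠ 0 → 0 < ψ x)
    (hB : IsCompact {x | x ∈ C ∧ ψ x = 1}) (hne : ∃ x ∈ C, x ≠ 0) :
    ∃ x ∈ C, x ≠ 0 ∧ ∀ g, π g x = x := by
  have hgood : Good ψ {x | x ∈ C ∧ ψ x = 1} := by
    refine ⟨hB, ?_, ?_, fun x hx => hx.2⟩
    · intro x hx y hy s t hs ht hst
      refine ⟨hC.add_mem _ (hC.smul_mem s hs x hx.1) _ (hC.smul_mem t ht y hy.1), ?_⟩
      rw [map_add, map_smul, map_smul, hx.2, hy.2]
      simpa using hst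
    · obtain ⟨x, hx, hx0⟩ := hne
      have h := hψ x hx hx0
      refine ⟨(ψ x)⁻¹ • x, hC.smul_mem _ (inv_pos.2 h).le x hx, ?_⟩
      rw [map_smul, smul_eq_mul, inv_mul_cancel₀ h.ne']
  have hinv : ∀ g, Inv ψ (π g) {x | x ∈ C ∧ ψ x = 1} := by
    intro g x hx
    have hne : π g x ≠ 0 := by
      intro h
      have h1 : π g⁻¹ (π g x) = x := by
        have : π g⁻¹ (π g x) = (π g⁻¹ * π g) x := rfl
        rw [this, ← map_mul, inv_mul_cancel, map_one]; rfl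
      rw [h, map_zero] at h1
      have h2 := hx.2
      rw [← h1, map_zero] at h2
      exact zero_ne_one h2
    have h := hψ _ (hC.invariant g x hx.1) hne
    refine ⟨h, hC.smul_mem _ (inv_pos.2 h).le _ (hC.invariant g x hx.1), ?_⟩
    rw [map_smul, smul_eq_mul, inv_mul_cancel₀ h.ne']
  obtain ⟨x, hx, hfix⟩ := fixed_main d π hgood hinv
  refine ⟨x, hx.1, ?_, hfix⟩
  rintro rfl
  have := hx.2
  simp at this

end base

section banach

variable {H : Type*} [NormedAddCommGroup H] [NormedSpace ℝ H]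

/-- The norm of the underlying vector. -/
noncomputable def nm (x : WeakSpace ℝ H) : ℝ := ‖(toWeakSpace ℝ H).symm x‖

/-- A strong functional as a weakly continuous one. -/
noncomputable def wk (μ : StrongDual ℝ H) : WeakSpace ℝ H →L[ℝ] ℝ where
  toLinearMap := (μ : H →ₗ[ℝ] ℝ).comp ((toWeakSpace ℝ H).symm : WeakSpace ℝ H →ₗ[ℝ] H)
  cont := WeakBilin.eval_continuous (topDualPairing ℝ H).flip μ

theorem wk_apply (μ : StrongDual ℝ H) (x : WeakSpace ℝ H) :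
    wk μ x = μ ((toWeakSpace ℝ H).symm x) := rfl

theorem tendsto_weak {α : Type*} {F : Filter α} {f : α → WeakSpace ℝ H} {x : WeakSpace ℝ H}
    (h : ∀ μ : StrongDual ℝ H, Tendsto (fun a => wk μ (f a)) F (𝓝 (wk μ x))) :
    Tendsto f F (𝓝 x) := by
  refine (WeakBilin.tendsto_iff_forall_eval_tendsto (topDualPairing ℝ H).flip
    (fun _ _ h => ?_)).2 h
  by_contra hne
  obtain ⟨f, hf⟩ := SeparatingDual.exists_separating_of_ne (R := ℝ) hne
  exact hf (DFunLike.congr_fun h f)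

theorem functional_bound (φ : WeakSpace ℝ H →L[ℝ] ℝ) : ∃ M : ℝ, 0 ≤ M ∧ ∀ x, |φ x| ≤ M * nm x := by
  let μ : StrongDual ℝ H := φ.comp (toWeakSpaceCLM ℝ H)
  refine ⟨‖μ‖, norm_nonneg _, fun x => ?_⟩
  exact μ.le_opNorm _

theorem list_functional {G : Type*} [Group G] {E : Type*} [AddCommGroup E] [Module ℝ E]
    [TopologicalSpace E] [IsTopologicalAddGroup E] (π : G →* (E →L[ℝ] E)) (φ : E →L[ℝ] ℝ)
    (l : List G) : ∃ Φ : E →L[ℝ] ℝ, ∀ x, Φ x = (l.map fun g => φ (π g⁻¹ x)).sum := by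
  induction l with
  | nil => exact ⟨0, fun x => by simp⟩
  | cons a l ih =>
    obtain ⟨Φ, hΦ⟩ := ih
    refine ⟨φ.comp (π a⁻¹) + Φ, fun x => ?_⟩
    simp [hΦ]

theorem exists_base_functional {G : Type*} [Group G] [Countable G]
    (π : G →* (WeakSpace ℝ H →L[ℝ] WeakSpace ℝ H)) (C : Set (WeakSpace ℝ H))
    (hcob : CoboundedType π C) :
    ∃ ψ : WeakSpace ℝ H →L[ℝ] ℝ, ∀ x ∈ C, nm x ≤ ψ x := by
  obtain ⟨φ, hφ⟩ := hcob
  set K : List G → Set (StrongDual ℝ H) := fun l =>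
    {μ | ∀ x ∈ C, |wk μ x| ≤ (l.map fun g => φ (π g⁻¹ x)).sum} with hK
  have hcl : ∀ l, IsClosed (K l) := by
    intro l
    have : K l = ⋂ x ∈ C, {μ | |wk μ x| ≤ (l.map fun g => φ (π g⁻¹ x)).sum} := by
      ext μ; simp [hK]
    rw [this]
    refine isClosed_biInter fun x _ => isClosed_le ?_ continuous_const
    have hc : Continuous fun μ : StrongDual ℝ H => μ ((toWeakSpace ℝ H).symm x) :=
      (ContinuousLinearMap.apply ℝ ℝ ((toWeakSpace ℝ H).symm x)).continuous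
    exact hc.abs
  have huniv : ⋃ l, K l = univ := by
    rw [eq_univ_iff_forall]
    intro μ
    obtain ⟨l, hl⟩ := hφ (wk μ)
    exact mem_iUnion.2 ⟨l, hl⟩
  obtain ⟨l, μ₀, hμ₀⟩ := nonempty_interior_of_iUnion_of_closed hcl huniv
  rw [mem_interior_iff_mem_nhds, Metric.mem_nhds_iff] at hμ₀
  obtain ⟨r, hr, hball⟩ := hμ₀
  obtain ⟨Φ, hΦ⟩ := list_functional π φ l
  refine ⟨(4 / r) • Φ, fun x hx => ?_⟩
  have h0 : |wk μ₀ x| ≤ Φ x := by
    rw [hΦ]; exact hball (Metric.mem_ball_self hr) x hx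
  have hΦ0 : 0 ≤ Φ x := le_trans (abs_nonneg _) h0
  change ‖(toWeakSpace ℝ H).symm x‖ ≤ (4 / r) * Φ x
  by_cases hx0 : ‖(toWeakSpace ℝ H).symm x‖ = 0
  · rw [hx0]; positivity
  obtain ⟨μ, hμ, hμx⟩ := exists_dual_vector ℝ ((toWeakSpace ℝ H).symm x) hx0
  have h1 : |wk (μ₀ + (r / 2) • μ) x| ≤ Φ x := by
    rw [hΦ]
    refine hball ?_ x hx
    rw [Metric.mem_ball, dist_eq_norm, add_sub_cancel_left, norm_smul, hμ, mul_one,
      Real.norm_eq_abs, abs_of_pos (by positivity)]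
    linarith
  have h2 : wk (μ₀ + (r / 2) • μ) x = wk μ₀ x + (r / 2) * ‖(toWeakSpace ℝ H).symm x‖ := by
    have hμx' : μ ((toWeakSpace ℝ H).symm x) = ‖(toWeakSpace ℝ H).symm x‖ := by
      simpa using hμx
    rw [wk_apply, wk_apply, ContinuousLinearMap.add_apply, ContinuousLinearMap.smul_apply,
      hμx', smul_eq_mul]
  rw [h2] at h1
  have h3 := abs_le.1 h1
  have h4 := abs_le.1 h0
  have h5 : (r / 2) * ‖(toWeakSpace ℝ H).symm x‖ ≤ 2 * Φ x := by linarith [h3.2, h4.1]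
  rw [div_mul_eq_mul_div, le_div_iff₀ hr]
  nlinarith

theorem compact_base_of_complete (C : Set (WeakSpace ℝ H)) (ψ : WeakSpace ℝ H →L[ℝ] ℝ)
    (hψ : ∀ x ∈ C, nm x ≤ ψ x) (hC : WeaklyComplete C) :
    IsCompact {x | x ∈ C ∧ ψ x = 1} := by
  rw [isCompact_iff_ultrafilter_le_nhds]
  intro f hf
  rw [le_principal_iff] at hf
  have hfC : C ∈ (f : Filter (WeakSpace ℝ H)) := mem_of_superset hf fun x hx => hx.1
  obtain ⟨c, hc, hlim⟩ := hC f f.neBot hfC (by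
    intro φ
    obtain ⟨M, hM0, hM⟩ := functional_bound φ
    have hIcc : Icc (-M) M ∈ (f.map φ : Filter ℝ) := by
      refine mem_of_superset (image_mem_map hf) ?_
      rintro _ ⟨x, hx, rfl⟩
      rw [mem_Icc, ← abs_le]
      refine le_trans (hM x) ?_
      have := hψ x hx.1
      rw [hx.2] at this
      nlinarith
    obtain ⟨y, -, hy⟩ := isCompact_Icc.ultrafilter_le_nhds (f.map φ)
      (by rw [le_principal_iff]; exact hIcc)
    exact (cauchy_nhds (a := y)).mono hy)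
  refine ⟨c, ⟨hc, ?_⟩, ?_⟩
  · refine tendsto_nhds_unique (hlim ψ) ?_
    refine tendsto_const_nhds.congr' ?_
    filter_upwards [hf] with x hx
    exact hx.2.symm
  · have : Tendsto (fun x : WeakSpace ℝ H => x) (f : Filter (WeakSpace ℝ H)) (𝓝 c) :=
      tendsto_weak fun μ => hlim (wk μ)
    exact this

theorem compact_base_of_locallyCompact (C : Set (WeakSpace ℝ H)) (h0 : (0 : WeakSpace ℝ H) ∈ C)
    (hsmul : ∀ r : ℝ, 0 ≤ r → ∀ x ∈ C, r • x ∈ C)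
    (ψ : WeakSpace ℝ H →L[ℝ] ℝ)
    (hψ : ∀ x ∈ C, nm x ≤ ψ x) (hC : LocallyCompactSpace C) :
    IsCompact {x | x ∈ C ∧ ψ x = 1} := by
  obtain ⟨K, hK, hKn⟩ := exists_compact_mem_nhds (⟨0, h0⟩ : C)
  have hK' : IsCompact (Subtype.val '' K) := hK.image continuous_subtype_val
  rw [nhds_subtype_eq_comap] at hKn
  obtain ⟨U, hU, hUK⟩ := mem_comap.1 hKn
  have hlim : Tendsto (fun x : WeakSpace ℝ H => x) (comap ψ (𝓝 0) ⊓ 𝓟 C) (𝓝 0) := by
    refine tendsto_weak fun μ => ?_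
    rw [map_zero]
    have hψ0 : Tendsto ψ (comap ψ (𝓝 0) ⊓ 𝓟 C) (𝓝 0) := tendsto_comap.mono_left inf_le_left
    have h1 : Tendsto (fun x => ‖μ‖ * ψ x) (comap ψ (𝓝 0) ⊓ 𝓟 C) (𝓝 0) := by
      have := hψ0.const_mul ‖μ‖
      rwa [mul_zero] at this
    refine squeeze_zero_norm' ?_ h1
    have : C ∈ comap ψ (𝓝 0) ⊓ 𝓟 C := mem_inf_of_right (mem_principal_self C)
    filter_upwards [this] with x hx
    exact le_trans (μ.le_opNorm _) (mul_le_mul_of_nonneg_left (hψ x hx) (norm_nonneg _))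
  have hmem : U ∈ comap ψ (𝓝 0) ⊓ 𝓟 C := hlim hU
  rw [mem_inf_principal, mem_comap] at hmem
  obtain ⟨V, hV, hVU⟩ := hmem
  obtain ⟨ε, hε, hball⟩ := Metric.mem_nhds_iff.1 hV
  set δ : ℝ := ε / 2 with hδ
  have hδ0 : 0 < δ := by positivity
  have hBδ : {x | x ∈ C ∧ ψ x = δ} = (Subtype.val '' K) ∩ {x | ψ x = δ} := by
    ext x
    constructor
    · rintro ⟨hx, hx2⟩
      refine ⟨⟨⟨x, hx⟩, hUK ?_, rfl⟩, hx2⟩
      refine hVU ?_ hx
      refine hball ?_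
      rw [Metric.mem_ball, Real.dist_eq, sub_zero, hx2, abs_of_pos hδ0]
      linarith
    · rintro ⟨⟨y, -, rfl⟩, hx2⟩
      exact ⟨y.2, hx2⟩
  have hcδ : IsCompact {x | x ∈ C ∧ ψ x = δ} := by
    rw [hBδ]
    exact hK'.inter_right (isClosed_eq ψ.continuous continuous_const)
  have himg : {x | x ∈ C ∧ ψ x = 1} = (fun x => δ⁻¹ • x) '' {x | x ∈ C ∧ ψ x = δ} := by
    ext x
    constructor
    · rintro ⟨hx, hx2⟩
      refine ⟨δ • x, ⟨hsmul δ hδ0.le x hx, ?_⟩, ?_⟩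
      · rw [map_smul, hx2, smul_eq_mul, mul_one]
      · change δ⁻¹ • δ • x = x
        rw [smul_smul, inv_mul_cancel₀ hδ0.ne', one_smul]
    · rintro ⟨y, ⟨hy, hy2⟩, rfl⟩
      refine ⟨hsmul _ (inv_pos.2 hδ0).le y hy, ?_⟩
      change ψ (δ⁻¹ • y) = 1
      rw [map_smul, hy2, smul_eq_mul, inv_mul_cancel₀ hδ0.ne']
  rw [himg]
  exact hcδ.image (continuous_const_smul δ⁻¹)

theorem psi_pos (C : Set (WeakSpace ℝ H)) (ψ : WeakSpace ℝ H →L[ℝ] ℝ)
    (hψ : ∀ x ∈ C, nm x ≤ ψ x) : ∀ x ∈ C, x ≠ 0 → 0 < ψ x := by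
  intro x hx hx0
  refine lt_of_lt_of_le ?_ (hψ x hx)
  refine norm_pos_iff.2 fun h => hx0 ?_
  exact (toWeakSpace ℝ H).symm.map_eq_zero_iff.1 h

end banach

instance lcs_weak (H : Type*) [NormedAddCommGroup H] [NormedSpace ℝ H] :
    LocallyConvexSpace ℝ (WeakSpace ℝ H) :=
  inferInstanceAs (LocallyConvexSpace ℝ (WeakBilin _))

universe u

theorem HC_of_data (G : Type*) [Group G] [Countable G] (d : Data G) : HC.{u} G := by
  rintro H _ _ _ π C ⟨hC, hloc, hcob⟩ hcomp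
  obtain ⟨ψ, hψ⟩ := exists_base_functional π C hcob
  obtain ⟨x, hx, hx0, -⟩ := hloc
  exact fix_of_base d π C hC ψ (psi_pos C ψ hψ) (compact_base_of_complete C ψ hψ hcomp)
    ⟨x, hx, hx0⟩

theorem HL_of_data (G : Type*) [Group G] [Countable G] (d : Data G) : HL.{u} G := by
  rintro H _ _ _ π C ⟨hC, hloc, hcob⟩ hlc
  obtain ⟨ψ, hψ⟩ := exists_base_functional π C hcob
  obtain ⟨x, hx, hx0, -⟩ := hloc
  exact fix_of_base d π C hC ψ (psi_pos C ψ hψ)
    (compact_base_of_locallyCompact C hC.zero_mem hC.smul_mem ψ hψ hlc) ⟨x, hx, hx0⟩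

end Pool.Agent.H418R3.CT
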