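import Pool.Agent.H418R3.CTAbs

open Set Filter Topology

namespace Pool.Agent.H418R3.CT

/-- Finitely supported permutations of `ℕ`. -/
def FinPerm : Subgroup (Equiv.Perm ℕ) where
  carrier := {σ | ∃ m : ℕ, ∀ i, m ≤ i → σ i = i}
  mul_mem' := by
    rintro σ τ ⟨m, hm⟩ ⟨n, hn⟩
    refine ⟨max m n, fun i hi => ?_⟩
    rw [Equiv.Perm.mul_apply, hn i (le_trans (le_max_right _ _) hi),
      hm i (le_trans (le_max_left _ _) hi)]
  one_mem' := ⟨0, fun _ _ => rfl⟩
  inv_mem' := by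
    rintro σ ⟨m, hm⟩
    refine ⟨m, fun i hi => ?_⟩
    rw [Equiv.Perm.inv_eq_iff_eq]
    exact (hm i hi).symm

theorem swap_mem_finPerm (i j : ℕ) : Equiv.swap i j ∈ FinPerm :=
  ⟨max i j + 1, fun k hk => Equiv.swap_apply_of_ne_of_ne
    (by have := le_max_left i j; omega) (by have := le_max_right i j; omega)⟩

/-- Permutations fixing all `i ≥ m`. -/
def FinPermLE (m : ℕ) : Subgroup FinPerm where
  carrier := {σ | ∀ i, m ≤ i → σ.1 i = i}
  mul_mem' := by
    intro σ τ hm hn i hi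
    change σ.1 (τ.1 i) = i
    rw [hn i hi, hm i hi]
  one_mem' := fun _ _ => rfl
  inv_mem' := by
    intro σ hm i hi
    change σ.1⁻¹ i = i
    rw [Equiv.Perm.inv_eq_iff_eq]
    exact (hm i hi).symm

theorem finite_finPermLE (m : ℕ) : Finite (FinPermLE m) := by
  classical
  -- inject into functions `Fin m → Fin m`
  have hlt : ∀ σ : FinPermLE m, ∀ i : ℕ, i < m → σ.1.1 i < m := by
    intro σ i hi
    by_contra h
    rw [not_lt] at h
    have h1 := σ.2 _ h
    have h2 : σ.1.1 i = i := σ.1.1.injective h1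
    omega
  let f : FinPermLE m → (Fin m → Fin m) := fun σ i => ⟨σ.1.1 i, hlt σ i i.2⟩
  refine Finite.of_injective f ?_
  intro σ τ h
  apply Subtype.ext
  apply Subtype.ext
  ext i
  by_cases hi : i < m
  · have := congrFun h ⟨i, hi⟩
    simpa [f] using this
  · rw [not_lt] at hi
    rw [σ.2 i hi, τ.2 i hi]

theorem exists_perm (s : Finset ℕ) (f : ℕ → ℕ) (hf : Set.InjOn f s) :
    ∃ σ ∈ FinPerm, ∀ i ∈ s, σ i = f i := by
  classical
  induction s using Finset.induction_on with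
  | empty => exact ⟨1, one_mem _, by simp⟩
  | insert a s ha ih =>
    obtain ⟨σ, hσ, h⟩ := ih (hf.mono (by simp))
    refine ⟨Equiv.swap (σ a) (f a) * σ, mul_mem (swap_mem_finPerm _ _) hσ, fun i hi => ?_⟩
    rw [Equiv.Perm.mul_apply]
    rw [Finset.mem_insert] at hi
    rcases hi with rfl | hi
    · rw [Equiv.swap_apply_left]
    · have hia : i ≠ a := fun h => ha (h ▸ hi)
      rw [Equiv.swap_apply_of_ne_of_ne (fun h => hia (σ.injective h)), h i hi]
      rw [h i hi]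
      intro h'
      exact hia (hf (by simp [hi]) (by simp) h')

variable {E : Type*} [AddCommGroup E] [Module ℝ E] [TopologicalSpace E]
variable [T2Space E] [IsTopologicalAddGroup E] [ContinuousSMul ℝ E] [LocallyConvexSpace ℝ E]

/-- The structural data of the group used in the fixed point argument. -/
structure Data (G : Type*) [Group G] where
  ι : Type
  ne : Nonempty ι
  pre : Preorder ι
  dir : IsDirectedOrder ι
  L : ι → Subgroup G
  Lfin : ∀ i, Finite (L i)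
  Lmono : Monotone L
  Lnorm : ∀ (g : G) (i : ι), ∀ h ∈ L i, ∃ k, g⁻¹ * h * g ∈ L k
  a : ℕ → ℕ → G
  acomm : ∀ i j k l, a i j * a k l = a k l * a i j
  amul : ∀ i j k, a i j * a j k = a i k
  aself : ∀ i, a i i = 1
  r : FinPerm →* G
  rconj : ∀ (σ : FinPerm) (i j : ℕ), r σ * a i j = a (σ.1 i) (σ.1 j) * r σ
  gen : Subgroup.closure ({g | ∃ i, g ∈ L i} ∪ {g | ∃ i j, g = a i j} ∪ Set.range r) = ⊤

theorem fixed_main {G : Type*} [Group G] (d : Data G) (π : G →* (E →L[ℝ] E))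
    {ψ : E →L[ℝ] ℝ} {D : Set E} (hD : Good ψ D) (hinv : ∀ g, Inv ψ (π g) D) :
    ∃ x ∈ D, ∀ g, π g x = x := by
  classical
  have := d.ne
  letI := d.pre
  have := d.dir
  have hmul : ∀ g h x, π g (π h x) = π (g * h) x := fun g h x => by rw [map_mul]; rfl
  have hone : ∀ x, π 1 x = x := fun x => by rw [map_one]; rfl
  -- vectors fixed by the locally finite normal subgroup
  set A1 : Set (E →L[ℝ] E) := {T | ∃ g, (∃ i, g ∈ d.L i) ∧ T = π g} with hA1
  set D1 : Set E := {x | x ∈ D ∧ ∀ T ∈ A1, T x = x} with hD1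
  have hg1 : Good ψ D1 := by
    obtain ⟨x, hx, hx2⟩ := fixed_dir hD π d.L d.Lfin d.Lmono (fun i g _ => hinv g)
    refine good_sub hD _ ⟨x, hx, ?_⟩
    rintro T ⟨g, ⟨i, hg⟩, rfl⟩
    exact hx2 i g hg
  have hinv1 : ∀ g, Inv ψ (π g) D1 := by
    intro g x hx
    refine ⟨(hinv g x hx.1).1, (hinv g x hx.1).2, ?_⟩
    rintro T ⟨h, ⟨i, hh⟩, rfl⟩
    rw [map_smul]
    congr 1
    obtain ⟨k, hk⟩ := d.Lnorm g i h hh
    have h1 := hx.2 _ ⟨g⁻¹ * h * g, ⟨k, hk⟩, rfl⟩
    rw [hmul]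
    have : h * g = g * (g⁻¹ * h * g) := by group
    rw [this, ← hmul, h1]
  -- a common eigenvector
  obtain ⟨x, hx, hxe⟩ := eigen hg1 (fun p : ℕ × ℕ => π (d.a p.1 p.2))
    (fun p q x => by simp only [hmul]; rw [d.acomm]) (fun p => hinv1 _)
  set lam : ℕ → ℕ → ℝ := fun i j => ψ (π (d.a i j) x) with hlam
  have hxe' : ∀ i j, π (d.a i j) x = lam i j • x := fun i j => hxe (i, j)
  have hψx : ψ x = 1 := hg1.one x hx
  have hxne : x ≠ 0 := by
    rintro rfl
    simp at hψx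
  have hlampos : ∀ i j, 0 < lam i j := fun i j => (hinv1 (d.a i j) x hx).1
  have hlammul : ∀ i j k, lam i k = lam i j * lam j k := by
    intro i j k
    have h1 : π (d.a i k) x = (lam i j * lam j k) • x := by
      rw [← d.amul i j k, ← hmul, hxe' j k, map_smul, hxe' i j, smul_smul, mul_comm]
    rw [hxe' i k] at h1
    exact smul_left_injective ℝ hxne h1
  -- translates of the eigenvector
  set y : FinPerm → E := fun σ => (ψ (π (d.r σ)⁻¹ x))⁻¹ • π (d.r σ)⁻¹ x with hy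
  have hyD : ∀ σ, y σ ∈ D1 := fun σ => (hinv1 _ x hx).2
  have hye : ∀ σ i j, π (d.a i j) (y σ) = lam (σ.1 i) (σ.1 j) • y σ := by
    intro σ i j
    simp only [hy, map_smul]
    rw [smul_comm]
    congr 1
    rw [hmul]
    have : d.a i j * (d.r σ)⁻¹ = (d.r σ)⁻¹ * d.a (σ.1 i) (σ.1 j) := by
      rw [mul_inv_eq_iff_eq_mul, mul_assoc, ← d.rconj σ i j]
      group
    rw [this, ← hmul, hxe', map_smul]
  have hlamy : ∀ σ i j, lam (σ.1 i) (σ.1 j) = ψ (π (d.a i j) (y σ)) := by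
    intro σ i j
    rw [hye, map_smul, hg1.one _ (hyD σ), smul_eq_mul, mul_one]
  -- uniform bounds
  obtain ⟨z1, hz1, hmin⟩ := hg1.comp.exists_isMinOn hg1.ne
    ((ψ.continuous.comp (π (d.a 1 0)).continuous).continuousOn)
  obtain ⟨z2, hz2, hmax⟩ := hg1.comp.exists_isMaxOn hg1.ne
    ((ψ.continuous.comp (π (d.a 1 0)).continuous).continuousOn)
  set m : ℝ := ψ (π (d.a 1 0) z1) with hm
  set M : ℝ := ψ (π (d.a 1 0) z2) with hM
  have hmpos : 0 < m := (hinv1 _ z1 hz1).1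
  have hc : ∀ i : ℕ, lam (i + 1) 0 ∈ Icc m M := by
    intro i
    have h1 := hlamy ⟨Equiv.swap 1 (i + 1), swap_mem_finPerm _ _⟩ 1 0
    have e1 : (Equiv.swap 1 (i + 1)) 1 = i + 1 := Equiv.swap_apply_left _ _
    have e2 : (Equiv.swap 1 (i + 1)) 0 = 0 :=
      Equiv.swap_apply_of_ne_of_ne (by omega) (by omega)
    simp only [e1, e2] at h1
    rw [h1]
    exact ⟨hmin (hyD _), hmax (hyD _)⟩
  obtain ⟨c, hcmem, φ, hφ, hlim⟩ := isCompact_Icc.tendsto_subseq hc
  have hcpos : 0 < c := lt_of_lt_of_le hmpos hcmem.1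
  set n : ℕ → ℕ := fun k => φ k + 1 with hn
  have hninj : Function.Injective n := fun a b h => hφ.injective (by simpa [hn] using h)
  have hlimn : Tendsto (fun k => lam (n k) 0) atTop (𝓝 c) := hlim
  have hσ : ∀ k : ℕ, ∃ σ : FinPerm, ∀ i < k, σ.1 i = n (k + i) := by
    intro k
    obtain ⟨σ, hσ, h⟩ := exists_perm (Finset.range k) (fun i => n (k + i))
      (fun a _ b _ h => by have := hninj h; omega)
    exact ⟨⟨σ, hσ⟩, fun i hi => h i (Finset.mem_range.2 hi)⟩
  choose σ hσ using hσ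
  have hlim1 : ∀ i j, Tendsto (fun k => lam ((σ k).1 i) ((σ k).1 j)) atTop (𝓝 1) := by
    intro i j
    have t1 : ∀ i, Tendsto (fun k => lam (n (k + i)) 0) atTop (𝓝 c) := fun i =>
      hlimn.comp (tendsto_add_atTop_nat i)
    have t2 : Tendsto (fun k => lam (n (k + i)) 0 / lam (n (k + j)) 0) atTop (𝓝 (c / c)) :=
      (t1 i).div (t1 j) hcpos.ne'
    rw [div_self hcpos.ne'] at t2
    refine t2.congr' ?_
    filter_upwards [eventually_gt_atTop (max i j)] with k hk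
    rw [hσ k i (lt_of_le_of_lt (le_max_left _ _) hk), hσ k j (lt_of_le_of_lt (le_max_right _ _) hk)]
    rw [div_eq_iff (hlampos _ _).ne']
    exact hlammul _ _ _
  -- limit point
  set U : Ultrafilter ℕ := Filter.hyperfilter ℕ with hU
  have hUle : (U : Filter ℕ) ≤ atTop := by
    rw [hU, ← Nat.cofinite_eq_atTop]; exact Filter.hyperfilter_le_cofinite
  obtain ⟨w, hw, hUw⟩ := hg1.comp.ultrafilter_le_nhds (U.map (fun k => y (σ k))) (by
    rw [le_principal_iff]
    exact Filter.Eventually.of_forall (f := (U : Filter ℕ)) fun k => hyD (σ k))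
  have hyw : Tendsto (fun k => y (σ k)) (U : Filter ℕ) (𝓝 w) := hUw
  have hwfix : ∀ i j, π (d.a i j) w = w := by
    intro i j
    have t1 : Tendsto (fun k => π (d.a i j) (y (σ k))) (U : Filter ℕ) (𝓝 (π (d.a i j) w)) :=
      ((π (d.a i j)).continuous.tendsto w).comp hyw
    have t2 : Tendsto (fun k => lam ((σ k).1 i) ((σ k).1 j) • y (σ k)) (U : Filter ℕ)
        (𝓝 ((1 : ℝ) • w)) := ((hlim1 i j).mono_left hUle).smul hyw
    rw [one_smul] at t2
    refine tendsto_nhds_unique t1 ?_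
    refine t2.congr fun k => ?_
    rw [hye]
  -- second level
  set A2 : Set (E →L[ℝ] E) := {T | ∃ i j, T = π (d.a i j)} with hA2
  set D2 : Set E := {x | x ∈ D1 ∧ ∀ T ∈ A2, T x = x} with hD2
  have hg2 : Good ψ D2 := by
    refine good_sub hg1 _ ⟨w, hw, ?_⟩
    rintro T ⟨i, j, rfl⟩
    exact hwfix i j
  have hinv2 : ∀ τ : FinPerm, Inv ψ (π (d.r τ)) D2 := by
    intro τ x hx
    refine ⟨(hinv1 _ x hx.1).1, (hinv1 _ x hx.1).2, ?_⟩
    rintro T ⟨i, j, rfl⟩
    rw [map_smul]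
    congr 1
    have h1 := hx.2 _ ⟨τ.1⁻¹ i, τ.1⁻¹ j, rfl⟩
    have h2 := d.rconj τ (τ.1⁻¹ i) (τ.1⁻¹ j)
    have e1 : τ.1 (τ.1⁻¹ i) = i := τ.1.apply_symm_apply i
    have e2 : τ.1 (τ.1⁻¹ j) = j := τ.1.apply_symm_apply j
    rw [e1, e2] at h2
    rw [hmul, ← h2, ← hmul, h1]
  obtain ⟨x, hx, hx2⟩ := fixed_dir hg2 π (fun m => (FinPermLE m).map d.r)
    (fun m => by
      have := finite_finPermLE m
      exact Set.Finite.to_subtype (by
        rw [Subgroup.coe_map]
        exact (Set.toFinite _).image _))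
    (fun m n hmn => Subgroup.map_mono (fun σ hσ i hi => hσ i (le_trans hmn hi)))
    (fun m g hg => by
      obtain ⟨τ, -, rfl⟩ := hg
      exact hinv2 τ)
  refine ⟨x, hx.1.1, ?_⟩
  have hstab : ∀ g ∈ Subgroup.closure ({g | ∃ i, g ∈ d.L i} ∪ {g | ∃ i j, g = d.a i j} ∪
      Set.range d.r), π g x = x := by
    intro g hg
    induction hg using Subgroup.closure_induction with
    | mem g hg =>
      rcases hg with (hg | ⟨i, j, rfl⟩) | ⟨τ, rfl⟩
      · exact hx.1.2 _ ⟨g, hg, rfl⟩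
      · exact hx.2 _ ⟨i, j, rfl⟩
      · obtain ⟨m, hm⟩ := τ.2
        exact hx2 m _ ⟨τ, hm, rfl⟩
    | one => exact hone x
    | mul g h _ _ h1 h2 => rw [← hmul, h2, h1]
    | inv g _ h1 =>
      calc π g⁻¹ x = π g⁻¹ (π g x) := by rw [h1]
        _ = x := by rw [hmul, inv_mul_cancel, hone]
  intro g
  exact hstab g (by rw [d.gen]; trivial)

end Pool.Agent.H418R3.CT
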