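import Pool.Agent.H418R3.CTGroup
import Pool.Agent.H418R3.CTDefs

open Set Filter Topology

namespace Pool.Agent.H418R3.CT

variable {G : Type} [Group G]

/-- Left translation on `G → ℝ`. -/
def lt : G →* ((G → ℝ) →L[ℝ] (G → ℝ)) where
  toFun h := ContinuousLinearMap.pi fun g => ContinuousLinearMap.proj (h⁻¹ * g)
  map_one' := by
    ext j g
    simp
  map_mul' h k := by
    ext j g
    simp [mul_assoc]

theorem lt_apply (h : G) (j : G → ℝ) (g : G) : lt h j g = j (h⁻¹ * g) := rfl

/-- The cone. -/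
def CC (a b : G) : Set (G → ℝ) := {j | ∀ g, 0 ≤ j g ∧ j (g * a) + j (g * b) ≤ j g}

theorem isConeRep_CC (a b : G) : IsConeRep (lt (G := G)) (CC a b) where
  zero_mem := fun g => by simp
  add_mem := by
    intro x hx y hy g
    have h1 := hx g
    have h2 := hy g
    refine ⟨add_nonneg h1.1 h2.1, ?_⟩
    simp only [Pi.add_apply]
    linarith [h1.2, h2.2]
  smul_mem := by
    intro r hr x hx g
    have h1 := hx g
    refine ⟨mul_nonneg hr h1.1, ?_⟩
    simp only [Pi.smul_apply, smul_eq_mul]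
    rw [← mul_add]
    exact mul_le_mul_of_nonneg_left h1.2 hr
  proper := by
    intro x hx hx'
    funext g
    have h1 := (hx g).1
    have h2 := (hx' g).1
    simp only [Pi.neg_apply] at h2
    have h3 : x g ≤ 0 := by linarith
    exact le_antisymm h3 h1
  invariant := by
    intro h x hx g
    have h1 := hx (h⁻¹ * g)
    rw [lt_apply, lt_apply, lt_apply, ← mul_assoc, ← mul_assoc]
    exact h1

theorem isClosed_CC (a b : G) : IsClosed (CC a b) := by
  have : CC a b = ⋂ g, ({j : G → ℝ | 0 ≤ j g} ∩ {j | j (g * a) + j (g * b) ≤ j g}) := by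
    ext j; simp [CC]
  rw [this]
  refine isClosed_iInter fun g => IsClosed.inter ?_ ?_
  · exact isClosed_le continuous_const (continuous_apply g)
  · exact isClosed_le (by fun_prop) (by fun_prop)

theorem weaklyComplete_CC (a b : G) : WeaklyComplete (CC a b) := by
  intro F hF hC hcau
  have hlim : ∀ g : G, ∃ y : ℝ, Tendsto (fun j : G → ℝ => j g) F (𝓝 y) := by
    intro g
    obtain ⟨y, hy⟩ := CompleteSpace.complete (hcau (ContinuousLinearMap.proj g))
    exact ⟨y, hy⟩
  choose j hj using hlim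
  have hjF : Tendsto (fun x : G → ℝ => x) F (𝓝 j) := tendsto_pi_nhds.2 hj
  refine ⟨j, (isClosed_CC a b).mem_of_tendsto hjF hC, fun φ => ?_⟩
  exact (φ.continuous.tendsto j).comp hjF

theorem dominate (s : Finset G) (c : G → ℝ) :
    ∃ l : List G, ∀ j : G → ℝ, (∀ g, 0 ≤ j g) → ∑ g ∈ s, c g * j g ≤ (l.map j).sum := by
  classical
  induction s using Finset.induction_on with
  | empty => exact ⟨[], fun j _ => by simp⟩
  | insert a s ha ih =>
    obtain ⟨l, hl⟩ := ih
    obtain ⟨n, hn⟩ := exists_nat_ge (c a)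
    refine ⟨List.replicate n a ++ l, fun j hj => ?_⟩
    rw [Finset.sum_insert ha, List.map_append, List.sum_append, List.map_replicate,
      List.sum_replicate]
    refine add_le_add ?_ (hl j hj)
    rw [nsmul_eq_mul]
    exact mul_le_mul_of_nonneg_right hn (hj a)

theorem finite_support (lam : (G → ℝ) →L[ℝ] ℝ) :
    ∃ s : Finset G, ∀ j : G → ℝ, (∀ g ∈ s, j g = 0) → lam j = 0 := by
  have h0 : {j : G → ℝ | |lam j| < 1} ∈ 𝓝 (0 : G → ℝ) := by
    have hc : Continuous fun j : G → ℝ => |lam j| := lam.continuous.abs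
    refine (isOpen_lt hc continuous_const).mem_nhds ?_
    simp
  rw [nhds_pi, Filter.mem_pi] at h0
  obtain ⟨I, hI, t, ht, hsub⟩ := h0
  refine ⟨hI.toFinset, fun j hj => ?_⟩
  by_contra hne
  have hmem : (|lam j|⁻¹) • j ∈ I.pi t := by
    intro g hg
    have : ((|lam j|⁻¹) • j) g = 0 := by
      simp [hj g (hI.mem_toFinset.2 hg)]
    rw [this]
    exact mem_of_mem_nhds (ht g)
  have h1 := hsub hmem
  simp only [mem_setOf_eq, map_smul, smul_eq_mul, abs_mul, abs_inv, abs_abs] at h1
  rw [inv_mul_cancel₀ (abs_ne_zero.2 hne)] at h1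
  exact lt_irrefl _ h1

theorem coboundedType_CC (a b : G) : CoboundedType (lt (G := G)) (CC a b) := by
  classical
  refine ⟨ContinuousLinearMap.proj 1, fun lam => ?_⟩
  obtain ⟨s, hs⟩ := finite_support lam
  obtain ⟨l, hl⟩ := dominate s (fun g => |lam (Pi.single g 1)|)
  refine ⟨l, fun j hj => ?_⟩
  have e1 : lam j = ∑ g ∈ s, j g * lam (Pi.single g 1) := by
    have h1 : lam (j - ∑ g ∈ s, j g • (Pi.single g (1 : ℝ) : G → ℝ)) = 0 := by
      refine hs _ fun g hg => ?_
      simp only [Pi.sub_apply, Finset.sum_apply, Pi.smul_apply, smul_eq_mul]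
      rw [Finset.sum_eq_single g]
      · simp
      · intro h _ hne
        rw [Pi.single_eq_of_ne (Ne.symm hne), mul_zero]
      · intro h; exact absurd hg h
    rw [map_sub, sub_eq_zero, map_sum] at h1
    rw [h1]
    refine Finset.sum_congr rfl fun g _ => ?_
    rw [map_smul, smul_eq_mul]
  have e2 : (l.map fun g => (ContinuousLinearMap.proj (R := ℝ) (φ := fun _ : G => ℝ) 1)
      (lt g⁻¹ j)) = l.map j := by
    refine List.map_congr_left fun g _ => ?_
    change lt g⁻¹ j 1 = j g
    rw [lt_apply, inv_inv, mul_one]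
  rw [e2, e1]
  refine le_trans (Finset.abs_sum_le_sum_abs _ _) ?_
  refine le_trans (Finset.sum_le_sum fun g _ => ?_) (hl j fun g => (hj g).1)
  rw [abs_mul, abs_of_nonneg (hj g).1, mul_comm]

theorem no_fixed (a b : G) (x : G → ℝ) (hx : x ∈ CC a b) (hfix : ∀ g, lt g x = x) : x = 0 := by
  have h1 : ∀ g, x g = x 1 := by
    intro g
    have h2 := congrFun (hfix g⁻¹) 1
    rw [lt_apply, inv_inv, mul_one] at h2
    exact h2
  have h2 := hx 1
  rw [h1 (1 * a), h1 (1 * b)] at h2
  have h3 : x 1 = 0 := le_antisymm (by linarith [h2.2]) h2.1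
  funext g
  rw [h1 g, h3]; rfl

theorem not_FPC_of (a b : G) (j : G → ℝ) (hj : j ∈ CC a b) (hne : j ≠ 0)
    (hbdd : ∀ g, j g ≤ 1) : ¬ FPC.{0} G := by
  intro hF
  obtain ⟨x, hx, hx0, hfix⟩ := hF (G → ℝ) lt (CC a b) ⟨isConeRep_CC a b,
    ⟨j, hj, hne, by
      rw [Bornology.isVonNBounded_pi_iff]
      intro g
      refine Bornology.IsVonNBounded.subset ?_ (NormedSpace.isVonNBounded_closedBall ℝ ℝ 1)
      rintro _ ⟨_, ⟨h, rfl⟩, rfl⟩
      rw [mem_closedBall_zero_iff, Real.norm_eq_abs]
      change |lt h j g| ≤ 1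
      rw [lt_apply, abs_of_nonneg (hj _).1]
      exact hbdd _⟩,
    coboundedType_CC a b⟩ (weaklyComplete_CC a b)
  exact hx0 (no_fixed a b x hx hfix)

/-- The pattern condition. -/
def PP (g : Equiv.Perm (ℕ × ℤ)) : Prop := ∀ n : ℤ, n < 0 → (Even (g (0, n)).2 ↔ Even n)

/-- The swap of two neighbouring points. -/
def tau : Equiv.Perm (ℕ × ℤ) := Equiv.swap (0, 0) (0, 1)

theorem tau_mem : tau ∈ GG := by
  classical
  refine LL_le {(0, 0), (0, 1)} ?_
  intro p hp
  simp only [Finset.mem_insert, Finset.mem_singleton, not_or] at hp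
  exact Equiv.swap_apply_of_ne_of_ne hp.1 hp.2

/-- First generator of the free semigroup. -/
def ga : GG := ⟨aa 0 1 * aa 0 1, mul_mem (aa_mem 0 1) (aa_mem 0 1)⟩

/-- Second generator of the free semigroup. -/
def gb : GG := ⟨tau * (aa 0 1 * aa 0 1), mul_mem tau_mem (mul_mem (aa_mem 0 1) (aa_mem 0 1))⟩

theorem ga_apply (n : ℤ) : ga.1 (0, n) = (0, n + 2) := by
  change (aa 0 1 * aa 0 1) (0, n) = _
  simp only [Equiv.Perm.mul_apply, aa, tr_apply, Pi.sub_apply]
  simp
  ring

theorem gb_apply (n : ℤ) : gb.1 (0, n) = tau (0, n + 2) := by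
  have := ga_apply n
  change tau ((aa 0 1 * aa 0 1) (0, n)) = _
  exact congrArg tau this

open Classical in
/-- The indicator function of the pattern. -/
noncomputable def jj (g : GG) : ℝ := if PP g.1 then 1 else 0

theorem PP_ga {g : GG} (h : PP (g * ga).1) : PP g.1 ∧ Even (g.1 (0, 0)).2 := by
  have key : ∀ n : ℤ, n < 0 → (Even (g.1 (0, n + 2)).2 ↔ Even n) := by
    intro n hn
    have h1 := h n hn
    change (Even (g.1 (ga.1 (0, n))).2 ↔ Even n) at h1
    rwa [ga_apply] at h1
  constructor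
  · intro m hm
    have h1 := key (m - 2) (by omega)
    rw [sub_add_cancel] at h1
    rw [h1, Int.even_sub]
    simp
  · have h1 := key (-2) (by norm_num)
    norm_num at h1
    exact h1

theorem PP_gb {g : GG} (h : PP (g * gb).1) : PP g.1 ∧ ¬ Even (g.1 (0, 0)).2 := by
  have key : ∀ n : ℤ, n < 0 → (Even (g.1 (tau (0, n + 2))).2 ↔ Even n) := by
    intro n hn
    have h1 := h n hn
    change (Even (g.1 (gb.1 (0, n))).2 ↔ Even n) at h1
    rwa [gb_apply] at h1
  constructor
  · intro m hm
    have h1 := key (m - 2) (by omega)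
    rw [sub_add_cancel] at h1
    have h2 : tau (0, m) = (0, m) := by
      refine Equiv.swap_apply_of_ne_of_ne ?_ ?_
      · intro h; have := congrArg Prod.snd h; simp at this; omega
      · intro h; have := congrArg Prod.snd h; simp at this; omega
    rw [h2] at h1
    rw [h1, Int.even_sub]
    simp
  · have h1 := key (-1) (by norm_num)
    have h2 : tau (0, -1 + 2) = (0, 0) := by
      have : ((0 : ℕ), (-1 : ℤ) + 2) = (0, 1) := by norm_num
      rw [this]
      exact Equiv.swap_apply_right _ _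
    rw [h2] at h1
    rw [h1]
    decide

theorem not_FPC_GG : ¬ FPC.{0} GG := by
  classical
  refine not_FPC_of ga gb jj ?_ ?_ ?_
  · intro g
    refine ⟨by unfold jj; split_ifs <;> norm_num, ?_⟩
    unfold jj
    by_cases h1 : PP (g * ga).1
    · have h2 := PP_ga h1
      have h3 : ¬ PP (g * gb).1 := fun h => (PP_gb h).2 h2.2
      rw [if_pos h1, if_neg h3, if_pos h2.1]; norm_num
    · by_cases h3 : PP (g * gb).1
      · have h4 := PP_gb h3
        rw [if_neg h1, if_pos h3, if_pos h4.1]; norm_num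
      · rw [if_neg h1, if_neg h3]
        split_ifs <;> norm_num
  · intro h
    have h1 := congrFun h 1
    have h2 : PP (1 : GG).1 := by
      intro n _
      rfl
    unfold jj at h1
    rw [if_pos h2] at h1
    simp at h1
  · intro g
    unfold jj
    split_ifs <;> norm_num

end Pool.Agent.H418R3.CT
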