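import Mathlib

/-!
# Coding separable Banach spaces by seminorms on finitely supported sequences

The rational pseudonorms of the question are the restrictions to rational vectors of the seminorms
on the space `c₀₀` of real finitely supported sequences, and such a seminorm is determined by its
values on rational vectors.  So the space `P` of pseudonorms is modelled by `Seminorm ℝ (ℕ →₀ ℝ)`
with the topology of pointwise convergence on rational vectors.
-/

namespace Pool.Agent.H418R3.Gur

open TopologicalSpace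

/-- Finitely supported real vectors with the seminorm `μ`. -/
def Fs {I : Type} (_μ : Seminorm ℝ (I →₀ ℝ)) : Type := I →₀ ℝ

noncomputable instance {I : Type} (μ : Seminorm ℝ (I →₀ ℝ)) : SeminormedAddCommGroup (Fs μ) :=
  AddGroupSeminorm.toSeminormedAddCommGroup (E := I →₀ ℝ) μ.toAddGroupSeminorm

noncomputable instance {I : Type} (μ : Seminorm ℝ (I →₀ ℝ)) : Module ℝ (Fs μ) :=
  inferInstanceAs (Module ℝ (I →₀ ℝ))

noncomputable instance {I : Type} (μ : Seminorm ℝ (I →₀ ℝ)) : NormedSpace ℝ (Fs μ) where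
  norm_smul_le a x := (map_smul_eq_mul μ a (x : I →₀ ℝ)).le

/-- The Banach space `X_μ`: the completion of `c₀₀ / {x | μ x = 0}` in the norm induced
by `μ`. -/
abbrev Sp {I : Type} (μ : Seminorm ℝ (I →₀ ℝ)) : Type := UniformSpace.Completion (Fs μ)

/-- A rational finitely supported vector as a real one. -/
noncomputable def rat (v : ℕ →₀ ℚ) : ℕ →₀ ℝ := v.mapRange (fun q : ℚ => (q : ℝ)) (by simp)

/-- The space `P` of pseudonorms. -/
abbrev PN : Type := Seminorm ℝ (ℕ →₀ ℝ)

/-- Pointwise convergence on rational vectors. -/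
noncomputable instance : TopologicalSpace PN :=
  TopologicalSpace.induced (fun (μ : PN) (v : ℕ →₀ ℚ) => μ (rat v)) Pi.topologicalSpace

/-- The Banach space coded by `μ ∈ P`. -/
abbrev XX (μ : PN) : Type := Sp μ

/-- The set `P_∞` of codes of infinite-dimensional spaces. -/
def PInf : Set PN := {μ | ¬ FiniteDimensional ℝ (XX μ)}

/-- The set `B` of codes `μ ∈ P_∞` which are norms on `c₀₀`. -/
def BB : Set PN := {μ | μ ∈ PInf ∧ ∀ x : ℕ →₀ ℝ, μ x = 0 → x = 0}

/-- The isomorphism class of `Z` in `J` (`J = P_∞` or `J = B`), a subset of the topological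
space `J`. -/
def isoClass (J : Set PN) (Z : Type) [NormedAddCommGroup Z] [NormedSpace ℝ Z] : Set J :=
  {μ | Nonempty (XX μ.1 ≃L[ℝ] Z)}

/-- The Gurarii property: for every `ε > 0`, every subspace `A` of `G` and every isometric
embedding `g` of `A` into a finite-dimensional Banach space `B` there is a linear map `f : B → G`
with `‖b‖ / (1 + ε) ≤ ‖f b‖ ≤ (1 + ε) ‖b‖` and `‖f (g a) - a‖ ≤ ε ‖a‖`. -/
def IsGurarii (G : Type) [NormedAddCommGroup G] [NormedSpace ℝ G] : Prop :=
  ∀ ε : ℝ, 0 < ε → ∀ (A : Submodule ℝ G) (B : Type) [NormedAddCommGroup B] [NormedSpace ℝ B]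
    [FiniteDimensional ℝ B] (g : A →ₗᵢ[ℝ] B),
    ∃ f : B →L[ℝ] G, (∀ b, ‖b‖ / (1 + ε) ≤ ‖f b‖ ∧ ‖f b‖ ≤ (1 + ε) * ‖b‖) ∧
      ∀ a : A, ‖f (g a) - a‖ ≤ ε * ‖a‖

end Pool.Agent.H418R3.Gur
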