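import Mathlib
import Pool.Agent.H418R3.GurDefs

/-! Towers and the Banach spaces they define. -/

namespace Pool.Agent.H418R3.Gur

open UniformSpace

/-- A tower: a family of rational finitely supported functionals of `ℓ¹`-norm at most one, where
the functional at `t` only involves coordinates of smaller rank. -/
structure Tower (I : Type) where
  ψ : I → I →₀ ℚ
  rk : I → ℕ
  lt : ∀ t s, ψ t s ≠ 0 → rk s < rk t
  le : ∀ t, ((ψ t).sum fun _ q => |q|) ≤ 1

/-- Evaluate a functional at a family of coordinates. -/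
noncomputable def ev {I : Type} (f : I →₀ ℚ) (c : I → ℝ) : ℝ := f.sum fun s q => (q : ℝ) * c s

theorem ev_zero {I : Type} (c : I → ℝ) : ev (0 : I →₀ ℚ) c = 0 := by simp [ev]

theorem ev_congr {I : Type} {f : I →₀ ℚ} {c c' : I → ℝ} (h : ∀ s, f s ≠ 0 → c s = c' s) :
    ev f c = ev f c' := by
  unfold ev Finsupp.sum
  refine Finset.sum_congr rfl fun s hs => ?_
  simp only [h s (Finsupp.mem_support_iff.mp hs)]

theorem ev_add {I : Type} (f : I →₀ ℚ) (c c' : I → ℝ) : ev f (c + c') = ev f c + ev f c' := by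
  unfold ev Finsupp.sum
  rw [← Finset.sum_add_distrib]
  exact Finset.sum_congr rfl fun s _ => by simp [mul_add]

theorem ev_smul {I : Type} (f : I →₀ ℚ) (a : ℝ) (c : I → ℝ) : ev f (a • c) = a * ev f c := by
  unfold ev Finsupp.sum
  rw [Finset.mul_sum]
  exact Finset.sum_congr rfl fun s _ => by simp; ring

theorem ev_mapDomain {I J : Type} (j : I → J) (f : I →₀ ℚ) (c : J → ℝ) :
    ev (f.mapDomain j) c = ev f (fun t => c (j t)) := by
  unfold ev
  rw [Finsupp.sum_mapDomain_index]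
  · intro b; simp
  · intro b m n; push_cast; ring

theorem ev_abs_le {I : Type} {f : I →₀ ℚ} (hf : (f.sum fun _ q => |q|) ≤ 1) {c : I → ℝ} {M : ℝ}
    (hM : 0 ≤ M) (h : ∀ s, f s ≠ 0 → |c s| ≤ M) : |ev f c| ≤ M := by
  unfold ev Finsupp.sum
  have hf' : ∑ s ∈ f.support, |((f s : ℚ) : ℝ)| ≤ 1 := by
    have : ((f.sum fun _ q => |q| : ℚ) : ℝ) ≤ 1 := by exact_mod_cast hf
    unfold Finsupp.sum at this
    push_cast at this
    exact this
  calc |∑ s ∈ f.support, (f s : ℝ) * c s| ≤ ∑ s ∈ f.support, |(f s : ℝ) * c s| :=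
        Finset.abs_sum_le_sum_abs _ _
    _ ≤ ∑ s ∈ f.support, |(f s : ℝ)| * M := by
        refine Finset.sum_le_sum fun s hs => ?_
        rw [abs_mul]
        exact mul_le_mul_of_nonneg_left (h s (Finsupp.mem_support_iff.mp hs)) (abs_nonneg _)
    _ = (∑ s ∈ f.support, |(f s : ℝ)|) * M := by rw [Finset.sum_mul]
    _ ≤ 1 * M := mul_le_mul_of_nonneg_right hf' hM
    _ = M := one_mul M

namespace Tower

variable {I J : Type} (Ψ : Tower I)

noncomputable def coordN : ℕ → (I →₀ ℝ) → I → ℝ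
  | 0, _, _ => 0
  | n + 1, v, t => v t + ev (Ψ.ψ t) (coordN n v)

theorem coordN_stable (v : I →₀ ℝ) : ∀ (n m : ℕ) (t : I), Ψ.rk t < n → Ψ.rk t < m →
    Ψ.coordN n v t = Ψ.coordN m v t
  | 0, _, _, h, _ => absurd h (Nat.not_lt_zero _)
  | _ + 1, 0, _, _, h => absurd h (Nat.not_lt_zero _)
  | n + 1, m + 1, t, h1, h2 => by
    unfold coordN
    congr 1
    apply ev_congr
    intro s hs
    have := Ψ.lt t s hs
    exact coordN_stable v n m s (by omega) (by omega)

/-- The coordinates of a finitely supported vector. -/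
noncomputable def coord (v : I →₀ ℝ) (t : I) : ℝ := Ψ.coordN (Ψ.rk t + 1) v t

theorem coord_eq (v : I →₀ ℝ) (t : I) : Ψ.coord v t = v t + ev (Ψ.ψ t) (Ψ.coord v) := by
  conv_lhs => unfold coord coordN
  congr 1
  apply ev_congr
  intro s hs
  have := Ψ.lt t s hs
  exact Ψ.coordN_stable v _ _ s (by omega) (by omega)

theorem coord_unique {v : I →₀ ℝ} {c : I → ℝ} (h : ∀ t, c t = v t + ev (Ψ.ψ t) c) :
    c = Ψ.coord v := by
  have key : ∀ n t, Ψ.rk t < n → c t = Ψ.coord v t := by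
    intro n
    induction n with
    | zero => intro t ht; exact absurd ht (Nat.not_lt_zero _)
    | succ n ih =>
      intro t ht
      rw [h, coord_eq]
      congr 1
      apply ev_congr
      intro s hs
      have := Ψ.lt t s hs
      exact ih s (by omega)
  funext t
  exact key _ t (Nat.lt_succ_self _)

theorem coord_add (v w : I →₀ ℝ) : Ψ.coord (v + w) = Ψ.coord v + Ψ.coord w := by
  symm
  apply coord_unique
  intro t
  rw [ev_add, Pi.add_apply, coord_eq Ψ v t, coord_eq Ψ w t, Finsupp.add_apply]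
  ring

theorem coord_smul (a : ℝ) (v : I →₀ ℝ) : Ψ.coord (a • v) = a • Ψ.coord v := by
  symm
  apply coord_unique
  intro t
  rw [ev_smul, Pi.smul_apply, coord_eq Ψ v t, Finsupp.smul_apply]
  simp only [smul_eq_mul]
  ring

/-- The maximum principle. -/
theorem coord_le {v : I →₀ ℝ} {M : ℝ} (hM : 0 ≤ M) (h : ∀ t, v t ≠ 0 → |Ψ.coord v t| ≤ M) :
    ∀ t, |Ψ.coord v t| ≤ M := by
  have key : ∀ n t, Ψ.rk t < n → |Ψ.coord v t| ≤ M := by
    intro n
    induction n with
    | zero => intro t ht; exact absurd ht (Nat.not_lt_zero _)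
    | succ n ih =>
      intro t ht
      by_cases hv : v t = 0
      · rw [coord_eq, hv, zero_add]
        apply ev_abs_le (Ψ.le t) hM
        intro s hs
        have := Ψ.lt t s hs
        exact ih s (by omega)
      · exact h t hv
  intro t
  exact key _ t (Nat.lt_succ_self _)

theorem coord_bdd (v : I →₀ ℝ) : BddAbove (Set.range fun t => |Ψ.coord v t|) := by
  refine ⟨∑ s ∈ v.support, |Ψ.coord v s|, ?_⟩
  rintro _ ⟨t, rfl⟩
  apply Ψ.coord_le (Finset.sum_nonneg fun _ _ => abs_nonneg _)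
  intro s hs
  exact Finset.single_le_sum (f := fun s => |Ψ.coord v s|) (fun _ _ => abs_nonneg _)
    (Finsupp.mem_support_iff.mpr hs)

/-- The seminorm `sup |c_t|`. -/
noncomputable def sn : Seminorm ℝ (I →₀ ℝ) :=
  Seminorm.of (fun v => ⨆ t, |Ψ.coord v t|)
    (by
      intro v w
      apply Real.iSup_le
      · intro t
        rw [coord_add]
        exact (abs_add_le _ _).trans (add_le_add (le_ciSup (Ψ.coord_bdd v) t)
          (le_ciSup (Ψ.coord_bdd w) t))
      · exact add_nonneg (Real.iSup_nonneg fun _ => abs_nonneg _)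
          (Real.iSup_nonneg fun _ => abs_nonneg _))
    (by
      intro a v
      rw [Real.mul_iSup_of_nonneg (norm_nonneg a)]
      congr 1
      funext t
      rw [coord_smul, Pi.smul_apply, smul_eq_mul, abs_mul, Real.norm_eq_abs])

theorem sn_apply (v : I →₀ ℝ) : Ψ.sn v = ⨆ t, |Ψ.coord v t| := rfl

theorem coord_le_sn (v : I →₀ ℝ) (t : I) : |Ψ.coord v t| ≤ Ψ.sn v := le_ciSup (Ψ.coord_bdd v) t

theorem sn_le {v : I →₀ ℝ} {M : ℝ} (hM : 0 ≤ M) (h : ∀ t, v t ≠ 0 → |Ψ.coord v t| ≤ M) :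
    Ψ.sn v ≤ M := Real.iSup_le (Ψ.coord_le hM h) hM

theorem sn_eq_zero {v : I →₀ ℝ} (h : Ψ.sn v = 0) : v = 0 := by
  have h1 : ∀ t, Ψ.coord v t = 0 := by
    intro t
    have := Ψ.coord_le_sn v t
    rw [h] at this
    exact abs_eq_zero.mp (le_antisymm this (abs_nonneg _))
  ext t
  have h2 := Ψ.coord_eq v t
  rw [h1 t, ev_congr (c' := fun _ => 0) (fun s _ => h1 s)] at h2
  simp [ev] at h2
  simpa using h2.symm

end Tower

/-- A finitely supported vector in the seminormed space. -/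
def toFs {I : Type} (μ : Seminorm ℝ (I →₀ ℝ)) (v : I →₀ ℝ) : Fs μ := v

/-- The canonical map `c₀₀ → X_μ`. -/
noncomputable def ic {I : Type} (μ : Seminorm ℝ (I →₀ ℝ)) : (I →₀ ℝ) →ₗ[ℝ] Sp μ where
  toFun v := (toFs μ v : Completion (Fs μ))
  map_add' v w := Completion.coe_add (toFs μ v) (toFs μ w)
  map_smul' a v := Completion.coe_smul a (toFs μ v)

theorem norm_ic {I : Type} (μ : Seminorm ℝ (I →₀ ℝ)) (v : I →₀ ℝ) : ‖ic μ v‖ = μ v :=
  Completion.norm_coe (toFs μ v)

theorem dense_ic {I : Type} (μ : Seminorm ℝ (I →₀ ℝ)) : DenseRange (ic μ) := by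
  have h : DenseRange ((↑) : Fs μ → Completion (Fs μ)) := Completion.denseRange_coe
  exact h

/-- Two continuous linear maps out of `X_μ` agree if they agree on `c₀₀`. -/
theorem Sp_ext {I : Type} {μ : Seminorm ℝ (I →₀ ℝ)} {F : Type*} [NormedAddCommGroup F]
    [NormedSpace ℝ F] {f g : Sp μ →L[ℝ] F} (h : ∀ v, f (ic μ v) = g (ic μ v)) : f = g := by
  apply ContinuousLinearMap.coeFn_injective
  exact (dense_ic μ).equalizer f.continuous g.continuous (funext h)

/-- Extension of bounded linear maps to the completion. -/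
noncomputable def lift {I : Type} (μ : Seminorm ℝ (I →₀ ℝ)) {F : Type*} [NormedAddCommGroup F]
    [NormedSpace ℝ F] [CompleteSpace F] (f : (I →₀ ℝ) →ₗ[ℝ] F) : Sp μ →L[ℝ] F :=
  f.extendOfNorm (ic μ)

theorem lift_ic {I : Type} {μ : Seminorm ℝ (I →₀ ℝ)} {F : Type*} [NormedAddCommGroup F]
    [NormedSpace ℝ F] [CompleteSpace F] {f : (I →₀ ℝ) →ₗ[ℝ] F} {C : ℝ}
    (h : ∀ v, ‖f v‖ ≤ C * μ v) (v : I →₀ ℝ) : lift μ f (ic μ v) = f v :=
  LinearMap.extendOfNorm_eq (dense_ic μ) ⟨C, fun x => by rw [norm_ic]; exact h x⟩ v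

theorem norm_lift_le {I : Type} {μ : Seminorm ℝ (I →₀ ℝ)} {F : Type*} [NormedAddCommGroup F]
    [NormedSpace ℝ F] [CompleteSpace F] {f : (I →₀ ℝ) →ₗ[ℝ] F} {C : ℝ}
    (h : ∀ v, ‖f v‖ ≤ C * μ v) (x : Sp μ) : ‖lift μ f x‖ ≤ C * ‖x‖ :=
  LinearMap.norm_extendOfNorm_apply_le (dense_ic μ) C (fun x => by rw [norm_ic]; exact h x) x

/-- Embeddings of towers. -/
structure Emb {I J : Type} (Ψ : Tower I) (Φ : Tower J) where
  j : I → J
  inj : Function.Injective j
  compat : ∀ t, Φ.ψ (j t) = (Ψ.ψ t).mapDomain j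

namespace Emb

variable {I J : Type} {Ψ : Tower I} {Φ : Tower J} (E : Emb Ψ Φ)

noncomputable def push : (I →₀ ℝ) →ₗ[ℝ] (J →₀ ℝ) := Finsupp.lmapDomain ℝ ℝ E.j

noncomputable def pull : (J →₀ ℝ) →ₗ[ℝ] (I →₀ ℝ) := Finsupp.lcomapDomain E.j E.inj

theorem push_apply (v : I →₀ ℝ) (t : I) : E.push v (E.j t) = v t :=
  Finsupp.mapDomain_apply E.inj v t

theorem push_notin (v : I →₀ ℝ) {u : J} (hu : u ∉ Set.range E.j) : E.push v u = 0 :=
  Finsupp.mapDomain_of_notMem_range v u hu

theorem pull_apply (v : J →₀ ℝ) (t : I) : E.pull v t = v (E.j t) := rfl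

theorem pull_push (v : I →₀ ℝ) : E.pull (E.push v) = v := by
  ext t
  rw [pull_apply, push_apply]

theorem coord_push (v : I →₀ ℝ) (t : I) : Φ.coord (E.push v) (E.j t) = Ψ.coord v t := by
  have : (fun t => Φ.coord (E.push v) (E.j t)) = Ψ.coord v := by
    apply Tower.coord_unique
    intro t
    rw [Tower.coord_eq, push_apply, E.compat, ev_mapDomain]
  exact congrFun this t

theorem coord_pull (v : J →₀ ℝ) (t : I) : Ψ.coord (E.pull v) t = Φ.coord v (E.j t) := by
  have : (fun t => Φ.coord v (E.j t)) = Ψ.coord (E.pull v) := by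
    apply Tower.coord_unique
    intro t
    rw [Tower.coord_eq, pull_apply, E.compat, ev_mapDomain]
  exact (congrFun this t).symm

theorem sn_push (v : I →₀ ℝ) : Φ.sn (E.push v) = Ψ.sn v := by
  apply le_antisymm
  · apply Φ.sn_le (apply_nonneg _ _)
    intro u hu
    by_cases h : u ∈ Set.range E.j
    · obtain ⟨t, rfl⟩ := h
      rw [coord_push]
      exact Ψ.coord_le_sn v t
    · exact absurd (E.push_notin v h) hu
  · apply Ψ.sn_le (apply_nonneg _ _)
    intro t _
    rw [← coord_push E]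
    exact Φ.coord_le_sn _ _

theorem sn_pull (v : J →₀ ℝ) : Ψ.sn (E.pull v) ≤ Φ.sn v := by
  apply Ψ.sn_le (apply_nonneg _ _)
  intro t _
  rw [coord_pull]
  exact Φ.coord_le_sn _ _

/-- The isometric embedding of the spaces. -/
noncomputable def T : Sp Ψ.sn →L[ℝ] Sp Φ.sn := lift Ψ.sn ((ic Φ.sn).comp E.push)

/-- The projection. -/
noncomputable def R : Sp Φ.sn →L[ℝ] Sp Ψ.sn := lift Φ.sn ((ic Ψ.sn).comp E.pull)

theorem T_ic (v : I →₀ ℝ) : E.T (ic Ψ.sn v) = ic Φ.sn (E.push v) :=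
  lift_ic (C := 1) (fun v => by
    rw [LinearMap.comp_apply, norm_ic, sn_push, one_mul]) v

theorem R_ic (v : J →₀ ℝ) : E.R (ic Φ.sn v) = ic Ψ.sn (E.pull v) :=
  lift_ic (C := 1) (fun v => by
    rw [LinearMap.comp_apply, norm_ic, one_mul]; exact E.sn_pull v) v

theorem R_T (x : Sp Ψ.sn) : E.R (E.T x) = x := by
  have h : E.R.comp E.T = ContinuousLinearMap.id ℝ (Sp Ψ.sn) := by
    apply Sp_ext
    intro v
    rw [ContinuousLinearMap.comp_apply, T_ic, R_ic, pull_push]
    rfl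
  exact DFunLike.congr_fun h x

/-- Disjoint embeddings. -/
theorem R_T_disj {I' : Type} {Ψ' : Tower I'} (E' : Emb Ψ' Φ) (h : ∀ t t', E.j t ≠ E'.j t')
    (x : Sp Ψ'.sn) : E.R (E'.T x) = 0 := by
  have h : E.R.comp E'.T = 0 := by
    apply Sp_ext
    intro v
    rw [ContinuousLinearMap.comp_apply, T_ic, R_ic]
    have : E.pull (E'.push v) = 0 := by
      ext t
      rw [pull_apply, push_notin]
      · rfl
      · rintro ⟨t', ht'⟩
        exact h t t' ht'.symm
    rw [this, map_zero]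
    rfl
  exact DFunLike.congr_fun h x

/-- Complementary embeddings split the space. -/
theorem T_R_cover {I' : Type} {Ψ' : Tower I'} (E' : Emb Ψ' Φ) (h : ∀ t t', E.j t ≠ E'.j t')
    (hc : ∀ u, u ∈ Set.range E.j ∨ u ∈ Set.range E'.j) (x : Sp Φ.sn) :
    E.T (E.R x) + E'.T (E'.R x) = x := by
  have h : E.T.comp E.R + E'.T.comp E'.R = ContinuousLinearMap.id ℝ (Sp Φ.sn) := by
    apply Sp_ext
    intro v
    rw [add_apply, ContinuousLinearMap.comp_apply,
      ContinuousLinearMap.comp_apply, R_ic, R_ic, T_ic, T_ic, ← map_add]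
    have : E.push (E.pull v) + E'.push (E'.pull v) = v := by
      ext u
      rw [Finsupp.add_apply]
      rcases hc u with ⟨t, rfl⟩ | ⟨t, rfl⟩
      · rw [push_apply, pull_apply, push_notin, add_zero]
        rintro ⟨t', ht'⟩
        exact h t t' ht'.symm
      · rw [push_apply, pull_apply, push_notin, zero_add]
        rintro ⟨t', ht'⟩
        exact h t' t ht'
    rw [this]
    rfl
  exact DFunLike.congr_fun h x

/-- Two complementary embeddings give a decomposition as a product. -/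
noncomputable def split {I' : Type} {Ψ' : Tower I'} (E' : Emb Ψ' Φ)
    (h : ∀ t t', E.j t ≠ E'.j t') (hc : ∀ u, u ∈ Set.range E.j ∨ u ∈ Set.range E'.j) :
    Sp Φ.sn ≃L[ℝ] (Sp Ψ.sn × Sp Ψ'.sn) :=
  ContinuousLinearEquiv.equivOfInverse (E.R.prod E'.R)
    (E.T.comp (ContinuousLinearMap.fst ℝ _ _) + E'.T.comp (ContinuousLinearMap.snd ℝ _ _))
    (by
      intro x
      simp only [add_apply, ContinuousLinearMap.comp_apply,
        ContinuousLinearMap.prod_apply, ContinuousLinearMap.coe_fst',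
        ContinuousLinearMap.coe_snd']
      exact E.T_R_cover E' h hc x)
    (by
      rintro ⟨a, b⟩
      simp only [add_apply, ContinuousLinearMap.comp_apply,
        ContinuousLinearMap.prod_apply, ContinuousLinearMap.coe_fst',
        ContinuousLinearMap.coe_snd', map_add, R_T, E.R_T_disj E' h,
        E'.R_T_disj E (fun t t' => (h t' t).symm), Prod.mk_add_mk, add_zero, zero_add])

end Emb

end Pool.Agent.H418R3.Gur
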