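import Mathlib
import Pool.Agent.H418R3.GurTower

/-! The universal tower, rows, and the decomposition method. -/

namespace Pool.Agent.H418R3.Gur

/-! ### The decomposition method -/

section decomp

variable {X Y : Type} [NormedAddCommGroup X] [NormedSpace ℝ X]
  [NormedAddCommGroup Y] [NormedSpace ℝ Y]

/-- If `X` is isomorphic to its square and complemented in `Y`, then `Y ≃ X × Y`. -/
theorem absorb (hX : Nonempty (X ≃L[ℝ] (X × X))) (T : X →L[ℝ] Y) (R : Y →L[ℝ] X)
    (h : ∀ x, R (T x) = x) : Nonempty (Y ≃L[ℝ] (X × Y)) := by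
  obtain ⟨e⟩ := hX
  have d : Y ≃L[ℝ] (X × R.ker) := ContinuousLinearEquiv.equivOfRightInverse R T h
  exact ⟨(((d.trans (e.prodCongr (ContinuousLinearEquiv.refl ℝ _))).trans
    (ContinuousLinearEquiv.prodAssoc ℝ X X R.ker)).trans
    ((ContinuousLinearEquiv.refl ℝ X).prodCongr d.symm))⟩

end decomp

/-! ### `ℓ¹`-norms -/

theorem l1_mapDomain {I J : Type} (j : I → J) (f : I →₀ ℚ) :
    ((f.mapDomain j).sum fun _ q => |q|) ≤ f.sum fun _ q => |q| := by
  classical
  have h1 : ((f.mapDomain j).sum fun _ q => |q|)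
      ≤ ∑ u ∈ (f.mapDomain j).support, ∑ s ∈ f.support, |(Finsupp.single (j s) (f s)) u| := by
    unfold Finsupp.sum
    refine Finset.sum_le_sum fun u _ => ?_
    have : (f.mapDomain j) u = ∑ s ∈ f.support, (Finsupp.single (j s) (f s)) u := by
      unfold Finsupp.mapDomain Finsupp.sum
      rw [Finsupp.finsetSum_apply]
    rw [this]
    exact Finset.abs_sum_le_sum_abs _ _
  refine h1.trans ?_
  rw [Finset.sum_comm]
  unfold Finsupp.sum
  refine Finset.sum_le_sum fun s _ => ?_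
  by_cases hs : j s ∈ (f.mapDomain j).support
  · rw [Finset.sum_eq_single_of_mem (j s) hs]
    · rw [Finsupp.single_eq_same]
    · intro u _ hu
      rw [Finsupp.single_eq_of_ne hu]; simp
  · rw [Finset.sum_eq_zero]
    · exact abs_nonneg _
    · intro u hu
      rw [Finsupp.single_eq_of_ne (by rintro rfl; exact hs hu)]; simp

theorem mapDomain_ne_zero {I J : Type} {j : I → J} {f : I →₀ ℚ} {u : J}
    (h : f.mapDomain j u ≠ 0) : ∃ s, f s ≠ 0 ∧ j s = u := by
  classical
  have h1 := Finsupp.mapDomain_support (Finsupp.mem_support_iff.mpr h)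
  rw [Finset.mem_image] at h1
  obtain ⟨s, hs, rfl⟩ := h1
  exact ⟨s, Finsupp.mem_support_iff.mp hs, rfl⟩

/-! ### The universal tower -/

theorem exists_code : ∃ c : (ℕ →₀ ℚ) → ℕ, Function.Injective c :=
  Countable.exists_injective_nat (ℕ →₀ ℚ)

noncomputable def code : (ℕ →₀ ℚ) → ℕ := Classical.choose exists_code

theorem code_inj : Function.Injective code := Classical.choose_spec exists_code

def OK (n : ℕ) (f : ℕ →₀ ℚ) : Prop :=
  code f = n.unpair.1 ∧ (∀ s, f s ≠ 0 → s < n) ∧ (f.sum fun _ q => |q|) ≤ 1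

open Classical in
noncomputable def phi (n : ℕ) : ℕ →₀ ℚ := if h : ∃ f, OK n f then Classical.choose h else 0

theorem phi_eq {n : ℕ} {f : ℕ →₀ ℚ} (h : OK n f) : phi n = f := by
  have h1 : ∃ f, OK n f := ⟨f, h⟩
  unfold phi
  rw [dif_pos h1]
  have h2 := Classical.choose_spec h1
  exact code_inj (h2.1.trans h.1.symm)

/-- The universal tower. -/
noncomputable def uni : Tower ℕ where
  ψ := phi
  rk := id
  lt t s h := by
    by_cases h1 : ∃ f, OK t f
    · obtain ⟨f, hf⟩ := h1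
      rw [phi_eq hf] at h
      exact hf.2.1 s h
    · unfold phi at h
      rw [dif_neg h1] at h
      exact absurd rfl h
  le t := by
    by_cases h1 : ∃ f, OK t f
    · obtain ⟨f, hf⟩ := h1
      rw [phi_eq hf]
      exact hf.2.2
    · unfold phi
      rw [dif_neg h1]
      simp

theorem uni_pair {f : ℕ →₀ ℚ} (hf : (f.sum fun _ q => |q|) ≤ 1) {m : ℕ}
    (hm : ∀ s, f s ≠ 0 → s < m) : uni.ψ (Nat.pair (code f) m) = f := by
  apply phi_eq
  refine ⟨by rw [Nat.unpair_pair], fun s hs => ?_, hf⟩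
  exact lt_of_lt_of_le (hm s hs) (Nat.right_le_pair _ _)

/-! ### Embedding towers in the universal tower -/

section embed

variable {I : Type} (Ψ : Tower I) (enc : I → ℕ)

noncomputable def jN : ℕ → I → ℕ
  | 0, _ => 0
  | n + 1, t => Nat.pair (code ((Ψ.ψ t).mapDomain (jN n)))
      (Nat.pair (enc t) (1 + ∑ s ∈ (Ψ.ψ t).support, jN n s))

theorem jN_stable : ∀ (n m : ℕ) (t : I), Ψ.rk t < n → Ψ.rk t < m →
    jN Ψ enc n t = jN Ψ enc m t
  | 0, _, _, h, _ => absurd h (Nat.not_lt_zero _)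
  | _ + 1, 0, _, _, h => absurd h (Nat.not_lt_zero _)
  | n + 1, m + 1, t, h1, h2 => by
    have h3 : ∀ s ∈ (Ψ.ψ t).support, jN Ψ enc n s = jN Ψ enc m s := by
      intro s hs
      have := Ψ.lt t s (Finsupp.mem_support_iff.mp hs)
      exact jN_stable n m s (by omega) (by omega)
    unfold jN
    rw [Finsupp.mapDomain_congr h3, Finset.sum_congr rfl h3]

noncomputable def jj (t : I) : ℕ := jN Ψ enc (Ψ.rk t + 1) t

theorem jj_eq (t : I) : jj Ψ enc t = Nat.pair (code ((Ψ.ψ t).mapDomain (jj Ψ enc)))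
      (Nat.pair (enc t) (1 + ∑ s ∈ (Ψ.ψ t).support, jj Ψ enc s)) := by
  have h3 : ∀ s ∈ (Ψ.ψ t).support, jN Ψ enc (Ψ.rk t) s = jj Ψ enc s := by
    intro s hs
    have := Ψ.lt t s (Finsupp.mem_support_iff.mp hs)
    exact jN_stable Ψ enc _ _ s (by omega) (by omega)
  conv_lhs => unfold jj jN
  rw [Finsupp.mapDomain_congr h3, Finset.sum_congr rfl h3]

theorem jj_inj (henc : Function.Injective enc) : Function.Injective (jj Ψ enc) := by
  intro a b hab
  rw [jj_eq Ψ enc a, jj_eq Ψ enc b, Nat.pair_eq_pair, Nat.pair_eq_pair] at hab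
  exact henc hab.2.1

/-- Every tower on a countable set embeds in the universal tower. -/
noncomputable def toUni (henc : Function.Injective enc) : Emb Ψ uni where
  j := jj Ψ enc
  inj := jj_inj Ψ enc henc
  compat t := by
    conv_lhs => rw [jj_eq]
    apply uni_pair
    · exact (l1_mapDomain _ _).trans (Ψ.le t)
    · intro u hu
      obtain ⟨s, hs, rfl⟩ := mapDomain_ne_zero hu
      have h1 : jj Ψ enc s ≤ ∑ s ∈ (Ψ.ψ t).support, jj Ψ enc s :=
        Finset.single_le_sum (f := fun s => jj Ψ enc s) (fun _ _ => Nat.zero_le _)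
          (Finsupp.mem_support_iff.mpr hs)
      have h2 := Nat.right_le_pair (enc t) (1 + ∑ s ∈ (Ψ.ψ t).support, jj Ψ enc s)
      omega

end embed

/-! ### Rows -/

/-- Countably many disjoint copies of a tower. -/
noncomputable def row {I : Type} (Ψ : Tower I) : Tower (ℕ × I) where
  ψ p := (Ψ.ψ p.2).mapDomain (fun s => (p.1, s))
  rk p := Ψ.rk p.2
  lt p q h := by
    obtain ⟨s, hs, rfl⟩ := mapDomain_ne_zero h
    exact Ψ.lt _ _ hs
  le p := (l1_mapDomain _ _).trans (Ψ.le _)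

/-- The `i`-th row. -/
noncomputable def rowEmb {I : Type} (Ψ : Tower I) (i : ℕ) : Emb Ψ (row Ψ) where
  j t := (i, t)
  inj _ _ h := (Prod.mk.inj h).2
  compat _ := rfl

/-- Embeddings of rows. -/
noncomputable def rowMap {I J : Type} {Ψ : Tower I} {Φ : Tower J} (E : Emb Ψ Φ) {σ : ℕ → ℕ}
    (hσ : Function.Injective σ) : Emb (row Ψ) (row Φ) where
  j p := (σ p.1, E.j p.2)
  inj := by
    rintro ⟨a, b⟩ ⟨c, d⟩ h
    rw [Prod.mk.injEq] at h
    exact Prod.ext (hσ h.1) (E.inj h.2)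
  compat p := by
    show (Φ.ψ (E.j p.2)).mapDomain (fun s => (σ p.1, s)) = _
    rw [E.compat, ← Finsupp.mapDomain_comp]
    show _ = ((Ψ.ψ p.2).mapDomain (fun s => (p.1, s))).mapDomain _
    rw [← Finsupp.mapDomain_comp]
    rfl

/-- The identity embedding. -/
noncomputable def idEmb {I : Type} (Ψ : Tower I) : Emb Ψ Ψ where
  j := id
  inj := Function.injective_id
  compat t := by rw [Finsupp.mapDomain_id]; rfl

theorem row_square {I : Type} (Ψ : Tower I) :
    Nonempty (Sp (row Ψ).sn ≃L[ℝ] (Sp (row Ψ).sn × Sp (row Ψ).sn)) := by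
  have h0 : Function.Injective (fun n : ℕ => 2 * n) := by
    intro a b h
    have h' : 2 * a = 2 * b := h
    omega
  have h1 : Function.Injective (fun n : ℕ => 2 * n + 1) := by
    intro a b h
    have h' : 2 * a + 1 = 2 * b + 1 := h
    omega
  refine ⟨(rowMap (idEmb Ψ) h0).split (rowMap (idEmb Ψ) h1) ?_ ?_⟩
  · rintro ⟨a, s⟩ ⟨b, t⟩ h
    have : 2 * a = 2 * b + 1 := (Prod.mk.inj h).1
    omega
  · rintro ⟨a, s⟩
    rcases Nat.even_or_odd' a with ⟨b, hb | hb⟩
    · exact Or.inl ⟨(b, s), by show (2 * b, s) = (a, s); rw [hb]⟩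
    · exact Or.inr ⟨(b, s), by show (2 * b + 1, s) = (a, s); rw [hb]⟩

theorem row_peel {I : Type} (Ψ : Tower I) :
    Nonempty (Sp (row Ψ).sn ≃L[ℝ] (Sp Ψ.sn × Sp (row Ψ).sn)) := by
  refine ⟨(rowEmb Ψ 0).split (rowMap (idEmb Ψ) Nat.succ_injective) ?_ ?_⟩
  · rintro s ⟨b, t⟩ h
    exact absurd (Prod.mk.inj h).1 (Nat.succ_ne_zero b).symm
  · rintro ⟨a, s⟩
    rcases Nat.eq_zero_or_pos a with ha | ha
    · exact Or.inl ⟨s, by show (0, s) = (a, s); rw [ha]⟩
    · exact Or.inr ⟨(a - 1, s), by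
        show (Nat.succ (a - 1), s) = (a, s)
        rw [Nat.succ_eq_add_one, Nat.sub_add_cancel ha]⟩

/-- The universal space is isomorphic to its rows. -/
theorem uni_rows : Nonempty (Sp uni.sn ≃L[ℝ] Sp (row uni).sn) := by
  have E : Emb (row uni) uni := toUni (row uni) Encodable.encode Encodable.encode_injective
  obtain ⟨e1⟩ := absorb (row_square uni) E.T E.R E.R_T
  obtain ⟨e2⟩ := row_peel uni
  exact ⟨(e1.trans (ContinuousLinearEquiv.prodComm ℝ _ _)).trans e2.symm⟩

/-- A tower whose rows contain the rows of the universal tower gives the universal space. -/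
theorem iso_of_emb {I : Type} [Encodable I] {Ψ : Tower I} (E : Emb uni Ψ) :
    Nonempty (Sp (row Ψ).sn ≃L[ℝ] Sp uni.sn) := by
  have E1 : Emb (row Ψ) uni := toUni (row Ψ) Encodable.encode Encodable.encode_injective
  obtain ⟨e1⟩ := absorb (row_square Ψ) E1.T E1.R E1.R_T
  have E2 : Emb (row uni) (row Ψ) := rowMap E Function.injective_id
  obtain ⟨e2⟩ := absorb (row_square uni) E2.T E2.R E2.R_T
  obtain ⟨e3⟩ := uni_rows
  exact ⟨(((e2.trans (e3.symm.prodCongr (ContinuousLinearEquiv.refl ℝ _)))).trans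
    (ContinuousLinearEquiv.prodComm ℝ _ _)).trans e1.symm⟩

end Pool.Agent.H418R3.Gur
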