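import Mathlib
import Pool.Agent.H418R3.GurUniv

/-! Towers indexed by trees, and the continuous map from trees to norms. -/

namespace Pool.Agent.H418R3.Gur

open Topology

/-- The tail of `t` of length `k` (trees grow at the head of the list). -/
def anc (t : List ℕ) (k : ℕ) : List ℕ := t.drop (t.length - k)

/-- `t` and all its tails belong to `T`. -/
def inT (T : List ℕ → Bool) : List ℕ → Bool
  | [] => T []
  | a :: s => T (a :: s) && inT T s

theorem inT_self {T : List ℕ → Bool} : ∀ {t : List ℕ}, inT T t = true → T t = true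
  | [], h => h
  | a :: s, h => by
    unfold inT at h
    rw [Bool.and_eq_true] at h
    exact h.1

theorem inT_suffix {T : List ℕ → Bool} {s : List ℕ} : ∀ {t : List ℕ}, s <:+ t → inT T t = true →
    inT T s = true
  | [], h, ht => by
    rw [List.suffix_nil] at h
    rw [h]; exact ht
  | a :: u, h, ht => by
    rcases List.suffix_cons_iff.mp h with h | h
    · rw [h]; exact ht
    · unfold inT at ht
      rw [Bool.and_eq_true] at ht
      exact inT_suffix h ht.2

theorem inT_congr {T T' : List ℕ → Bool} : ∀ {t : List ℕ}, (∀ s, s <:+ t → T s = T' s) →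
    inT T t = inT T' t
  | [], h => h [] (List.suffix_refl _)
  | a :: s, h => by
    unfold inT
    rw [h _ (List.suffix_refl _), inT_congr fun u hu => h u (hu.trans (List.suffix_cons a s))]

theorem anc_suffix (t : List ℕ) (k : ℕ) : anc t k <:+ t := List.drop_suffix _ _

theorem anc_length {t : List ℕ} {k : ℕ} (h : k ≤ t.length) : (anc t k).length = k := by
  unfold anc
  rw [List.length_drop]
  omega

/-- The tower of a tree. -/
noncomputable def tt (T : List ℕ → Bool) : Tower (List ℕ) where
  ψ t := if inT T t = true then (phi t.length).mapDomain (anc t) else 0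
  rk := List.length
  lt t s h := by
    by_cases ht : inT T t = true
    · rw [if_pos ht] at h
      obtain ⟨k, hk, rfl⟩ := mapDomain_ne_zero h
      have h1 : k < t.length := uni.lt _ _ hk
      rw [anc_length h1.le]
      exact h1
    · rw [if_neg ht] at h
      exact absurd rfl h
  le t := by
    by_cases ht : inT T t = true
    · rw [if_pos ht]
      exact (l1_mapDomain _ _).trans (uni.le _)
    · rw [if_neg ht]; simp

theorem tt_ψ_suffix {T : List ℕ → Bool} {t s : List ℕ} (h : (tt T).ψ t s ≠ 0) : s <:+ t := by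
  have h' : (if inT T t = true then (phi t.length).mapDomain (anc t) else 0) s ≠ 0 := h
  by_cases ht : inT T t = true
  · rw [if_pos ht] at h'
    obtain ⟨k, hk, rfl⟩ := mapDomain_ne_zero h'
    exact anc_suffix t k
  · rw [if_neg ht] at h'
    exact absurd rfl h'

theorem tt_ψ_zero {T : List ℕ → Bool} {t : List ℕ} (h : inT T t = false) : (tt T).ψ t = 0 := by
  show (if inT T t = true then (phi t.length).mapDomain (anc t) else 0) = 0
  rw [if_neg (by rw [h]; simp)]

/-- The initial segments of a sequence. -/
def br (b : ℕ → ℕ) : ℕ → List ℕ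
  | 0 => []
  | n + 1 => b n :: br b n

theorem br_length (b : ℕ → ℕ) : ∀ n, (br b n).length = n
  | 0 => rfl
  | n + 1 => by
    unfold br
    rw [List.length_cons, br_length b n]

theorem anc_br (b : ℕ → ℕ) : ∀ n k, k ≤ n → anc (br b n) k = br b k
  | 0, k, h => by
    have : k = 0 := by omega
    subst this; rfl
  | n + 1, k, h => by
    rcases Nat.lt_or_ge n k with h1 | h1
    · have : k = n + 1 := by omega
      subst this
      unfold anc
      rw [br_length, Nat.sub_self, List.drop_zero]
    · unfold anc
      have h2 := anc_br b n k h1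
      unfold anc at h2
      rw [br_length] at h2 ⊢
      have h3 : n + 1 - k = (n - k) + 1 := by omega
      rw [h3]
      show List.drop ((n - k) + 1) (b n :: br b n) = _
      rw [List.drop_succ_cons]
      exact h2

/-- `T` has an infinite branch. -/
def IF : Set (List ℕ → Bool) := {T | ∃ b : ℕ → ℕ, ∀ n, T (br b n) = true}

theorem inT_br {T : List ℕ → Bool} {b : ℕ → ℕ} (h : ∀ n, T (br b n) = true) :
    ∀ n, inT T (br b n) = true
  | 0 => h 0
  | n + 1 => by
    show (T (br b (n + 1)) && inT T (br b n)) = true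
    rw [h (n + 1), inT_br h n]; rfl

/-- A branch gives an embedding of the universal tower. -/
noncomputable def brEmb {T : List ℕ → Bool} {b : ℕ → ℕ} (h : ∀ n, T (br b n) = true) :
    Emb uni (tt T) where
  j := br b
  inj m n hmn := by
    have := congrArg List.length hmn
    rwa [br_length, br_length] at this
  compat n := by
    show (if inT T (br b n) = true then (phi (br b n).length).mapDomain (anc (br b n)) else 0) = _
    rw [if_pos (inT_br h n), br_length]
    apply Finsupp.mapDomain_congr
    intro k hk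
    have h1 : k < n := uni.lt n k (Finsupp.mem_support_iff.mp hk)
    exact anc_br b n k h1.le

/-! ### Dependence on the tree -/

theorem coord_congr {T T' : List ℕ → Bool} (w : (ℕ × List ℕ) →₀ ℝ) (i : ℕ) :
    ∀ (n : ℕ) (t : List ℕ), t.length < n → (∀ s, s <:+ t → T s = T' s) →
      (row (tt T)).coord w (i, t) = (row (tt T')).coord w (i, t)
  | 0, _, h, _ => absurd h (Nat.not_lt_zero _)
  | n + 1, t, h, hT => by
    rw [Tower.coord_eq, Tower.coord_eq]
    congr 1
    show ev (((tt T).ψ t).mapDomain (fun s => (i, s))) _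
      = ev (((tt T').ψ t).mapDomain (fun s => (i, s))) _
    rw [ev_mapDomain, ev_mapDomain]
    have h1 : (tt T).ψ t = (tt T').ψ t := by
      show (if inT T t = true then (phi t.length).mapDomain (anc t) else 0)
        = (if inT T' t = true then (phi t.length).mapDomain (anc t) else 0)
      rw [inT_congr hT]
    rw [h1]
    apply ev_congr
    intro s hs
    have h2 := tt_ψ_suffix hs
    have h3 : s.length < t.length := (tt T').lt t s hs
    exact coord_congr w i n s (by omega) (fun u hu => hT u (hu.trans h2))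

theorem sn_mono {T T' : List ℕ → Bool} {w : (ℕ × List ℕ) →₀ ℝ}
    (h : ∀ p, w p ≠ 0 → ∀ s, s <:+ p.2 → T s = T' s) :
    (row (tt T)).sn w ≤ (row (tt T')).sn w := by
  apply Tower.sn_le _ (apply_nonneg _ _)
  rintro ⟨i, t⟩ ht
  rw [coord_congr w i _ t (Nat.lt_succ_self _) (h (i, t) ht)]
  exact Tower.coord_le_sn _ _ _

/-- Transport of index sets. -/
noncomputable def eqv : (ℕ →₀ ℝ) ≃ₗ[ℝ] ((ℕ × List ℕ) →₀ ℝ) :=
  Finsupp.domLCongr (Denumerable.eqv (ℕ × List ℕ)).symm

/-- The norm coded by a tree. -/
noncomputable def theta (T : List ℕ → Bool) : PN := (row (tt T)).sn.comp eqv.toLinearMap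

theorem theta_apply (T : List ℕ → Bool) (v : ℕ →₀ ℝ) : theta T v = (row (tt T)).sn (eqv v) := rfl

theorem continuous_theta : Continuous theta := by
  rw [continuous_induced_rng]
  refine continuous_pi fun v => ?_
  apply IsLocallyConstant.continuous
  rw [IsLocallyConstant.iff_exists_open]
  intro T
  show ∃ U : Set (List ℕ → Bool), IsOpen U ∧ T ∈ U ∧
    ∀ T' ∈ U, theta T' (rat v) = theta T (rat v)
  let D : Finset (List ℕ) := (eqv (rat v)).support.biUnion fun p => p.2.tails.toFinset
  refine ⟨{T' | ∀ s ∈ D, T' s = T s}, ?_, fun s _ => rfl, ?_⟩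
  · have h1 : {T' : List ℕ → Bool | ∀ s ∈ D, T' s = T s}
        = ⋂ s ∈ D, {T' : List ℕ → Bool | T' s = T s} := by
      ext T'; simp
    rw [h1]
    apply isOpen_biInter_finset
    intro s _
    have h2 : Continuous fun T' : List ℕ → Bool => T' s := continuous_apply s
    exact (isOpen_discrete {T s}).preimage h2
  · intro T' hT'
    rw [theta_apply, theta_apply]
    have key : ∀ p, eqv (rat v) p ≠ 0 → ∀ s, s <:+ p.2 → T' s = T s := by
      intro p hp s hs
      apply hT'
      rw [Finset.mem_biUnion]
      refine ⟨p, Finsupp.mem_support_iff.mpr hp, ?_⟩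
      rw [List.mem_toFinset, List.mem_tails]
      exact hs
    exact le_antisymm (sn_mono key) (sn_mono fun p hp s hs => (key p hp s hs).symm)

theorem theta_norm (T : List ℕ → Bool) (x : ℕ →₀ ℝ) (h : theta T x = 0) : x = 0 := by
  rw [theta_apply] at h
  have := (row (tt T)).sn_eq_zero h
  exact (LinearEquiv.map_eq_zero_iff eqv).mp this

theorem not_fin_of_norm {μ : PN} (h : ∀ x : ℕ →₀ ℝ, μ x = 0 → x = 0) : μ ∈ PInf := by
  intro hfin
  have hinj : Function.Injective (ic μ) := by
    rw [injective_iff_map_eq_zero]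
    intro v hv
    apply h
    rw [← norm_ic, hv, norm_zero]
  have h1 : FiniteDimensional ℝ (ℕ →₀ ℝ) := FiniteDimensional.of_injective (ic μ) hinj
  exact Module.Finite.not_linearIndependent_of_infinite (R := ℝ) (fun n : ℕ => (Finsupp.single n 1 : ℕ →₀ ℝ))
    (by
      have := (Finsupp.basisSingleOne (R := ℝ) (ι := ℕ)).linearIndependent
      simpa using this)

theorem theta_mem_BB (T : List ℕ → Bool) : theta T ∈ BB :=
  ⟨not_fin_of_norm (theta_norm T), theta_norm T⟩

theorem theta_mem_PInf (T : List ℕ → Bool) : theta T ∈ PInf := not_fin_of_norm (theta_norm T)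

/-- Transport of the completions. -/
theorem Sp_equiv {I J : Type} (e : (I →₀ ℝ) ≃ₗ[ℝ] (J →₀ ℝ)) (μ : Seminorm ℝ (J →₀ ℝ)) :
    Nonempty (Sp (μ.comp e.toLinearMap) ≃L[ℝ] Sp μ) := by
  have h1 : ∀ v, ‖((ic μ).comp e.toLinearMap) v‖ ≤ 1 * (μ.comp e.toLinearMap) v := by
    intro v
    rw [LinearMap.comp_apply, norm_ic, one_mul]
    rfl
  have h2 : ∀ v, ‖((ic (μ.comp e.toLinearMap)).comp e.symm.toLinearMap) v‖ ≤ 1 * μ v := by
    intro v
    rw [LinearMap.comp_apply, norm_ic, one_mul]
    show μ (e (e.symm v)) ≤ μ v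
    rw [e.apply_symm_apply]
  refine ⟨ContinuousLinearEquiv.equivOfInverse
    (lift _ ((ic μ).comp e.toLinearMap))
    (lift _ ((ic (μ.comp e.toLinearMap)).comp e.symm.toLinearMap)) ?_ ?_⟩
  · intro x
    have : (lift _ ((ic (μ.comp e.toLinearMap)).comp e.symm.toLinearMap)).comp
        (lift _ ((ic μ).comp e.toLinearMap)) = ContinuousLinearMap.id ℝ _ := by
      apply Sp_ext
      intro v
      rw [ContinuousLinearMap.comp_apply, lift_ic h1, LinearMap.comp_apply, lift_ic h2,
        LinearMap.comp_apply]
      show ic _ (e.symm (e v)) = _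
      rw [e.symm_apply_apply]
      rfl
    exact DFunLike.congr_fun this x
  · intro x
    have : (lift _ ((ic μ).comp e.toLinearMap)).comp
        (lift _ ((ic (μ.comp e.toLinearMap)).comp e.symm.toLinearMap))
        = ContinuousLinearMap.id ℝ _ := by
      apply Sp_ext
      intro v
      rw [ContinuousLinearMap.comp_apply, lift_ic h2, LinearMap.comp_apply, lift_ic h1,
        LinearMap.comp_apply]
      show ic _ (e (e.symm v)) = _
      rw [e.apply_symm_apply]
      rfl
    exact DFunLike.congr_fun this x

/-- Trees with a branch code the universal space. -/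
theorem theta_iso {T : List ℕ → Bool} (h : T ∈ IF) : Nonempty (XX (theta T) ≃L[ℝ] Sp uni.sn) := by
  obtain ⟨b, hb⟩ := h
  obtain ⟨e1⟩ := Sp_equiv eqv (row (tt T)).sn
  obtain ⟨e2⟩ := iso_of_emb (brEmb hb)
  exact ⟨e1.trans e2⟩

end Pool.Agent.H418R3.Gur
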