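import Pool.Agent.H289R3.FS.Stmts

/-!
# TASK SECTION of the project H289-FS (MP_74810d_gt)
-/

set_option autoImplicit false
open Set Topology Filter MeasureTheory

namespace Pool.Agent.H289R3.FS

namespace SectionAux

/-- the mass -/
noncomputable def A (g : ℝ → ℝ) (s : ℝ) : ℝ := ∫ t in (0:ℝ)..s, g t

/-- the double integral -/
noncomputable def B (g : ℝ → ℝ) (s : ℝ) : ℝ := ∫ t in (0:ℝ)..s, (s - t) * g t

theorem A_nonneg {g : ℝ → ℝ} (h0 : ∀ t, 0 ≤ g t) {s : ℝ} (hs : 0 ≤ s) : 0 ≤ A g s :=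
  intervalIntegral.integral_nonneg hs fun t _ => h0 t

theorem B_zero (g : ℝ → ℝ) : B g 0 = 0 := by simp [B]

theorem B_le {g : ℝ → ℝ} (hg : Continuous g) (h0 : ∀ t, 0 ≤ g t) {s : ℝ} (hs : 0 ≤ s) :
    B g s ≤ s * A g s := by
  unfold A B
  rw [← intervalIntegral.integral_const_mul]
  refine intervalIntegral.integral_mono_on hs (Continuous.intervalIntegrable (by fun_prop) _ _)
    (Continuous.intervalIntegrable (by fun_prop) _ _) ?_
  intro t ht
  nlinarith [h0 t, ht.1, mul_nonneg ht.1 (h0 t)]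

theorem B_step {g : ℝ → ℝ} (hg : Continuous g) (h0 : ∀ t, 0 ≤ g t) {s s' : ℝ}
    (hss : s ≤ s') : B g s + (s' - s) * A g s ≤ B g s' := by
  have h1 : B g s' = (∫ t in (0:ℝ)..s, (s' - t) * g t) + ∫ t in s..s', (s' - t) * g t := by
    unfold B
    rw [intervalIntegral.integral_add_adjacent_intervals] <;>
      exact Continuous.intervalIntegrable (by fun_prop) _ _
  have h2 : (∫ t in (0:ℝ)..s, (s' - t) * g t) = B g s + (s' - s) * A g s := by
    unfold A B
    rw [← intervalIntegral.integral_const_mul, ← intervalIntegral.integral_add]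
    · congr 1; ext t; ring
    · exact Continuous.intervalIntegrable (by fun_prop) _ _
    · exact Continuous.intervalIntegrable (by fun_prop) _ _
  have h3 : 0 ≤ ∫ t in s..s', (s' - t) * g t :=
    intervalIntegral.integral_nonneg hss fun t ht => mul_nonneg (by linarith [ht.2]) (h0 t)
  rw [h1, h2]; linarith

theorem B_mono {g : ℝ → ℝ} (hg : Continuous g) (h0 : ∀ t, 0 ≤ g t) {s s' : ℝ}
    (hs : 0 ≤ s) (hss : s ≤ s') : B g s ≤ B g s' := by
  have := B_step hg h0 hss
  have := mul_nonneg (sub_nonneg.2 hss) (A_nonneg h0 hs)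
  linarith

theorem A_pos_of {g : ℝ → ℝ} (hg : Continuous g) (h0 : ∀ t, 0 ≤ g t) {s : ℝ} (hs : 0 ≤ s)
    (h : 1 ≤ B g s) : 0 < A g s := by
  have h1 := B_le hg h0 hs
  rcases (A_nonneg h0 hs).eq_or_lt with h2 | h2
  · rw [← h2] at h1; linarith
  · exact h2

theorem lt_B {g : ℝ → ℝ} (hg : Continuous g) (h0 : ∀ t, 0 ≤ g t) {s s' : ℝ} (hs : 0 ≤ s)
    (h : 1 ≤ B g s) (hss : s < s') : 1 < B g s' := by
  have h1 := A_pos_of hg h0 hs h
  have h2 := B_step hg h0 hss.le
  have h3 := mul_pos (sub_pos.2 hss) h1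
  linarith

theorem B_lt {g : ℝ → ℝ} (hg : Continuous g) (h0 : ∀ t, 0 ≤ g t) {s s' : ℝ} (hs : 0 ≤ s')
    (h : B g s = 1) (hss : s' < s) : B g s' < 1 := by
  by_contra hc
  have := lt_B hg h0 hs (not_lt.1 hc) hss
  linarith

theorem B_unique {g : ℝ → ℝ} (hg : Continuous g) (h0 : ∀ t, 0 ≤ g t) {s s' : ℝ} (hs : 0 ≤ s)
    (hs' : 0 ≤ s') (h : B g s = 1) (h' : B g s' = 1) : s = s' := by
  rcases lt_trichotomy s s' with h1 | h1 | h1
  · have := lt_B hg h0 hs h.ge h1; linarith
  · exact h1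
  · have := lt_B hg h0 hs' h'.ge h1; linarith

theorem B_cont {g : ℝ → ℝ} (hg : Continuous g) : Continuous (B g) := by
  unfold B
  exact intervalIntegral.continuous_parametric_intervalIntegral_of_continuous
    (f := fun s t => (s - t) * g t) (by unfold Function.uncurry; fun_prop) continuous_id

theorem exists_B {g : ℝ → ℝ} (hg : Continuous g) (h0 : ∀ t, 0 ≤ g t) {t₀ : ℝ} (ht₀ : 0 ≤ t₀)
    (hp : 0 < g t₀) : ∃ s, 0 ≤ s ∧ B g s = 1 := by
  have hA : 0 < A g (t₀ + 1) :=
    intervalIntegral.integral_pos (by linarith) hg.continuousOn (fun x _ => h0 x)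
      ⟨t₀, ⟨ht₀, by linarith⟩, hp⟩
  have h1 := B_step (s' := t₀ + 1 + 1 / A g (t₀ + 1)) (s := t₀ + 1) hg h0 (by
    have := one_div_pos.2 hA; linarith)
  have h2 : (t₀ + 1 + 1 / A g (t₀ + 1) - (t₀ + 1)) * A g (t₀ + 1) = 1 := by field_simp; ring
  have h3 : 0 ≤ B g (t₀ + 1) := by
    have := B_mono hg h0 le_rfl (show (0:ℝ) ≤ t₀ + 1 by linarith)
    rwa [B_zero] at this
  have h4 : (0:ℝ) ≤ t₀ + 1 + 1 / A g (t₀ + 1) := by
    have := one_div_pos.2 hA; linarith
  obtain ⟨s, hs, hs1⟩ := intermediate_value_Icc h4 (B_cont hg).continuousOn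
    (show (1:ℝ) ∈ Icc (B g 0) (B g (t₀ + 1 + 1 / A g (t₀ + 1))) from
      ⟨by rw [B_zero]; norm_num, by linarith⟩)
  exact ⟨s, hs.1, hs1⟩

theorem B_shift {g g₀ : ℝ → ℝ} (hg₀ : Continuous g₀) {c : ℝ} (hc : 0 ≤ c)
    (hgc : ∀ t, g t = g₀ (t + c)) (hz : ∀ t ≤ c, g₀ t = 0) (s : ℝ) :
    B g₀ (c + s) = B g s := by
  have h1 : B g₀ (c + s) = (∫ t in (0:ℝ)..c, (c + s - t) * g₀ t) +
      ∫ t in c..(c + s), (c + s - t) * g₀ t := by
    unfold B
    rw [intervalIntegral.integral_add_adjacent_intervals] <;>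
      exact Continuous.intervalIntegrable (by fun_prop) _ _
  have h2 : (∫ t in (0:ℝ)..c, (c + s - t) * g₀ t) = 0 := by
    rw [intervalIntegral.integral_congr (g := fun _ => (0:ℝ))]
    · simp
    · intro t ht
      rw [uIcc_of_le hc] at ht
      simp [hz t ht.2]
  have h3 : (∫ t in (0:ℝ)..s, (s - t) * g t) = ∫ t in c..(c + s), (c + s - t) * g₀ t := by
    have := intervalIntegral.integral_comp_add_right (a := (0:ℝ)) (b := s)
      (fun t => (c + s - t) * g₀ t) c
    rw [zero_add, add_comm s c] at this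
    rw [← this]
    congr 1; ext t
    rw [hgc]; ring
  rw [h1, h2, zero_add, ← h3]
  rfl

end SectionAux

open SectionAux

theorem taskSection : TaskSection := by
  intro Y N _ _ _ _ _ _ _ φ f hO K hK hKr hprop
  classical
  obtain ⟨L0, hL0, hKL0⟩ : ∃ L0 : Set Y, IsCompact L0 ∧ K ⊆ f '' L0 := by
    refine hK.induction_on (p := fun S => ∃ L0 : Set Y, IsCompact L0 ∧ S ⊆ f '' L0) ?_ ?_ ?_ ?_
    · exact ⟨∅, isCompact_empty, empty_subset _⟩
    · rintro s t hst ⟨L, hL, h⟩
      exact ⟨L, hL, hst.trans h⟩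
    · rintro s t ⟨L, hL, h⟩ ⟨L', hL', h'⟩
      exact ⟨L ∪ L', hL.union hL', by rw [image_union]; exact union_subset_union h h'⟩
    · intro m hm
      obtain ⟨y, rfl⟩ := hKr hm
      obtain ⟨C, hC, hCy⟩ := exists_compact_mem_nhds y
      exact ⟨f '' C, mem_nhdsWithin_of_mem_nhds (hO.fopen.image_mem_nhds hCy), C, hC, subset_rfl⟩
  obtain ⟨lam, hlam1, -, hlamc, hlamI⟩ :=
    exists_continuous_one_zero_of_isCompact hL0 isClosed_empty (disjoint_empty L0)
  have hlam0 : ∀ y, 0 ≤ lam y := fun y => (hlamI y).1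
  obtain ⟨g, hg⟩ : ∃ g : Y → ℝ → ℝ, g = fun y t => lam (φ t y) := ⟨_, rfl⟩
  have hgc : Continuous (fun p : Y × ℝ => g p.1 p.2) := by
    rw [hg]
    exact lam.continuous.comp (hO.cont.comp (continuous_snd.prodMk continuous_fst))
  have hgy : ∀ y, Continuous (g y) := fun y => hgc.comp (continuous_const.prodMk continuous_id)
  have hg0 : ∀ y t, 0 ≤ g y t := fun y t => by rw [hg]; exact hlam0 _
  -- joint continuity of `B`
  have hBc : ∀ s, Continuous (fun y => B (g y) s) := by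
    intro s
    unfold B
    exact intervalIntegral.continuous_parametric_intervalIntegral_of_continuous
      (f := fun (y : Y) t => (s - t) * g y t)
      ((continuous_const.sub continuous_snd).mul hgc) continuous_const
  -- base points
  have hb : ∀ m ∈ K, ∃ y, y ∈ tsupport lam ∧ f y = m ∧ ∀ t ≤ 0, g y t = 0 := by
    intro m hm
    obtain ⟨y, hyL0, hfy⟩ := hKL0 hm
    obtain ⟨R, hR⟩ := hprop y (by rw [hfy]; exact hm) (tsupport lam) hlamc
    have hφy : Continuous (fun t => φ t y) :=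
      hO.cont.comp (continuous_id.prodMk continuous_const)
    have hSc : IsCompact {t : ℝ | φ t y ∈ tsupport lam} :=
      IsCompact.of_isClosed_subset isCompact_Icc
        ((isClosed_tsupport _).preimage hφy) (fun t ht => abs_le.1 (hR t ht))
    have hne : {t : ℝ | φ t y ∈ tsupport lam}.Nonempty := by
      refine ⟨0, ?_⟩
      simp only [mem_setOf_eq, hO.zero]
      apply subset_tsupport
      simp [Function.mem_support, hlam1 hyL0]
    obtain ⟨t₀, ht₀, hmin⟩ := hSc.exists_isLeast hne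
    refine ⟨φ t₀ y, ht₀, ?_, ?_⟩
    · rw [← hfy]; exact ((hO.fibre y (φ t₀ y)).2 ⟨t₀, rfl⟩).symm
    · have h1 : ∀ t ∈ Iio (0:ℝ), t ∈ {t | g (φ t₀ y) t = 0} := by
        intro t ht
        simp only [mem_setOf_eq, hg]
        rw [← hO.add]
        apply image_eq_zero_of_notMem_tsupport
        intro hmem
        have := hmin hmem
        have h2 : t < 0 := ht
        linarith
      have h2 : IsClosed {t | g (φ t₀ y) t = 0} := isClosed_eq (hgy _) continuous_const
      have h3 := closure_minimal h1 h2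
      rw [closure_Iio] at h3
      exact fun t ht => h3 ht
  choose! b hbL hbf hbP using hb
  -- existence of `T`
  have hT : ∀ y, f y ∈ K → (∀ t ≤ 0, g y t = 0) → ∃ s, 0 ≤ s ∧ B (g y) s = 1 := by
    intro y hy hP
    obtain ⟨y1, hy1, hfy1⟩ := hKL0 hy
    obtain ⟨t, ht⟩ := (hO.fibre y y1).1 hfy1.symm
    have hgt : g y t = 1 := by rw [hg]; simp only [ht]; exact hlam1 hy1
    have ht0 : 0 ≤ t := by
      by_contra hc
      have := hP t (not_le.1 hc).le
      rw [hgt] at this; norm_num at this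
    exact exists_B (hgy y) (hg0 y) ht0 (by rw [hgt]; norm_num)
  choose! T hT0 hT1 using hT
  have hfφ : ∀ c y, f (φ c y) = f y := fun c y => ((hO.fibre y (φ c y)).2 ⟨c, rfl⟩).symm
  -- equivariance
  have key : ∀ y0 c, f y0 ∈ K → (∀ t ≤ 0, g y0 t = 0) → (∀ t ≤ 0, g (φ c y0) t = 0) → 0 ≤ c →
      φ (T (φ c y0)) (φ c y0) = φ (T y0) y0 := by
    intro y0 c hy0 hP0 hPc hc
    have hgs : ∀ t, g (φ c y0) t = g y0 (t + c) := by
      intro t; rw [hg]; simp only; rw [hO.add]
    have hz : ∀ t ≤ c, g y0 t = 0 := by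
      intro t ht
      have := hPc (t - c) (by linarith)
      rwa [hgs, sub_add_cancel] at this
    have hfc : f (φ c y0) ∈ K := by rw [hfφ]; exact hy0
    have h1 := B_shift (hgy y0) hc hgs hz (T (φ c y0))
    rw [hT1 _ hfc hPc] at h1
    have h2 := B_unique (hgy y0) (hg0 y0) (hT0 _ hy0 hP0)
      (add_nonneg hc (hT0 _ hfc hPc)) (hT1 _ hy0 hP0) h1
    rw [h2, ← hO.add, add_comm]
  have key2 : ∀ y y0, f y = f y0 → f y0 ∈ K → (∀ t ≤ 0, g y0 t = 0) → (∀ t ≤ 0, g y t = 0) →
      φ (T y) y = φ (T y0) y0 := by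
    intro y y0 hyy hy0 hP0 hP
    obtain ⟨c, hc⟩ := (hO.fibre y0 y).1 hyy.symm
    rcases le_total 0 c with h | h
    · subst hc
      exact key y0 c hy0 hP0 hP h
    · have h1 : y0 = φ (-c) y := by
        rw [← hc, ← hO.add, neg_add_cancel, hO.zero]
      have h2 := key y (-c) (by rw [hyy]; exact hy0) hP (by rw [← h1]; exact hP0) (by linarith)
      rw [← h1] at h2
      exact h2.symm
  refine ⟨fun m => φ (T (b m)) (b m), ?_, fun m hm => by rw [hfφ, hbf m hm]⟩
  intro m hm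
  rw [ContinuousWithinAt, tendsto_iff_ultrafilter]
  intro U hU
  have hUK : ∀ᶠ m' in (U : Filter N), m' ∈ K := hU self_mem_nhdsWithin
  have hUm : (U : Filter N) ≤ 𝓝 m := hU.trans nhdsWithin_le_nhds
  obtain ⟨y, hyL, hy⟩ := hlamc.ultrafilter_le_nhds (U.map b) (by
    rw [le_principal_iff]
    exact hUK.mono fun m' hm' => hbL m' hm')
  have hby : Tendsto b U (𝓝 y) := hy
  have hfy : f y = m := by
    have h1 : Tendsto (fun m' => f (b m')) U (𝓝 (f y)) := (hO.fcont.tendsto y).comp hby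
    have h2 : Tendsto (fun m' => f (b m')) U (𝓝 m) :=
      Tendsto.congr' (hUK.mono fun m' hm' => (hbf m' hm').symm) hUm
    exact tendsto_nhds_unique h1 h2
  have hPy : ∀ t ≤ 0, g y t = 0 := by
    intro t ht
    have hct : Continuous (fun y => g y t) := hgc.comp (continuous_id.prodMk continuous_const)
    have h1 : Tendsto (fun m' => g (b m') t) U (𝓝 (g y t)) := (hct.tendsto y).comp hby
    have h2 : Tendsto (fun m' => g (b m') t) U (𝓝 0) :=
      Tendsto.congr' (hUK.mono fun m' hm' => (hbP m' hm' t ht).symm) tendsto_const_nhds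
    exact tendsto_nhds_unique h1 h2
  have hyK : f y ∈ K := by rw [hfy]; exact hm
  have hBt : ∀ s, Tendsto (fun m' => B (g (b m')) s) U (𝓝 (B (g y) s)) := fun s =>
    ((hBc s).tendsto y).comp hby
  have hTpos : 0 < T y := by
    rcases (hT0 y hyK hPy).eq_or_lt with h | h
    · have := hT1 y hyK hPy
      rw [← h, B_zero] at this
      norm_num at this
    · exact h
  have hTt : Tendsto (fun m' => T (b m')) U (𝓝 (T y)) := by
    rw [tendsto_order]
    constructor
    · intro a ha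
      have h1 : B (g y) (max a 0) < 1 :=
        B_lt (hgy y) (hg0 y) (le_max_right _ _) (hT1 y hyK hPy) (max_lt ha hTpos)
      filter_upwards [(hBt (max a 0)).eventually_lt_const h1, hUK] with m' h2 h3
      by_contra hc
      have hfb : f (b m') ∈ K := by rw [hbf m' h3]; exact h3
      have h4 := B_mono (hgy (b m')) (hg0 (b m')) (hT0 _ hfb (hbP m' h3))
        ((not_lt.1 hc).trans (le_max_left a 0))
      rw [hT1 _ hfb (hbP m' h3)] at h4
      linarith
    · intro a ha
      have h1 : 1 < B (g y) a :=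
        lt_B (hgy y) (hg0 y) hTpos.le (hT1 y hyK hPy).ge ha
      filter_upwards [(hBt a).eventually_const_lt h1, hUK] with m' h2 h3
      by_contra hc
      have hfb : f (b m') ∈ K := by rw [hbf m' h3]; exact h3
      have h4 := B_mono (hgy (b m')) (hg0 (b m')) (by linarith : (0:ℝ) ≤ a) (not_lt.1 hc)
      rw [hT1 _ hfb (hbP m' h3)] at h4
      linarith
  have hfin : φ (T (b m)) (b m) = φ (T y) y :=
    key2 (b m) y (by rw [hbf m hm, hfy]) hyK hPy (hbP m hm)
  rw [hfin]
  exact (hO.cont.tendsto (T y, y)).comp (hTt.prodMk_nhds hby)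

end Pool.Agent.H289R3.FS
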