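import Mathlib

/-!
# Oriented knot diagrams as signed Gauss codes; Wirtinger group, meridian, longitude
-/

namespace Pool.Agent.H418R3

/-- An oriented knot diagram, recorded by its signed Gauss code.  Travelling once around the knot
from a base point one runs through `N` crossing passages, numbered `0, …, N - 1`.  `partner i` is
the other passage through the same crossing, `isOver i` tells whether passage `i` is the over-passage,
`sign i` is the sign (writhe) of the crossing.  (No planarity is imposed: the diagrams of knots in
the 3-sphere are exactly the planar ones among these, and the others describe virtual knots.) -/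
structure GaussDiagram where
  /-- number of passages (twice the number of crossings) -/
  N : ℕ
  /-- the other passage through the same crossing -/
  partner : Fin N → Fin N
  partner_partner : ∀ i, partner (partner i) = i
  /-- over-passage or under-passage -/
  isOver : Fin N → Bool
  isOver_partner : ∀ i, isOver (partner i) = !(isOver i)
  /-- sign of the crossing -/
  sign : Fin N → ℤˣ
  sign_partner : ∀ i, sign (partner i) = sign i

namespace GaussDiagram

variable (D : GaussDiagram)

/-- The edges of the diagram: edge `i` (for `i < N`) runs into passage `i` and edge `i + 1` runs out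
of it; edge `N` is edge `0` again. The free generators of the Wirtinger presentation are the
edges. -/
abbrev Gen : Type := FreeGroup (Fin (D.N + 1))

/-- the free generator of an edge -/
def edge (i : Fin (D.N + 1)) : D.Gen := FreeGroup.of i

/-- the strand passing over at passage `i` (relevant when `i` is an under-passage) -/
def overStrand (i : Fin D.N) : D.Gen := D.edge (D.partner i).castSucc

/-- The Wirtinger relators: at an over-passage the label does not change; at an under-passage of
sign `s` below the strand `z` it changes from `x` to `z⁻ˢ x zˢ`; edge `N` is edge `0`. -/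
inductive Relator : D.Gen → Prop
  | atOver (i : Fin D.N) (h : D.isOver i = true) :
      Relator (D.edge i.succ * (D.edge i.castSucc)⁻¹)
  | atUnder (i : Fin D.N) (h : D.isOver i = false) :
      Relator (D.edge i.succ *
        (D.overStrand i ^ (-(D.sign i : ℤ)) * D.edge i.castSucc * D.overStrand i ^ (D.sign i : ℤ))⁻¹)
  | close : Relator (D.edge (Fin.last D.N) * (D.edge 0)⁻¹)

/-- The knot group, by the Wirtinger presentation. -/
abbrev KnotGroup : Type := PresentedGroup {r | D.Relator r}

/-- the class of a word in the Wirtinger generators -/
def cls : D.Gen →* D.KnotGroup := PresentedGroup.mk {r | D.Relator r}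

/-- the meridian of the edge `i` -/
def mer (i : Fin (D.N + 1)) : D.KnotGroup := D.cls (D.edge i)

/-- The meridian at the base point. -/
def meridian : D.KnotGroup := D.mer 0

/-- The contribution of passage `i` to the blackboard parallel: the over-strand to the power of the
sign at an under-passage, nothing at an over-passage. -/
def letter (i : Fin D.N) : D.KnotGroup :=
  if D.isOver i then 1 else D.cls (D.overStrand i) ^ (D.sign i : ℤ)

/-- The blackboard parallel of the knot, based at the edge `0`. -/
def parallel : D.KnotGroup := (List.ofFn D.letter).prod

/-- The writhe: the sum of the signs over the crossings (each counted at its under-passage). -/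
def writhe : ℤ := ∑ i : Fin D.N, if D.isOver i then 0 else (D.sign i : ℤ)

/-- The preferred longitude (null-homologous). -/
def longitude : D.KnotGroup := D.parallel * D.meridian ^ (-D.writhe)

theorem cls_rel {r : D.Gen} (h : D.Relator r) : D.cls r = 1 :=
  (PresentedGroup.mk_eq_one_iff).mpr (Subgroup.subset_normalClosure h)

theorem mer_succ (i : Fin D.N) :
    D.mer i.succ = (D.letter i)⁻¹ * D.mer i.castSucc * D.letter i := by
  unfold letter mer
  by_cases h : D.isOver i = true
  · have := D.cls_rel (Relator.atOver i h)
    rw [map_mul, map_inv, mul_inv_eq_one] at this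
    rw [if_pos h, this]; simp
  · have h' : D.isOver i = false := by simpa using h
    have := D.cls_rel (Relator.atUnder i h')
    rw [map_mul, map_inv, mul_inv_eq_one] at this
    rw [if_neg h, this, map_mul, map_mul, map_zpow, map_zpow, zpow_neg]

theorem mer_last : D.mer (Fin.last D.N) = D.mer 0 := by
  have := D.cls_rel Relator.close
  rw [map_mul, map_inv, mul_inv_eq_one] at this
  exact this

/-- partial parallel -/
def par (k : ℕ) : D.KnotGroup := ((List.ofFn D.letter).take k).prod

theorem mer_eq (k : ℕ) (hk : k < D.N + 1) :
    D.mer ⟨k, hk⟩ = (D.par k)⁻¹ * D.mer 0 * D.par k := by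
  induction k with
  | zero => simp [par]
  | succ k ih =>
    have hk' : k < D.N := by omega
    have h1 := D.mer_succ ⟨k, hk'⟩
    have h2 : D.par (k + 1) = D.par k * D.letter ⟨k, hk'⟩ := by
      unfold par
      rw [List.prod_take_succ (List.ofFn D.letter) k (by simpa using hk')]
      simp
    have h3 := ih (by omega)
    have h4 : (⟨k, hk'⟩ : Fin D.N).castSucc = ⟨k, by omega⟩ := rfl
    have h5 : (⟨k, hk'⟩ : Fin D.N).succ = ⟨k + 1, hk⟩ := rfl
    rw [h4, h5, h3] at h1
    rw [h1, h2]; group

theorem par_all : D.par D.N = D.parallel := by
  unfold par parallel
  rw [List.take_of_length_le (by simp)]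

theorem commute_parallel : Commute D.meridian D.parallel := by
  have h1 := D.mer_eq D.N (by omega)
  have h2 : (⟨D.N, by omega⟩ : Fin (D.N + 1)) = Fin.last D.N := rfl
  rw [h2, mer_last, par_all] at h1
  unfold Commute SemiconjBy meridian
  calc D.mer 0 * D.parallel = D.parallel * ((D.parallel)⁻¹ * D.mer 0 * D.parallel) := by group
    _ = D.parallel * D.mer 0 := by rw [← h1]

theorem commute_longitude : Commute D.meridian D.longitude := by
  unfold longitude
  exact D.commute_parallel.mul_right (Commute.zpow_right (Commute.refl _) _)

theorem normalClosure_meridian : Subgroup.normalClosure {D.meridian} = ⊤ := by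
  rw [eq_top_iff, ← PresentedGroup.closure_range_of {r | D.Relator r}, Subgroup.closure_le]
  rintro _ ⟨⟨k, hk⟩, rfl⟩
  have h1 := D.mer_eq k hk
  have h2 : PresentedGroup.of (rels := {r | D.Relator r}) (⟨k, hk⟩ : Fin (D.N + 1))
      = D.mer ⟨k, hk⟩ := rfl
  rw [h2, h1]
  have h3 : D.mer 0 ∈ Subgroup.normalClosure {D.meridian} :=
    Subgroup.subset_normalClosure rfl
  have := Subgroup.normalClosure_normal.conj_mem _ h3 (D.par k)⁻¹
  simpa using this

instance : Group.FG D.KnotGroup := by
  have hs : Function.Surjective (PresentedGroup.mk {r | D.Relator r}) :=
    PresentedGroup.mk_surjective _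
  exact Group.fg_of_surjective hs

end GaussDiagram

end Pool.Agent.H418R3
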