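import Mathlib
import Pool.Agent.H418R3.GurTree

/-! Separability of duals of well-founded tree spaces. -/

namespace Pool.Agent.H418R3.Gur

variable {I : Type}

/-- `v` is supported in `S`. -/
def Sup (v : I →₀ ℝ) (S : Set I) : Prop := ∀ t, v t ≠ 0 → t ∈ S

/-- `S` is closed upwards. -/
def UC (Ψ : Tower I) (S : Set I) : Prop := ∀ t, t ∉ S → ∀ s, Ψ.ψ t s ≠ 0 → s ∉ S

/-- The functionals on the vectors supported in `S` form a separable space. -/
def DD (Ψ : Tower I) (S : Set I) : Prop :=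
  ∃ (κ : Type) (_ : Countable κ) (F : κ → ((I →₀ ℝ) →ₗ[ℝ] ℝ)),
    ∀ f : (I →₀ ℝ) →ₗ[ℝ] ℝ, (∃ K, ∀ v, Sup v S → |f v| ≤ K * Ψ.sn v) →
      ∀ ε > 0, ∃ k, ∀ v, Sup v S → |f v - F k v| ≤ ε * Ψ.sn v

theorem coord_outside {Ψ : Tower I} {S : Set I} (hS : UC Ψ S) {v : I →₀ ℝ} (hv : Sup v S) :
    ∀ t, t ∉ S → Ψ.coord v t = 0 := by
  have key : ∀ n t, Ψ.rk t < n → t ∉ S → Ψ.coord v t = 0 := by
    intro n
    induction n with
    | zero => intro t ht; exact absurd ht (Nat.not_lt_zero _)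
    | succ n ih =>
      intro t ht htS
      rw [Tower.coord_eq]
      have h1 : v t = 0 := by
        by_contra h
        exact htS (hv t h)
      have h2 : ev (Ψ.ψ t) (Ψ.coord v) = ev (Ψ.ψ t) (fun _ => 0) := by
        apply ev_congr
        intro s hs
        have := Ψ.lt t s hs
        exact ih s (by omega) (hS t htS s hs)
      rw [h1, h2]
      simp [ev]
  intro t ht
  exact key _ t (Nat.lt_succ_self _) ht

theorem coord_sub (Ψ : Tower I) (v w : I →₀ ℝ) (t : I) :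
    Ψ.coord (v - w) t = Ψ.coord v t - Ψ.coord w t := by
  have h := Ψ.coord_add (v - w) w
  rw [sub_add_cancel] at h
  rw [h, Pi.add_apply]
  ring

/-- Dropping a part supported in a closed set that avoids `U` decreases the norm. -/
theorem sn_le_of_disj {Ψ : Tower I} {U W : Set I} (hd : Disjoint U W) (hW : UC Ψ W)
    {u w : I →₀ ℝ} (hu : Sup u U) (hw : Sup w W) : Ψ.sn u ≤ Ψ.sn (u + w) := by
  apply Ψ.sn_le (apply_nonneg _ _)
  intro t ht
  have h1 : t ∉ W := fun h => Set.disjoint_left.mp hd (hu t ht) h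
  have h2 : Ψ.coord (u + w) t = Ψ.coord u t := by
    rw [Tower.coord_add, Pi.add_apply, coord_outside hW hw t h1, add_zero]
  rw [← h2]
  exact Ψ.coord_le_sn _ _

theorem sn_add_le_max {Ψ : Tower I} {U W : Set I} (hd : Disjoint U W) (hU : UC Ψ U)
    (hW : UC Ψ W) {u w : I →₀ ℝ} (hu : Sup u U) (hw : Sup w W) :
    Ψ.sn (u + w) ≤ max (Ψ.sn u) (Ψ.sn w) := by
  apply Ψ.sn_le (le_max_of_le_left (apply_nonneg _ _))
  intro t _
  rw [Tower.coord_add, Pi.add_apply]
  by_cases h1 : t ∈ W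
  · have h2 : t ∉ U := fun h => Set.disjoint_left.mp hd h h1
    rw [coord_outside hU hu t h2, zero_add]
    exact le_max_of_le_right (Ψ.coord_le_sn _ _)
  · rw [coord_outside hW hw t h1, add_zero]
    exact le_max_of_le_left (Ψ.coord_le_sn _ _)

/-- Restriction of vectors. -/
noncomputable def cut (S : Set I) : (I →₀ ℝ) →ₗ[ℝ] (I →₀ ℝ) := by
  classical
  exact
  { toFun := fun v => v.filter (· ∈ S)
    map_add' := fun v w => Finsupp.filter_add
    map_smul' := fun a v => Finsupp.filter_smul }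

theorem cut_apply_mem {S : Set I} (v : I →₀ ℝ) {t : I} (h : t ∈ S) : cut S v t = v t := by
  classical
  exact Finsupp.filter_apply_pos _ v h

theorem cut_apply_notMem {S : Set I} (v : I →₀ ℝ) {t : I} (h : t ∉ S) : cut S v t = 0 := by
  classical
  exact Finsupp.filter_apply_neg _ v h

theorem cut_sup (S : Set I) (v : I →₀ ℝ) : Sup (cut S v) S := by
  intro t ht
  by_contra h
  exact ht (cut_apply_notMem v h)

theorem DD_empty (Ψ : Tower I) : DD Ψ ∅ := by
  refine ⟨Unit, inferInstance, fun _ => 0, fun f _ ε hε => ⟨(), fun v hv => ?_⟩⟩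
  have h0 : v = 0 := by
    ext t
    by_contra h
    exact hv t h
  rw [h0]; simp

theorem single_low (Ψ : Tower I) (s : I) (a : ℝ) :
    ∀ (n : ℕ) (t : I), Ψ.rk t < n → Ψ.rk t ≤ Ψ.rk s → t ≠ s →
      Ψ.coord (Finsupp.single s a) t = 0
  | 0, _, h, _, _ => absurd h (Nat.not_lt_zero _)
  | n + 1, t, h, h1, h2 => by
    rw [Tower.coord_eq, Finsupp.single_eq_of_ne h2, zero_add]
    have h3 : ev (Ψ.ψ t) (Ψ.coord (Finsupp.single s a)) = ev (Ψ.ψ t) (fun _ => 0) := by
      apply ev_congr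
      intro u hu
      have h4 := Ψ.lt t u hu
      refine single_low Ψ s a n u (by omega) (by omega) ?_
      rintro rfl
      omega
    rw [h3]
    simp [ev]

theorem single_self (Ψ : Tower I) (s : I) (a : ℝ) : Ψ.coord (Finsupp.single s a) s = a := by
  rw [Tower.coord_eq, Finsupp.single_eq_same]
  have h3 : ev (Ψ.ψ s) (Ψ.coord (Finsupp.single s a)) = ev (Ψ.ψ s) (fun _ => 0) := by
    apply ev_congr
    intro u hu
    have h4 := Ψ.lt s u hu
    refine single_low Ψ s a _ u (Nat.lt_succ_self _) (by omega) ?_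
    rintro rfl
    omega
  rw [h3]
  simp [ev]

theorem sn_single_le (Ψ : Tower I) (s : I) : Ψ.sn (Finsupp.single s 1) ≤ 1 := by
  apply Ψ.sn_le zero_le_one
  intro t ht
  have : t = s := by
    by_contra h
    exact ht (Finsupp.single_eq_of_ne h)
  rw [this, single_self, abs_one]

/-- Adding a minimal point. -/
theorem DD_insert {Ψ : Tower I} {S S' : Set I} {t0 : I} (hS : S = insert t0 S')
    (hUC : UC Ψ S) (hmin : ∀ s, Ψ.ψ t0 s ≠ 0 → s ∉ S) (hD : DD Ψ S') : DD Ψ S := by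
  obtain ⟨κ, hκ, F, hF⟩ := hD
  let G : κ × ℚ → ((I →₀ ℝ) →ₗ[ℝ] ℝ) := fun p =>
    { toFun := fun v => F p.1 (v - v t0 • Finsupp.single t0 1) + (p.2 : ℝ) * v t0
      map_add' := fun v w => by
        rw [← sub_eq_zero]
        simp only [Finsupp.add_apply, add_smul, map_add, map_sub]
        ring
      map_smul' := fun a v => by
        rw [← sub_eq_zero]
        simp only [Finsupp.smul_apply, smul_eq_mul, map_sub, map_smul, RingHom.id_apply, mul_smul]
        ring }
  have hG : ∀ p v, G p v = F p.1 (v - v t0 • Finsupp.single t0 1) + (p.2 : ℝ) * v t0 :=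
    fun _ _ => rfl
  refine ⟨κ × ℚ, inferInstance, G, ?_⟩
  rintro f ⟨K, hK⟩ ε hε
  obtain ⟨k, hk⟩ := hF f ⟨K, fun v hv => hK v fun t ht => by
    rw [hS]; exact Set.mem_insert_of_mem _ (hv t ht)⟩ (ε / 4) (by positivity)
  obtain ⟨r, hr1, hr2⟩ := exists_rat_btwn
    (show f (Finsupp.single t0 1) - ε / 2 < f (Finsupp.single t0 1) by linarith)
  refine ⟨(k, r), fun v hv => ?_⟩
  have hv0 : |v t0| ≤ Ψ.sn v := by
    have h1 : Ψ.coord v t0 = v t0 := by
      rw [Tower.coord_eq]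
      have h3 : ev (Ψ.ψ t0) (Ψ.coord v) = ev (Ψ.ψ t0) (fun _ => 0) := by
        apply ev_congr
        intro u hu
        exact coord_outside hUC hv u (hmin u hu)
      rw [h3]
      simp [ev]
    rw [← h1]
    exact Ψ.coord_le_sn _ _
  set v' : I →₀ ℝ := v - v t0 • Finsupp.single t0 1 with hv'
  have hv'sup : Sup v' S' := by
    intro t ht
    by_cases h : t = t0
    · exfalso
      apply ht
      rw [hv', h]
      simp
    · have h1 : v t ≠ 0 := by
        intro h2
        apply ht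
        rw [hv', Finsupp.sub_apply, h2, Finsupp.smul_apply, Finsupp.single_eq_of_ne h]
        simp
      have h2 := hv t h1
      rw [hS] at h2
      exact (Set.mem_insert_iff.mp h2).resolve_left h
  have hsn : Ψ.sn v' ≤ 2 * Ψ.sn v := by
    have h1 : Ψ.sn v' ≤ Ψ.sn v + Ψ.sn (v t0 • Finsupp.single t0 1) := map_sub_le_add _ _ _
    have h2 : Ψ.sn (v t0 • Finsupp.single t0 1) ≤ Ψ.sn v := by
      rw [map_smul_eq_mul, Real.norm_eq_abs]
      calc |v t0| * Ψ.sn (Finsupp.single t0 1) ≤ |v t0| * 1 :=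
            mul_le_mul_of_nonneg_left (sn_single_le Ψ t0) (abs_nonneg _)
        _ = |v t0| := mul_one _
        _ ≤ Ψ.sn v := hv0
    linarith
  have e1 : f v - G (k, r) v = (f v' - F k v') + v t0 * (f (Finsupp.single t0 1) - r) := by
    rw [hG]
    have h1 : f v' = f v - v t0 * f (Finsupp.single t0 1) := by
      rw [hv', map_sub, map_smul, smul_eq_mul]
    rw [h1]
    show _ - (F k v' + (r : ℝ) * v t0) = _
    ring
  rw [e1]
  have h1 := hk v' hv'sup
  have h2 : |v t0 * (f (Finsupp.single t0 1) - r)| ≤ Ψ.sn v * (ε / 2) := by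
    rw [abs_mul]
    refine mul_le_mul hv0 ?_ (abs_nonneg _) (apply_nonneg _ _)
    rw [abs_le]
    constructor <;> linarith
  have h3 : ε / 4 * Ψ.sn v' ≤ ε / 2 * Ψ.sn v := by nlinarith
  calc |(f v' - F k v') + v t0 * (f (Finsupp.single t0 1) - r)|
      ≤ |f v' - F k v'| + |v t0 * (f (Finsupp.single t0 1) - r)| := abs_add_le _ _
    _ ≤ ε / 2 * Ψ.sn v + Ψ.sn v * (ε / 2) := add_le_add (h1.trans h3) h2
    _ = ε * Ψ.sn v := by ring

theorem UC_iUnion {Ψ : Tower I} {ι : Sort*} {S : ι → Set I} (h : ∀ k, UC Ψ (S k)) :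
    UC Ψ (⋃ k, S k) := by
  intro t ht s hs hsS
  rw [Set.mem_iUnion] at hsS
  obtain ⟨k, hk⟩ := hsS
  exact h k t (fun h' => ht (Set.mem_iUnion.mpr ⟨k, h'⟩)) s hs hk

/-- `c₀`-sums. -/
theorem DD_iUnion {Ψ : Tower I} {S : ℕ → Set I} (hUC : ∀ k, UC Ψ (S k))
    (hdisj : ∀ k l, k ≠ l → Disjoint (S k) (S l)) (hD : ∀ k, DD Ψ (S k)) :
    DD Ψ (⋃ k, S k) := by
  classical
  choose κ hκ F hF using hD
  let G : (Σ N : ℕ, (∀ k : Fin N, κ k)) → ((I →₀ ℝ) →ₗ[ℝ] ℝ) := fun p =>
    ∑ k : Fin p.1, (F k (p.2 k)).comp (cut (S k))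
  refine ⟨(Σ N : ℕ, (∀ k : Fin N, κ k)), inferInstance, G, ?_⟩
  rintro f ⟨K, hK⟩ ε hε
  let W : ℕ → Set I := fun N => ⋃ k : {k : ℕ // N ≤ k}, S k
  let U : ℕ → Set I := fun N => ⋃ k : {k : ℕ // k < N}, S k
  have hW : ∀ N, UC Ψ (W N) := fun N => UC_iUnion fun k => hUC k
  have hU : ∀ N, UC Ψ (U N) := fun N => UC_iUnion fun k => hUC k
  have huniq : ∀ {k l : ℕ} {t : I}, t ∈ S k → t ∈ S l → k = l := by
    intro k l t h1 h2
    by_contra hne
    exact Set.disjoint_left.mp (hdisj k l hne) h1 h2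
  have hUW : ∀ N, Disjoint (U N) (W N) := by
    intro N
    rw [Set.disjoint_left]
    intro t h1 h2
    obtain ⟨⟨k, hk⟩, hk'⟩ := Set.mem_iUnion.mp h1
    obtain ⟨⟨l, hl⟩, hl'⟩ := Set.mem_iUnion.mp h2
    have h3 : k = l := huniq hk' hl'
    omega
  have hUS : ∀ N, U N ⊆ ⋃ k, S k := fun N t ht => by
    obtain ⟨⟨k, hk⟩, hk'⟩ := Set.mem_iUnion.mp ht
    exact Set.mem_iUnion.mpr ⟨k, hk'⟩
  have hWS : ∀ N, W N ⊆ ⋃ k, S k := fun N t ht => by
    obtain ⟨⟨k, hk⟩, hk'⟩ := Set.mem_iUnion.mp ht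
    exact Set.mem_iUnion.mpr ⟨k, hk'⟩
  -- almost norming vector
  let B : Set ℝ := {r | ∃ v, Sup v (⋃ k, S k) ∧ Ψ.sn v ≤ 1 ∧ f v = r}
  have hBne : B.Nonempty := ⟨0, 0, fun t ht => absurd rfl ht, by simp, by simp⟩
  have hK' : ∀ v, Sup v (⋃ k, S k) → Ψ.sn v ≤ 1 → f v ≤ |K| := by
    intro v hv hsn
    refine (le_abs_self _).trans ((hK v hv).trans ?_)
    calc K * Ψ.sn v ≤ |K| * Ψ.sn v :=
          mul_le_mul_of_nonneg_right (le_abs_self _) (apply_nonneg _ _)
      _ ≤ |K| * 1 := mul_le_mul_of_nonneg_left hsn (abs_nonneg _)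
      _ = |K| := mul_one _
  have hBbdd : BddAbove B := ⟨|K|, by rintro _ ⟨v, hv, hsn, rfl⟩; exact hK' v hv hsn⟩
  obtain ⟨_, ⟨v0, hv0, hsn0, rfl⟩, hlt⟩ := exists_lt_of_lt_csSup hBne
    (show sSup B - ε / 2 < sSup B by linarith)
  obtain ⟨N, hN⟩ : ∃ N, Sup v0 (U N) := by
    have h1 : ∀ t, v0 t ≠ 0 → ∃ k, t ∈ S k := fun t ht => Set.mem_iUnion.mp (hv0 t ht)
    choose! kk hkk using h1
    refine ⟨v0.support.sup kk + 1, fun t ht => ?_⟩
    have h2 := Finset.le_sup (f := kk) (Finsupp.mem_support_iff.mpr ht)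
    exact Set.mem_iUnion.mpr ⟨⟨kk t, by omega⟩, hkk t ht⟩
  have htail1 : ∀ w, Sup w (W N) → Ψ.sn w ≤ 1 → f w ≤ ε / 2 := by
    intro w hw hsn
    have h1 : Ψ.sn (v0 + w) ≤ 1 :=
      (sn_add_le_max (hUW N) (hU N) (hW N) hN hw).trans (max_le hsn0 hsn)
    have h2 : f (v0 + w) ≤ sSup B := by
      apply le_csSup hBbdd
      refine ⟨v0 + w, ?_, h1, rfl⟩
      intro t ht
      by_cases h3 : v0 t = 0
      · apply hWS N
        apply hw
        intro h4
        apply ht
        rw [Finsupp.add_apply, h3, h4, add_zero]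
      · exact hv0 t h3
    rw [map_add] at h2
    linarith
  have htail : ∀ w, Sup w (W N) → |f w| ≤ ε / 2 * Ψ.sn w := by
    intro w hw
    by_cases h0 : Ψ.sn w = 0
    · have := Ψ.sn_eq_zero h0
      rw [this]; simp
    · have hpos : 0 < Ψ.sn w := lt_of_le_of_ne (apply_nonneg _ _) (Ne.symm h0)
      have hscale : ∀ a : ℝ, |a| = (Ψ.sn w)⁻¹ → f (a • w) ≤ ε / 2 := by
        intro a ha
        apply htail1
        · intro t ht
          apply hw
          intro h1
          apply ht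
          rw [Finsupp.smul_apply, h1, smul_zero]
        · rw [map_smul_eq_mul, Real.norm_eq_abs, ha, inv_mul_cancel₀ h0]
      have h1 := hscale (Ψ.sn w)⁻¹ (abs_of_pos (inv_pos.mpr hpos))
      have h2 := hscale (-(Ψ.sn w)⁻¹) (by rw [abs_neg]; exact abs_of_pos (inv_pos.mpr hpos))
      rw [map_smul, smul_eq_mul, inv_mul_le_iff₀ hpos] at h1
      rw [neg_smul, map_neg, map_smul, smul_eq_mul] at h2
      have h3 : -(f w) ≤ ε / 2 * Ψ.sn w := by
        have : (Ψ.sn w)⁻¹ * (-(f w)) ≤ ε / 2 := by rw [mul_neg]; exact h2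
        rw [inv_mul_le_iff₀ hpos] at this
        linarith
      rw [abs_le]
      constructor <;> linarith
  -- finite part
  have hδ : 0 < ε / (2 * (N + 1)) := by positivity
  have hfk : ∀ k : ℕ, ∃ i : κ k, ∀ v, Sup v (S k) → |f v - F k i v| ≤ ε / (2 * (N + 1)) * Ψ.sn v :=
    fun k => hF k f ⟨K, fun v hv => hK v fun t ht => Set.mem_iUnion.mpr ⟨k, hv t ht⟩⟩ _ hδ
  choose idx hidx using hfk
  refine ⟨⟨N, fun k => idx k⟩, fun v hv => ?_⟩
  have hG : G ⟨N, fun k => idx k⟩ v = ∑ k : Fin N, F k (idx k) (cut (S k) v) := by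
    simp only [G, LinearMap.sum_apply, LinearMap.comp_apply]
  have hdec : v = (∑ k : Fin N, cut (S k) v) + cut (W N) v := by
    ext t
    rw [Finsupp.add_apply, Finsupp.finsetSum_apply]
    by_cases h0 : v t = 0
    · have h1 : ∀ S : Set I, cut S v t = 0 := by
        intro S
        by_cases h : t ∈ S
        · rw [cut_apply_mem v h, h0]
        · exact cut_apply_notMem v h
      simp [h0, h1]
    · obtain ⟨k, hk⟩ := Set.mem_iUnion.mp (hv t h0)
      by_cases hkN : k < N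
      · rw [Finset.sum_eq_single (⟨k, hkN⟩ : Fin N)]
        · rw [cut_apply_mem v hk, cut_apply_notMem v, add_zero]
          intro h
          exact Set.disjoint_left.mp (hUW N) (Set.mem_iUnion.mpr ⟨⟨k, hkN⟩, hk⟩) h
        · intro l _ hl
          apply cut_apply_notMem
          intro h
          apply hl
          exact Fin.ext (huniq h hk)
        · intro h; exact absurd (Finset.mem_univ _) h
      · rw [Finset.sum_eq_zero, zero_add, cut_apply_mem v]
        · exact Set.mem_iUnion.mpr ⟨⟨k, not_lt.mp hkN⟩, hk⟩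
        · intro l _
          apply cut_apply_notMem
          intro h
          have := huniq h hk
          have := l.isLt
          omega
  have hcutle : ∀ (A A' : Set I), Disjoint A A' → UC Ψ A' → (⋃ k, S k) ⊆ A ∪ A' →
      Ψ.sn (cut A v) ≤ Ψ.sn v := by
    intro A A' hAA hA' hcov
    have h1 : v = cut A v + cut A' v := by
      ext t
      rw [Finsupp.add_apply]
      by_cases h0 : v t = 0
      · have h1 : ∀ S : Set I, cut S v t = 0 := by
          intro S
          by_cases h : t ∈ S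
          · rw [cut_apply_mem v h, h0]
          · exact cut_apply_notMem v h
        rw [h0, h1, h1, add_zero]
      · rcases hcov (hv t h0) with h | h
        · rw [cut_apply_mem v h, cut_apply_notMem v (Set.disjoint_left.mp hAA h), add_zero]
        · rw [cut_apply_mem v h, cut_apply_notMem v (Set.disjoint_right.mp hAA h), zero_add]
    conv_rhs => rw [h1]
    exact sn_le_of_disj hAA hA' (cut_sup _ _) (cut_sup _ _)
  have hcutW : Ψ.sn (cut (W N) v) ≤ Ψ.sn v := by
    apply hcutle (W N) (U N) (hUW N).symm (hU N)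
    intro t ht
    obtain ⟨k, hk⟩ := Set.mem_iUnion.mp ht
    rcases Nat.lt_or_ge k N with h | h
    · exact Or.inr (Set.mem_iUnion.mpr ⟨⟨k, h⟩, hk⟩)
    · exact Or.inl (Set.mem_iUnion.mpr ⟨⟨k, h⟩, hk⟩)
  have hcutS : ∀ k, Ψ.sn (cut (S k) v) ≤ Ψ.sn v := by
    intro k
    apply hcutle (S k) (⋃ l : {l : ℕ // l ≠ k}, S l)
    · rw [Set.disjoint_left]
      intro t h1 h2
      obtain ⟨⟨l, hl⟩, hl'⟩ := Set.mem_iUnion.mp h2
      exact hl (huniq hl' h1)
    · exact UC_iUnion fun l => hUC l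
    · intro t ht
      obtain ⟨l, hl⟩ := Set.mem_iUnion.mp ht
      by_cases h : l = k
      · subst h; exact Or.inl hl
      · exact Or.inr (Set.mem_iUnion.mpr ⟨⟨l, h⟩, hl⟩)
  have e1 : f v - G ⟨N, fun k => idx k⟩ v
      = (∑ k : Fin N, (f (cut (S k) v) - F k (idx k) (cut (S k) v))) + f (cut (W N) v) := by
    rw [hG]
    have : f v = (∑ k : Fin N, f (cut (S k) v)) + f (cut (W N) v) := by
      conv_lhs => rw [hdec]
      rw [map_add, map_sum]
    rw [this, Finset.sum_sub_distrib]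
    ring
  rw [e1]
  have h1 : |∑ k : Fin N, (f (cut (S k) v) - F k (idx k) (cut (S k) v))| ≤ ε / 2 * Ψ.sn v := by
    refine (Finset.abs_sum_le_sum_abs _ _).trans ?_
    have h2 : ∀ k ∈ (Finset.univ : Finset (Fin N)),
        |f (cut (S k) v) - F k (idx k) (cut (S k) v)| ≤ ε / (2 * (N + 1)) * Ψ.sn v := by
      intro k _
      exact (hidx k _ (cut_sup _ _)).trans (mul_le_mul_of_nonneg_left (hcutS k) hδ.le)
    refine (Finset.sum_le_sum h2).trans ?_
    rw [Finset.sum_const, Finset.card_univ, Fintype.card_fin, nsmul_eq_mul]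
    have h5 : (N : ℝ) * (ε / (2 * (N + 1)) * Ψ.sn v) = (N / (N + 1)) * (ε / 2 * Ψ.sn v) := by
      field_simp
    rw [h5]
    have h6 : (N : ℝ) / (N + 1) ≤ 1 := by
      rw [div_le_one (by positivity)]; linarith
    exact mul_le_of_le_one_left (mul_nonneg (by linarith) (apply_nonneg _ _)) h6
  have h2 : |f (cut (W N) v)| ≤ ε / 2 * Ψ.sn v :=
    (htail _ (cut_sup _ _)).trans (mul_le_mul_of_nonneg_left hcutW (by linarith))
  calc _ ≤ |∑ k : Fin N, (f (cut (S k) v) - F k (idx k) (cut (S k) v))| + |f (cut (W N) v)| :=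
        abs_add_le _ _
    _ ≤ ε / 2 * Ψ.sn v + ε / 2 * Ψ.sn v := add_le_add h1 h2
    _ = ε * Ψ.sn v := by ring

end Pool.Agent.H418R3.Gur
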