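import Mathlib
import Pool.Agent.H418R3.GurUniv

/-! The universal space has the Gurarii property. -/

namespace Pool.Agent.H418R3.Gur

/-! ### Vectors with prescribed coordinates -/

/-- The universal tower with the functionals at `N` replaced by zero. -/
noncomputable def modT (N : Finset ℕ) : Tower ℕ where
  ψ n := if n ∈ N then 0 else phi n
  rk := id
  lt t s h := by
    by_cases ht : t ∈ N
    · rw [if_pos ht] at h; exact absurd rfl h
    · rw [if_neg ht] at h; exact uni.lt t s h
  le t := by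
    by_cases ht : t ∈ N
    · rw [if_pos ht]; simp
    · rw [if_neg ht]; exact uni.le t

/-- The vector supported in `N` with prescribed coordinates there. -/
noncomputable def Lf (N : Finset ℕ) : (ℕ →₀ ℝ) →ₗ[ℝ] (ℕ →₀ ℝ) where
  toFun w := ∑ n ∈ N, Finsupp.single n ((modT N).coord w n - ev (phi n) ((modT N).coord w))
  map_add' v w := by
    rw [← Finset.sum_add_distrib]
    refine Finset.sum_congr rfl fun n _ => ?_
    rw [← Finsupp.single_add, Tower.coord_add, ev_add, Pi.add_apply]
    congr 1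
    ring
  map_smul' a w := by
    rw [Finset.smul_sum]
    refine Finset.sum_congr rfl fun n _ => ?_
    rw [Finsupp.smul_single, Tower.coord_smul, ev_smul, Pi.smul_apply]
    congr 1
    simp only [smul_eq_mul, RingHom.id_apply]
    ring

theorem Lf_apply (N : Finset ℕ) (w : ℕ →₀ ℝ) (n : ℕ) : Lf N w n
    = if n ∈ N then (modT N).coord w n - ev (phi n) ((modT N).coord w) else 0 := by
  show (∑ k ∈ N, Finsupp.single k ((modT N).coord w k - ev (phi k) ((modT N).coord w))) n = _
  rw [Finsupp.finsetSum_apply]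
  by_cases h : n ∈ N
  · rw [if_pos h, Finset.sum_eq_single_of_mem n h]
    · rw [Finsupp.single_eq_same]
    · intro k _ hk
      rw [Finsupp.single_eq_of_ne (Ne.symm hk)]
  · rw [if_neg h, Finset.sum_eq_zero]
    intro k hk
    rw [Finsupp.single_eq_of_ne]
    rintro rfl
    exact h hk

theorem coord_Lf {N : Finset ℕ} {w : ℕ →₀ ℝ} (hw : ∀ n, w n ≠ 0 → n ∈ N) :
    uni.coord (Lf N w) = (modT N).coord w := by
  symm
  apply Tower.coord_unique
  intro n
  rw [Lf_apply]
  by_cases h : n ∈ N
  · rw [if_pos h]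
    show _ = _ + ev (phi n) _
    ring
  · rw [if_neg h, Tower.coord_eq]
    have h0 : w n = 0 := by
      by_contra hne
      exact h (hw n hne)
    have h1 : (modT N).ψ n = phi n := by
      show (if n ∈ N then 0 else phi n) = _
      rw [if_neg h]
    rw [h0, h1]
    rfl

theorem coord_Lf_mem {N : Finset ℕ} {w : ℕ →₀ ℝ} (hw : ∀ n, w n ≠ 0 → n ∈ N) {n : ℕ}
    (hn : n ∈ N) : uni.coord (Lf N w) n = w n := by
  rw [coord_Lf hw, Tower.coord_eq]
  have h1 : (modT N).ψ n = 0 := by
    show (if n ∈ N then 0 else phi n) = _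
    rw [if_pos hn]
  rw [h1, ev_zero, add_zero]

theorem sn_Lf_le {N : Finset ℕ} {w : ℕ →₀ ℝ} (hw : ∀ n, w n ≠ 0 → n ∈ N) {M : ℝ} (hM : 0 ≤ M)
    (h : ∀ n ∈ N, |w n| ≤ M) : uni.sn (Lf N w) ≤ M := by
  apply uni.sn_le hM
  intro t ht
  have htN : t ∈ N := by
    by_contra hne
    rw [Lf_apply, if_neg hne] at ht
    exact ht rfl
  rw [coord_Lf_mem hw htN]
  exact h t htN

/-- A vector `∑ n ∈ N, a n • e_n`. -/
noncomputable def vec (N : Finset ℕ) (a : ℕ → ℝ) : ℕ →₀ ℝ := ∑ n ∈ N, Finsupp.single n (a n)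

theorem vec_apply (N : Finset ℕ) (a : ℕ → ℝ) (n : ℕ) : vec N a n = if n ∈ N then a n else 0 := by
  unfold vec
  rw [Finsupp.finsetSum_apply]
  by_cases h : n ∈ N
  · rw [if_pos h, Finset.sum_eq_single_of_mem n h]
    · rw [Finsupp.single_eq_same]
    · intro k _ hk
      rw [Finsupp.single_eq_of_ne (Ne.symm hk)]
  · rw [if_neg h, Finset.sum_eq_zero]
    intro k hk
    rw [Finsupp.single_eq_of_ne]
    rintro rfl
    exact h hk

theorem vec_supp (N : Finset ℕ) (a : ℕ → ℝ) (n : ℕ) (h : vec N a n ≠ 0) : n ∈ N := by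
  by_contra hne
  rw [vec_apply, if_neg hne] at h
  exact h rfl

/-! ### Coordinate functionals -/

noncomputable def coordL (n : ℕ) : (ℕ →₀ ℝ) →ₗ[ℝ] ℝ where
  toFun v := uni.coord v n
  map_add' v w := by rw [Tower.coord_add]; rfl
  map_smul' a v := by rw [Tower.coord_smul]; rfl

noncomputable def cf (n : ℕ) : Sp uni.sn →L[ℝ] ℝ := lift uni.sn (coordL n)

theorem cf_bound (n : ℕ) (v : ℕ →₀ ℝ) : ‖coordL n v‖ ≤ 1 * uni.sn v := by
  rw [one_mul]; exact uni.coord_le_sn v n

theorem cf_ic (n : ℕ) (v : ℕ →₀ ℝ) : cf n (ic uni.sn v) = uni.coord v n :=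
  lift_ic (cf_bound n) v

theorem cf_le (n : ℕ) (x : Sp uni.sn) : |cf n x| ≤ ‖x‖ := by
  have := norm_lift_le (cf_bound n) x
  rwa [one_mul] at this

/-! ### Rational approximation -/

theorem exists_rat_toward (x : ℝ) {δ : ℝ} (hδ : 0 < δ) :
    ∃ q : ℚ, |(q : ℝ)| ≤ |x| ∧ |x - q| ≤ δ := by
  rcases lt_trichotomy x 0 with h | h | h
  · obtain ⟨q, hq1, hq2⟩ := exists_rat_btwn (show x < min 0 (x + δ) from lt_min h (by linarith))
    have h1 := lt_min_iff.mp hq2
    refine ⟨q, ?_, ?_⟩
    · rw [abs_of_neg h1.1, abs_of_neg h]; linarith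
    · rw [abs_le]; constructor <;> linarith
  · exact ⟨0, by simp, by rw [h]; simp [hδ.le]⟩
  · obtain ⟨q, hq1, hq2⟩ := exists_rat_btwn (show max 0 (x - δ) < x from max_lt h (by linarith))
    have h1 := max_lt_iff.mp hq1
    refine ⟨q, ?_, ?_⟩
    · rw [abs_of_pos h1.1, abs_of_pos h]; exact hq2.le
    · rw [abs_le]; constructor <;> linarith

/-- Functionals of norm at most one are approximated, on vectors supported below `m`, by the
functionals of the universal tower. -/
theorem approx_functional (H : Sp uni.sn →L[ℝ] ℝ) (hH : ∀ x, |H x| ≤ ‖x‖) (m : ℕ) {δ : ℝ}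
    (hδ : 0 < δ) : ∃ f : ℕ →₀ ℚ, (∀ s, f s ≠ 0 → s < m) ∧ (f.sum fun _ q => |q|) ≤ 1 ∧
      ∀ v : ℕ →₀ ℝ, (∀ n, v n ≠ 0 → n < m) →
        |H (ic uni.sn v) - ev f (uni.coord v)| ≤ δ * uni.sn v := by
  classical
  -- the dual basis
  set R := Finset.range m with hR
  let η : ℕ → ℝ := fun i => H (ic uni.sn (Lf R (Finsupp.single i 1)))
  have hlin : ∀ a : ℕ → ℝ, H (ic uni.sn (Lf R (vec R a))) = ∑ i ∈ R, a i * η i := by
    intro a
    have : vec R a = ∑ i ∈ R, a i • (Finsupp.single i 1 : ℕ →₀ ℝ) := by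
      unfold vec
      exact Finset.sum_congr rfl fun i _ => by rw [Finsupp.smul_single, smul_eq_mul, mul_one]
    rw [this]
    simp only [map_sum, map_smul, smul_eq_mul, η]
  have hη : ∑ i ∈ R, |η i| ≤ 1 := by
    let s : ℕ → ℝ := fun i => if 0 ≤ η i then 1 else -1
    have h1 : ∀ i, s i * η i = |η i| := by
      intro i
      simp only [s]
      split_ifs with h
      · rw [one_mul, abs_of_nonneg h]
      · rw [abs_of_neg (not_le.mp h)]; ring
    have h2 : ∑ i ∈ R, |η i| = H (ic uni.sn (Lf R (vec R s))) := by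
      rw [hlin]
      exact Finset.sum_congr rfl fun i _ => (h1 i).symm
    rw [h2]
    refine (le_abs_self _).trans ((hH _).trans ?_)
    rw [norm_ic]
    refine sn_Lf_le (vec_supp R s) zero_le_one fun n hn => ?_
    rw [vec_apply, if_pos hn]
    simp only [s]
    split_ifs <;> simp
  have hδ' : 0 < δ / (m + 1) := div_pos hδ (by positivity)
  choose q hq1 hq2 using fun i => exists_rat_toward (η i) hδ'
  let f : ℕ →₀ ℚ := Finsupp.onFinset R (fun i => if i ∈ R then q i else 0) (by
    intro i hi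
    by_contra hne
    simp only [if_neg hne] at hi
    exact hi rfl)
  have hf : ∀ i, f i = if i ∈ R then q i else 0 := fun i => rfl
  have hfs : ∀ s, f s ≠ 0 → s ∈ R := by
    intro s hs
    by_contra hne
    rw [hf, if_neg hne] at hs
    exact hs rfl
  have hsub : f.support ⊆ R := fun s hs => hfs s (Finsupp.mem_support_iff.mp hs)
  refine ⟨f, fun s hs => Finset.mem_range.mp (hfs s hs), ?_, ?_⟩
  · have h1 : (f.sum fun _ q => |q|) = ∑ i ∈ R, |f i| := by
      unfold Finsupp.sum
      apply Finset.sum_subset hsub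
      intro i _ hi
      rw [Finsupp.notMem_support_iff.mp hi]; simp
    rw [h1]
    have h2 : ((∑ i ∈ R, |f i| : ℚ) : ℝ) ≤ 1 := by
      push_cast
      refine le_trans (Finset.sum_le_sum fun i hi => ?_) hη
      rw [hf, if_pos hi]
      exact hq1 i
    exact_mod_cast h2
  · intro v hv
    have hvR : ∀ n, v n ≠ 0 → n ∈ R := fun n hn => Finset.mem_range.mpr (hv n hn)
    -- v equals the lift of its coordinates
    have h1 : v = Lf R (vec R (uni.coord v)) := by
      rw [← sub_eq_zero]
      apply uni.sn_eq_zero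
      apply le_antisymm _ (apply_nonneg _ _)
      apply uni.sn_le le_rfl
      intro t ht
      have htR : t ∈ R := by
        by_contra hne
        apply ht
        rw [Finsupp.sub_apply, Lf_apply, if_neg hne]
        have : v t = 0 := by
          by_contra h
          exact hne (hvR t h)
        rw [this, sub_zero]
      have h3 : uni.coord (v - Lf R (vec R (uni.coord v))) t
          = uni.coord v t - uni.coord (Lf R (vec R (uni.coord v))) t := by
        have := (coordL t).map_sub v (Lf R (vec R (uni.coord v)))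
        exact this
      rw [h3, coord_Lf_mem (vec_supp R _) htR, vec_apply, if_pos htR, sub_self, abs_zero]
    have h2 : H (ic uni.sn v) = ∑ i ∈ R, uni.coord v i * η i := by
      conv_lhs => rw [h1]
      exact hlin _
    have h3 : ev f (uni.coord v) = ∑ i ∈ R, uni.coord v i * (f i : ℝ) := by
      unfold ev Finsupp.sum
      rw [Finset.sum_subset hsub]
      · exact Finset.sum_congr rfl fun i _ => mul_comm _ _
      · intro i _ hi
        rw [Finsupp.notMem_support_iff.mp hi]; simp
    rw [h2, h3, ← Finset.sum_sub_distrib]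
    refine (Finset.abs_sum_le_sum_abs _ _).trans ?_
    have h4 : ∀ i ∈ R, |uni.coord v i * η i - uni.coord v i * (f i : ℝ)|
        ≤ uni.sn v * (δ / (m + 1)) := by
      intro i hi
      rw [← mul_sub, abs_mul]
      refine mul_le_mul (uni.coord_le_sn v i) ?_ (abs_nonneg _) (apply_nonneg _ _)
      rw [hf, if_pos hi]
      exact hq2 i
    refine (Finset.sum_le_sum h4).trans ?_
    rw [Finset.sum_const, hR, Finset.card_range, nsmul_eq_mul]
    have h5 : (m : ℝ) * (uni.sn v * (δ / (m + 1))) = (m / (m + 1)) * (δ * uni.sn v) := by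
      field_simp
    rw [h5]
    have h6 : (m : ℝ) / (m + 1) ≤ 1 := by
      rw [div_le_one (by positivity)]; linarith
    exact mul_le_of_le_one_left (mul_nonneg hδ.le (apply_nonneg _ _)) h6

end Pool.Agent.H418R3.Gur
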