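import Mathlib
import Pool.Agent.H418R3.GurProp

/-! The universal space has the Gurarii property: the theorem. -/

namespace Pool.Agent.H418R3.Gur

theorem exists_net (E : Type) [NormedAddCommGroup E] [NormedSpace ℝ E] [FiniteDimensional ℝ E]
    {δ : ℝ} (hδ : 0 < δ) : ∃ t : Finset E, (∀ x ∈ t, ‖x‖ ≤ 1) ∧
      ∀ x, ‖x‖ ≤ 1 → ∃ y ∈ t, ‖x - y‖ ≤ δ := by
  have := FiniteDimensional.proper ℝ E
  obtain ⟨t, htsub, htfin, hcov⟩ := (isCompact_closedBall (0 : E) 1).finite_cover_balls hδ
  refine ⟨htfin.toFinset, ?_, ?_⟩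
  · intro x hx
    have := htsub (htfin.mem_toFinset.mp hx)
    simpa using this
  · intro x hx
    have h1 : x ∈ Metric.closedBall (0 : E) 1 := by simpa using hx
    have h2 := hcov h1
    simp only [Set.mem_iUnion] at h2
    obtain ⟨y, hy, hxy⟩ := h2
    refine ⟨y, htfin.mem_toFinset.mpr hy, ?_⟩
    rw [Metric.mem_ball, dist_eq_norm] at hxy
    exact hxy.le

theorem exists_norming (E : Type) [NormedAddCommGroup E] [NormedSpace ℝ E]
    [FiniteDimensional ℝ E] {δ : ℝ} (hδ : 0 < δ) :
    ∃ (K : ℕ) (h : Fin K → (E →L[ℝ] ℝ)), (∀ j b, |h j b| ≤ ‖b‖) ∧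
      ∀ b, b ≠ 0 → ∃ j, (1 - δ) * ‖b‖ ≤ |h j b| := by
  obtain ⟨t, ht1, ht⟩ := exists_net E (half_pos hδ)
  choose d hd1 hd2 using fun x : E => exists_dual_vector'' ℝ x
  have hd : ∀ x b, |d x b| ≤ ‖b‖ := by
    intro x b
    have := (d x).le_of_opNorm_le (hd1 x) b
    rwa [one_mul] at this
  refine ⟨t.card, fun j => d (t.equivFin.symm j), fun j b => hd _ b, ?_⟩
  intro b hb
  have hnb : 0 < ‖b‖ := norm_pos_iff.mpr hb
  obtain ⟨y, hy, hby⟩ := ht (‖b‖⁻¹ • b) (by
    rw [norm_smul, norm_inv, norm_norm, inv_mul_cancel₀ hnb.ne'])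
  refine ⟨t.equivFin ⟨y, hy⟩, ?_⟩
  simp only [Equiv.symm_apply_apply]
  have h1 : ‖(‖b‖⁻¹ • b)‖ = 1 := by rw [norm_smul, norm_inv, norm_norm, inv_mul_cancel₀ hnb.ne']
  have h2 : 1 - δ / 2 ≤ ‖y‖ := by
    have := norm_sub_norm_le (‖b‖⁻¹ • b) y
    rw [h1] at this
    linarith
  have h3 : |d y (‖b‖⁻¹ • b) - d y y| ≤ δ / 2 := by
    rw [← map_sub]
    exact (hd y _).trans hby
  have h4 : d y y = ‖y‖ := by simpa using hd2 y
  have h5 : 1 - δ ≤ d y (‖b‖⁻¹ • b) := by
    have := (abs_le.mp h3).1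
    rw [h4] at this
    linarith
  have h6 : d y b = ‖b‖ * d y (‖b‖⁻¹ • b) := by
    rw [map_smul, smul_eq_mul, ← mul_assoc, mul_inv_cancel₀ hnb.ne', one_mul]
  calc (1 - δ) * ‖b‖ ≤ d y (‖b‖⁻¹ • b) * ‖b‖ := mul_le_mul_of_nonneg_right h5 hnb.le
    _ = d y b := by rw [h6]; ring
    _ ≤ |d y b| := le_abs_self _

/-- Extension of functionals along an isometric embedding. -/
theorem extend_along {A B : Type} [NormedAddCommGroup A] [NormedSpace ℝ A]
    [NormedAddCommGroup B] [NormedSpace ℝ B] (g : A →ₗᵢ[ℝ] B) (f : A →L[ℝ] ℝ)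
    (hf : ∀ a, |f a| ≤ ‖a‖) : ∃ F : B →L[ℝ] ℝ, (∀ b, |F b| ≤ ‖b‖) ∧ ∀ a, F (g a) = f a := by
  let e := g.equivRange
  let f' : (LinearMap.range g.toLinearMap) →L[ℝ] ℝ :=
    f.comp (e.symm.toContinuousLinearEquiv : _ →L[ℝ] A)
  obtain ⟨F, hF1, hF2⟩ := exists_extension_norm_eq (LinearMap.range g.toLinearMap) f'
  refine ⟨F, ?_, ?_⟩
  · intro b
    have h1 : ‖f'‖ ≤ 1 := by
      apply ContinuousLinearMap.opNorm_le_bound _ zero_le_one
      intro x
      rw [one_mul]
      refine (hf _).trans ?_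
      exact (e.symm.norm_map x).le
    rw [← hF2] at h1
    have := F.le_of_opNorm_le h1 b
    rwa [one_mul] at this
  · intro a
    have h1 := hF1 (e a)
    have h2 : ((e a : LinearMap.range g.toLinearMap) : B) = g a := rfl
    rw [h2] at h1
    rw [h1]
    show f (e.symm (e a)) = f a
    rw [e.symm_apply_apply]

theorem uni_gurarii : IsGurarii (Sp uni.sn) := by
  classical
  intro ε hε A B _ _ _ g
  have : FiniteDimensional ℝ A := FiniteDimensional.of_injective g.toLinearMap g.injective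
  set δ : ℝ := min ε 1 / 10 with hδdef
  have hmin : 0 < min ε 1 := lt_min hε one_pos
  have hδ : 0 < δ := by rw [hδdef]; linarith
  have hδε : 6 * δ ≤ ε := by
    have := min_le_left ε 1
    rw [hδdef]; linarith
  have hδ1 : δ ≤ 1 / 10 := by
    have := min_le_right ε 1
    rw [hδdef]; linarith
  have hδ2 : 1 / (1 + ε) ≤ 1 - δ := by
    rw [div_le_iff₀ (by linarith)]
    rcases le_total ε 1 with h | h
    · rw [min_eq_left h] at hδdef
      rw [hδdef]
      nlinarith
    · rw [min_eq_right h] at hδdef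
      rw [hδdef]
      nlinarith
  -- the net and its approximations
  obtain ⟨t, ht1, ht⟩ := exists_net A hδ
  have happ : ∀ a : A, ∃ v : ℕ →₀ ℝ, ‖ic uni.sn v - (a : Sp uni.sn)‖ ≤ δ := by
    intro a
    obtain ⟨v, hv⟩ := (dense_ic uni.sn).exists_dist_lt (a : Sp uni.sn) hδ
    refine ⟨v, ?_⟩
    rw [dist_eq_norm, norm_sub_rev] at hv
    exact hv.le
  choose v hv using happ
  obtain ⟨m, hm⟩ : ∃ m : ℕ, ∀ a ∈ t, ∀ n, v a n ≠ 0 → n < m := by
    refine ⟨(t.biUnion fun a => (v a).support).sup id + 1, ?_⟩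
    intro a ha n hn
    have : n ∈ t.biUnion fun a => (v a).support :=
      Finset.mem_biUnion.mpr ⟨a, ha, Finsupp.mem_support_iff.mpr hn⟩
    have h2 := Finset.le_sup (f := id) this
    simp only [id] at h2
    omega
  -- the norming functionals of B
  obtain ⟨K, hh, hh1, hh2⟩ := exists_norming B hδ
  -- extension of the coordinate functionals to B
  have hc : ∀ i : ℕ, ∃ F : B →L[ℝ] ℝ, (∀ b, |F b| ≤ ‖b‖) ∧ ∀ a : A, F (g a) = cf i a := by
    intro i
    exact extend_along g ((cf i).comp A.subtypeL) (fun a => cf_le i a)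
  choose c hc1 hc2 using hc
  -- extension of the norming functionals to G
  have hH : ∀ j : Fin K, ∃ F : Sp uni.sn →L[ℝ] ℝ, (∀ x, |F x| ≤ ‖x‖) ∧
      ∀ a : A, F a = hh j (g a) := by
    intro j
    exact extend_along A.subtypeₗᵢ ((hh j).comp g.toContinuousLinearMap) (fun a => by
      have := hh1 j (g a)
      rwa [g.norm_map] at this)
  choose H hH1 hH2 using hH
  -- approximation of these by the functionals of the tower
  choose ψ hψ1 hψ2 hψ3 using fun j => approx_functional (H j) (hH1 j) m hδ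
  let n : Fin K → ℕ := fun j => Nat.pair (code (ψ j)) (m + j)
  have hn1 : ∀ j, m ≤ n j := fun j =>
    (Nat.le_add_right m j).trans (Nat.right_le_pair _ _)
  have hn2 : Function.Injective n := by
    intro i j hij
    have := (Nat.pair_eq_pair.mp hij).2
    exact Fin.ext (by omega)
  have hn3 : ∀ j, phi (n j) = ψ j := fun j =>
    uni_pair (hψ2 j) (fun s hs => lt_of_lt_of_le (hψ1 j s hs) (Nat.le_add_right m j))
  let N : Finset ℕ := Finset.range m ∪ Finset.univ.image n
  let F : ℕ → (B →L[ℝ] ℝ) := fun k =>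
    if k < m then c k else if h : ∃ j, n j = k then hh (Classical.choose h) else 0
  have hF1 : ∀ k, k < m → F k = c k := fun k hk => by simp only [F]; rw [if_pos hk]
  have hF2 : ∀ j, F (n j) = hh j := by
    intro j
    have h1 : ∃ j', n j' = n j := ⟨j, rfl⟩
    have h2 : Classical.choose h1 = j := hn2 (Classical.choose_spec h1)
    simp only [F]
    rw [if_neg (not_lt.mpr (hn1 j)), dif_pos h1, h2]
  have hF3 : ∀ k b, |F k b| ≤ ‖b‖ := by
    intro k b
    simp only [F]
    split_ifs with h1 h2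
    · exact hc1 k b
    · exact hh1 _ b
    · simp
  -- the map
  let wl : B →ₗ[ℝ] (ℕ →₀ ℝ) := ∑ k ∈ N, (Finsupp.lsingle k).comp (F k).toLinearMap
  have hwl : ∀ b, wl b = vec N (fun k => F k b) := by
    intro b
    simp only [wl, LinearMap.sum_apply]
    rfl
  have hbound : ∀ b, ‖ic uni.sn (Lf N (wl b))‖ ≤ 1 * ‖b‖ := by
    intro b
    rw [norm_ic, hwl, one_mul]
    refine sn_Lf_le (vec_supp N _) (norm_nonneg b) fun k hk => ?_
    rw [vec_apply, if_pos hk]
    exact hF3 k b
  let f : B →L[ℝ] Sp uni.sn := LinearMap.mkContinuous (((ic uni.sn).comp (Lf N)).comp wl) 1 hbound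
  have hf : ∀ b, f b = ic uni.sn (Lf N (wl b)) := fun b => rfl
  have hfle : ∀ b, ‖f b‖ ≤ ‖b‖ := fun b => by
    have := hbound b
    rwa [one_mul] at this
  have hcoord : ∀ b, ∀ k ∈ N, uni.coord (Lf N (wl b)) k = F k b := by
    intro b k hk
    rw [hwl, coord_Lf_mem (vec_supp N _) hk, vec_apply, if_pos hk]
  -- the difference on the net
  have hnet : ∀ a ∈ t, ‖f (g a) - ic uni.sn (v a)‖ ≤ 3 * δ := by
    intro a ha
    rw [hf, ← map_sub, norm_ic]
    have hsn : uni.sn (v a) ≤ 2 := by
      rw [← norm_ic]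
      have h1 : ‖ic uni.sn (v a)‖ ≤ ‖ic uni.sn (v a) - (a : Sp uni.sn)‖ + ‖(a : Sp uni.sn)‖ := by
        have := norm_add_le (ic uni.sn (v a) - (a : Sp uni.sn)) (a : Sp uni.sn)
        rwa [sub_add_cancel] at this
      have h2 : ‖(a : Sp uni.sn)‖ ≤ 1 := ht1 a ha
      have h3 := hv a
      linarith
    apply uni.sn_le (by linarith)
    intro k hk
    have hkN : k ∈ N := by
      by_contra hne
      apply hk
      rw [Finsupp.sub_apply, Lf_apply, if_neg hne]
      have hkm : ¬ k < m := fun h => hne (Finset.mem_union_left _ (Finset.mem_range.mpr h))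
      have : v a k = 0 := by
        by_contra h
        exact hkm (hm a ha k h)
      rw [this, sub_zero]
    have hsub : uni.coord (Lf N (wl (g a)) - v a) k
        = uni.coord (Lf N (wl (g a))) k - uni.coord (v a) k :=
      (coordL k).map_sub (Lf N (wl (g a))) (v a)
    rw [hsub, hcoord _ k hkN]
    by_cases hkm : k < m
    · rw [hF1 k hkm, hc2, ← cf_ic, ← map_sub]
      refine (cf_le k _).trans ?_
      rw [norm_sub_rev]
      linarith [hv a]
    · have hk2 : k ∈ Finset.univ.image n := by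
        rcases Finset.mem_union.mp hkN with h | h
        · exact absurd (Finset.mem_range.mp h) hkm
        · exact h
      obtain ⟨j, -, rfl⟩ := Finset.mem_image.mp hk2
      rw [hF2, ← hH2]
      have h1 : uni.coord (v a) (n j) = ev (ψ j) (uni.coord (v a)) := by
        rw [Tower.coord_eq]
        have h0 : v a (n j) = 0 := by
          by_contra h
          exact absurd (hm a ha _ h) (not_lt.mpr (hn1 j))
        rw [h0, zero_add]
        show ev (phi (n j)) _ = _
        rw [hn3]
      rw [h1]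
      have h2 := hψ3 j (v a) (hm a ha)
      have h3 : |H j a - H j (ic uni.sn (v a))| ≤ δ := by
        rw [← map_sub]
        refine (hH1 j _).trans ?_
        rw [norm_sub_rev]
        exact hv a
      have h4 : δ * uni.sn (v a) ≤ 2 * δ := by nlinarith
      calc |H j a - ev (ψ j) (uni.coord (v a))|
          ≤ |H j a - H j (ic uni.sn (v a))| + |H j (ic uni.sn (v a)) - ev (ψ j) (uni.coord (v a))| :=
            abs_sub_le _ _ _
        _ ≤ δ + 2 * δ := add_le_add h3 (h2.trans h4)
        _ = 3 * δ := by ring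
  refine ⟨f, ?_, ?_⟩
  · intro b
    constructor
    · by_cases hb : b = 0
      · rw [hb]; simp
      · obtain ⟨j, hj⟩ := hh2 b hb
        have h1 : |hh j b| ≤ ‖f b‖ := by
          rw [hf, norm_ic]
          have h2 := uni.coord_le_sn (Lf N (wl b)) (n j)
          rw [hcoord b (n j) (Finset.mem_union_right _
            (Finset.mem_image_of_mem _ (Finset.mem_univ j))), hF2] at h2
          exact h2
        have h3 : ‖b‖ / (1 + ε) ≤ (1 - δ) * ‖b‖ := by
          rw [div_eq_mul_one_div, mul_comm]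
          exact mul_le_mul_of_nonneg_right hδ2 (norm_nonneg b)
        linarith
    · have := hfle b
      nlinarith [norm_nonneg b]
  · have hD : ‖f.comp g.toContinuousLinearMap - A.subtypeL‖ ≤ ε := by
      apply ContinuousLinearMap.opNorm_le_of_unit_norm hε.le
      intro a ha
      obtain ⟨y, hy, hay⟩ := ht a ha.le
      have e1 : (f.comp g.toContinuousLinearMap - A.subtypeL) a
          = f (g (a - y)) + (f (g y) - ic uni.sn (v y)) + (ic uni.sn (v y) - (y : Sp uni.sn))
            + ((y : Sp uni.sn) - (a : Sp uni.sn)) := by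
        rw [map_sub g, map_sub f]
        show f (g a) - (a : Sp uni.sn) = _
        abel
      rw [e1]
      have h1 : ‖f (g (a - y))‖ ≤ δ := by
        refine (hfle _).trans ?_
        rw [g.norm_map]; exact hay
      have h2 : ‖(y : Sp uni.sn) - (a : Sp uni.sn)‖ ≤ δ := by
        rw [norm_sub_rev]; exact hay
      calc _ ≤ ‖f (g (a - y))‖ + ‖f (g y) - ic uni.sn (v y)‖ + ‖ic uni.sn (v y) - (y : Sp uni.sn)‖
            + ‖(y : Sp uni.sn) - (a : Sp uni.sn)‖ := by
            refine (norm_add_le _ _).trans (add_le_add_left ?_ _)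
            refine (norm_add_le _ _).trans (add_le_add_left ?_ _)
            exact norm_add_le _ _
        _ ≤ δ + 3 * δ + δ + δ := by
            gcongr
            · exact hnet y hy
            · exact hv y
        _ = 6 * δ := by ring
        _ ≤ ε := hδε
    intro a
    have := (f.comp g.toContinuousLinearMap - A.subtypeL).le_of_opNorm_le hD a
    exact this

end Pool.Agent.H418R3.Gur
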