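import Mathlib
import Pool.Agent.H418R3.GurDual

/-! Trees without infinite branch do not code the universal space. -/

namespace Pool.Agent.H418R3.Gur

/-! ### Cones -/

def cone (i : ℕ) (t : List ℕ) : Set (ℕ × List ℕ) := {p | p.1 = i ∧ t <:+ p.2}

theorem row_ψ_ne {T : List ℕ → Bool} {p q : ℕ × List ℕ} (h : (row (tt T)).ψ p q ≠ 0) :
    q.1 = p.1 ∧ q.2 <:+ p.2 ∧ q.2.length < p.2.length := by
  obtain ⟨s, hs, rfl⟩ := mapDomain_ne_zero h
  exact ⟨rfl, tt_ψ_suffix hs, (tt T).lt _ _ hs⟩

theorem UC_cone (T : List ℕ → Bool) (i : ℕ) (t : List ℕ) : UC (row (tt T)) (cone i t) := by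
  intro p hp q hq hqc
  obtain ⟨h1, h2, -⟩ := row_ψ_ne hq
  exact hp ⟨h1.symm.trans hqc.1, hqc.2.trans h2⟩

theorem cone_ψ_zero {T : List ℕ → Bool} {i : ℕ} {t : List ℕ} (h : inT T t = false)
    {p : ℕ × List ℕ} (hp : p ∈ cone i t) : (row (tt T)).ψ p = 0 := by
  have h1 : inT T p.2 = false := by
    by_contra hne
    rw [Bool.not_eq_false] at hne
    rw [inT_suffix hp.2 hne] at h
    exact Bool.noConfusion h
  show ((tt T).ψ p.2).mapDomain _ = 0
  rw [tt_ψ_zero h1, Finsupp.mapDomain_zero]

/-- Cones outside the tree. -/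
theorem DD_cone_out {T : List ℕ → Bool} {i : ℕ} {t : List ℕ} (h : inT T t = false) :
    DD (row (tt T)) (cone i t) := by
  let S : ℕ → Set (ℕ × List ℕ) := fun k => {p | p ∈ cone i t ∧ Encodable.encode p = k}
  have hS : cone i t = ⋃ k, S k := by
    ext p
    rw [Set.mem_iUnion]
    constructor
    · intro hp; exact ⟨_, hp, rfl⟩
    · rintro ⟨k, hk⟩; exact hk.1
  have hUC : ∀ k, UC (row (tt T)) (S k) := by
    intro k p _ q hq hqS
    have h1 : p ∈ cone i t := by
      by_contra hne
      exact UC_cone T i t p hne q hq hqS.1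
    rw [cone_ψ_zero h h1] at hq
    exact hq rfl
  rw [hS]
  apply DD_iUnion hUC
  · intro k l hkl
    rw [Set.disjoint_left]
    intro p h1 h2
    exact hkl (h1.2.symm.trans h2.2)
  · intro k
    by_cases hk : ∃ p, p ∈ S k
    · obtain ⟨p, hp⟩ := hk
      apply DD_insert (S' := ∅) (t0 := p) _ (hUC k) _ (DD_empty _)
      · ext q
        rw [Set.mem_insert_iff]
        constructor
        · intro hq
          exact Or.inl (Encodable.encode_injective (hq.2.trans hp.2.symm))
        · rintro (rfl | hq)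
          · exact hp
          · exact absurd hq (Set.notMem_empty _)
      · intro s hs
        rw [cone_ψ_zero h hp.1] at hs
        exact absurd rfl hs
    · have : S k = ∅ := by
        ext p
        constructor
        · intro hp; exact absurd ⟨p, hp⟩ hk
        · intro hp; exact absurd hp (Set.notMem_empty _)
      rw [this]
      exact DD_empty _

theorem cons_suffix_or {t u : List ℕ} (h : t <:+ u) : u = t ∨ ∃ k, (k :: t) <:+ u := by
  obtain ⟨r, hr⟩ := h
  rcases List.eq_nil_or_concat r with hr' | ⟨r', k, hr'⟩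
  · left; rw [← hr, hr', List.nil_append]
  · right
    refine ⟨k, r', ?_⟩
    rw [← hr, hr']
    simp

/-- The inductive step. -/
theorem DD_cone_step {T : List ℕ → Bool} {i : ℕ} {t : List ℕ}
    (h : ∀ k, DD (row (tt T)) (cone i (k :: t))) : DD (row (tt T)) (cone i t) := by
  have h1 : DD (row (tt T)) (⋃ k, cone i (k :: t)) := by
    apply DD_iUnion (fun k => UC_cone T i (k :: t)) _ h
    intro k l hkl
    rw [Set.disjoint_left]
    rintro p ⟨-, hp1⟩ ⟨-, hp2⟩
    have h2 := List.suffix_of_suffix_length_le hp1 hp2 (by simp)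
    have h3 : k :: t = l :: t := h2.eq_of_length (by simp)
    rw [List.cons.injEq] at h3
    exact hkl h3.1
  apply DD_insert (t0 := (i, t)) _ (UC_cone T i t) _ h1
  · ext p
    rw [Set.mem_insert_iff, Set.mem_iUnion]
    constructor
    · rintro ⟨hp1, hp2⟩
      rcases cons_suffix_or hp2 with h2 | ⟨k, hk⟩
      · left; exact Prod.ext hp1 h2
      · right; exact ⟨k, hp1, hk⟩
    · rintro (rfl | ⟨k, hk1, hk2⟩)
      · exact ⟨rfl, List.suffix_refl _⟩
      · exact ⟨hk1, (List.suffix_cons k t).trans hk2⟩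
  · intro q hq hqc
    obtain ⟨-, -, h3⟩ := row_ψ_ne hq
    have h4 := hqc.2.length_le
    have h5 : q.2.length < t.length := h3
    omega

theorem DD_univ {T : List ℕ → Bool} (hT : T ∉ IF) : DD (row (tt T)) Set.univ := by
  by_contra hcon
  have h0 : ∃ i, ¬ DD (row (tt T)) (cone i []) := by
    by_contra hne
    push Not at hne
    apply hcon
    have h1 : (Set.univ : Set (ℕ × List ℕ)) = ⋃ i, cone i [] := by
      ext p
      simp only [Set.mem_univ, Set.mem_iUnion, true_iff]
      exact ⟨p.1, rfl, List.nil_suffix⟩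
    rw [h1]
    apply DD_iUnion (fun i => UC_cone T i []) _ hne
    intro k l hkl
    rw [Set.disjoint_left]
    rintro p ⟨h1, -⟩ ⟨h2, -⟩
    exact hkl (h1.symm.trans h2)
  obtain ⟨i, hi⟩ := h0
  have hstep : ∀ t, ¬ DD (row (tt T)) (cone i t) → ∃ k, ¬ DD (row (tt T)) (cone i (k :: t)) := by
    intro t ht
    by_contra hne
    push Not at hne
    exact ht (DD_cone_step hne)
  have hin : ∀ t, ¬ DD (row (tt T)) (cone i t) → T t = true := by
    intro t ht
    by_contra hne
    apply ht
    apply DD_cone_out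
    by_contra h2
    rw [Bool.not_eq_false] at h2
    exact hne (inT_self h2)
  choose! nx hnx using hstep
  let seq : ℕ → List ℕ := fun n => Nat.rec [] (fun _ t => nx t :: t) n
  have hseq : ∀ n, seq (n + 1) = nx (seq n) :: seq n := fun n => rfl
  have hbad : ∀ n, ¬ DD (row (tt T)) (cone i (seq n)) := by
    intro n
    induction n with
    | zero => exact hi
    | succ n ih => rw [hseq]; exact hnx _ ih
  have hbr : ∀ n, br (fun n => nx (seq n)) n = seq n := by
    intro n
    induction n with
    | zero => rfl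
    | succ n ih =>
      rw [hseq, ← ih]
      show nx (seq n) :: br _ n = _
      rw [ih]
  apply hT
  refine ⟨fun n => nx (seq n), fun n => ?_⟩
  rw [hbr]
  exact hin _ (hbad n)

/-! ### The binary tower -/

/-- The tower of continuous functions on the Cantor set. -/
noncomputable def bt : Tower (List Bool) where
  ψ t := match t with
    | [] => 0
    | _ :: s => Finsupp.single s 1
  rk := List.length
  lt t s h := by
    match t with
    | [] => exact absurd rfl h
    | b :: u =>
      have h' : Finsupp.single u (1 : ℚ) s ≠ 0 := h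
      have : s = u := by
        by_contra hne
        exact h' (Finsupp.single_eq_of_ne hne)
      rw [this, List.length_cons]
      exact Nat.lt_succ_self _
  le t := by
    match t with
    | [] => simp
    | b :: u =>
      show ((Finsupp.single u (1 : ℚ)).sum fun _ q => |q|) ≤ 1
      rw [Finsupp.sum_single_index] <;> simp

def brB (σ : ℕ → Bool) : ℕ → List Bool
  | 0 => []
  | n + 1 => σ n :: brB σ n

theorem brB_length (σ : ℕ → Bool) : ∀ n, (brB σ n).length = n
  | 0 => rfl
  | n + 1 => by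
    unfold brB
    rw [List.length_cons, brB_length σ n]

open Classical in
/-- The functional given by the value at the point `σ`. -/
noncomputable def pt (σ : ℕ → Bool) : (List Bool →₀ ℝ) →ₗ[ℝ] ℝ :=
  Finsupp.linearCombination ℝ (fun s : List Bool => if brB σ s.length = s then (1 : ℝ) else 0)

theorem pt_single (σ : ℕ → Bool) (s : List Bool) (a : ℝ) :
    pt σ (Finsupp.single s a) = if brB σ s.length = s then a else 0 := by
  unfold pt
  rw [Finsupp.linearCombination_single, smul_eq_mul]
  split_ifs <;> simp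

theorem coord_brB_single (σ : ℕ → Bool) (s : List Bool) (a : ℝ) :
    ∀ n, bt.coord (Finsupp.single s a) (brB σ n)
      = if s.length ≤ n ∧ brB σ s.length = s then a else 0
  | 0 => by
    rw [Tower.coord_eq]
    have h1 : bt.ψ (brB σ 0) = 0 := rfl
    rw [h1, ev_zero, add_zero]
    by_cases hs : s = []
    · subst hs
      simp [brB]
    · rw [Finsupp.single_eq_of_ne (by intro h; exact hs h.symm), if_neg]
      rintro ⟨h2, -⟩
      exact hs (List.length_eq_zero_iff.mp (by omega))
  | n + 1 => by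
    rw [Tower.coord_eq]
    have h1 : bt.ψ (brB σ (n + 1)) = Finsupp.single (brB σ n) 1 := rfl
    have h2 : ev (Finsupp.single (brB σ n) (1 : ℚ)) (bt.coord (Finsupp.single s a))
        = bt.coord (Finsupp.single s a) (brB σ n) := by
      unfold ev
      rw [Finsupp.sum_single_index] <;> simp
    rw [h1, h2, coord_brB_single σ s a n]
    by_cases hs : s = brB σ (n + 1)
    · have h3 : s.length = n + 1 := by rw [hs, brB_length]
      rw [if_neg (by omega), if_pos ⟨by omega, by rw [h3]; exact hs.symm⟩, hs,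
        Finsupp.single_eq_same, add_zero]
    · rw [Finsupp.single_eq_of_ne (by intro h; exact hs h.symm), zero_add]
      have h3 : (s.length ≤ n ∧ brB σ s.length = s) ↔
          (s.length ≤ n + 1 ∧ brB σ s.length = s) := by
        constructor
        · rintro ⟨h4, h5⟩; exact ⟨by omega, h5⟩
        · rintro ⟨h4, h5⟩
          refine ⟨?_, h5⟩
          by_contra h6
          have h7 : s.length = n + 1 := by omega
          rw [h7] at h5
          exact hs h5.symm
      simp only [h3]

theorem pt_eventually (σ : ℕ → Bool) (v : List Bool →₀ ℝ) :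
    ∃ n0, ∀ n, n0 ≤ n → bt.coord v (brB σ n) = pt σ v := by
  induction v using Finsupp.induction_linear with
  | zero =>
    refine ⟨0, fun n _ => ?_⟩
    have h := bt.coord_smul 0 0
    rw [zero_smul, zero_smul] at h
    rw [h, map_zero]; rfl
  | add v w hv hw =>
    obtain ⟨n1, h1⟩ := hv
    obtain ⟨n2, h2⟩ := hw
    refine ⟨max n1 n2, fun n hn => ?_⟩
    rw [Tower.coord_add, Pi.add_apply, map_add, h1 n (le_trans (le_max_left _ _) hn),
      h2 n (le_trans (le_max_right _ _) hn)]
  | single s a =>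
    refine ⟨s.length, fun n hn => ?_⟩
    rw [coord_brB_single, pt_single]
    simp [hn]

theorem pt_bound (σ : ℕ → Bool) (v : List Bool →₀ ℝ) : ‖pt σ v‖ ≤ 1 * bt.sn v := by
  obtain ⟨n0, h⟩ := pt_eventually σ v
  rw [one_mul, Real.norm_eq_abs, ← h n0 le_rfl]
  exact bt.coord_le_sn _ _

/-- Trees without infinite branch do not code the universal space. -/
theorem theta_not_iso {T : List ℕ → Bool} (hT : T ∉ IF) :
    ¬ Nonempty (XX (theta T) ≃L[ℝ] Sp uni.sn) := by
  rintro ⟨e0⟩
  obtain ⟨e1⟩ := Sp_equiv eqv (row (tt T)).sn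
  let e : Sp (row (tt T)).sn ≃L[ℝ] Sp uni.sn := e1.symm.trans e0
  obtain ⟨κ, hκ, F, hF⟩ := DD_univ hT
  let E : Emb bt uni := toUni bt Encodable.encode Encodable.encode_injective
  let Φ : (ℕ → Bool) → (Sp (row (tt T)).sn →L[ℝ] ℝ) := fun σ =>
    (lift bt.sn (pt σ)).comp (E.R.comp (e : Sp (row (tt T)).sn →L[ℝ] Sp uni.sn))
  let y : Sp bt.sn → Sp (row (tt T)).sn := fun x => e.symm (E.T x)
  obtain ⟨K, hK0, hK⟩ : ∃ K : ℝ, 0 < K ∧ ∀ x, ‖y x‖ ≤ K * ‖x‖ := by
    let L : Sp bt.sn →L[ℝ] Sp (row (tt T)).sn :=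
      (e.symm : Sp uni.sn →L[ℝ] Sp (row (tt T)).sn).comp E.T
    refine ⟨‖L‖ + 1, by positivity, fun x => ?_⟩
    have h1 : ‖y x‖ ≤ ‖L‖ * ‖x‖ := L.le_opNorm x
    nlinarith [norm_nonneg x]
  have hΦ : ∀ σ x, Φ σ (y x) = lift bt.sn (pt σ) x := by
    intro σ x
    show lift bt.sn (pt σ) (E.R (e (e.symm (E.T x)))) = _
    rw [e.apply_symm_apply, E.R_T]
  have hε : 0 < 1 / (4 * K) := by positivity
  have hex : ∀ σ, ∃ k, ∀ v, |Φ σ (ic _ v) - F k v| ≤ 1 / (4 * K) * (row (tt T)).sn v := by
    intro σ
    obtain ⟨k, hk⟩ := hF ((Φ σ).toLinearMap.comp (ic _)) ⟨‖Φ σ‖, fun v _ => by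
      have := (Φ σ).le_opNorm (ic _ v)
      rw [norm_ic] at this
      exact this⟩ _ hε
    exact ⟨k, fun v => hk v (fun t _ => Set.mem_univ t)⟩
  choose idx hidx using hex
  have hinj : Function.Injective idx := by
    intro σ τ hστ
    by_contra hne
    obtain ⟨n, hn⟩ := Function.ne_iff.mp hne
    -- the two functionals are close
    have h1 : ∀ v, ‖((Φ σ - Φ τ : Sp (row (tt T)).sn →L[ℝ] ℝ).toLinearMap.comp (ic _)) v‖
        ≤ 1 / (2 * K) * (row (tt T)).sn v := by
      intro v
      have h2 := hidx σ v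
      have h3 := hidx τ v
      rw [← hστ] at h3
      show |Φ σ (ic _ v) - Φ τ (ic _ v)| ≤ _
      have h4 : Φ σ (ic _ v) - Φ τ (ic _ v)
          = (Φ σ (ic _ v) - F (idx σ) v) - (Φ τ (ic _ v) - F (idx σ) v) := by ring
      rw [h4]
      refine (abs_sub _ _).trans ?_
      have h5 : 1 / (2 * K) * (row (tt T)).sn v = 1 / (4 * K) * (row (tt T)).sn v
          + 1 / (4 * K) * (row (tt T)).sn v := by
        field_simp; ring
      rw [h5]
      exact add_le_add h2 h3
    have h2 : ∀ x, |(Φ σ - Φ τ : Sp (row (tt T)).sn →L[ℝ] ℝ) x| ≤ 1 / (2 * K) * ‖x‖ := by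
      intro x
      have h3 := norm_lift_le h1 x
      have h4 : lift _ ((Φ σ - Φ τ : Sp (row (tt T)).sn →L[ℝ] ℝ).toLinearMap.comp (ic _))
          = (Φ σ - Φ τ : Sp (row (tt T)).sn →L[ℝ] ℝ) := by
        apply Sp_ext
        intro v
        rw [lift_ic h1]; rfl
      rw [h4] at h3
      exact h3
    -- but they differ at a vector
    let x : Sp bt.sn := ic bt.sn (Finsupp.single (brB σ (n + 1)) 1)
    have hx : ‖x‖ ≤ 1 := by
      rw [norm_ic]; exact sn_single_le bt _
    have h3 := h2 (y x)
    have h4 : (Φ σ - Φ τ : Sp (row (tt T)).sn →L[ℝ] ℝ) (y x) = 1 := by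
      show Φ σ (y x) - Φ τ (y x) = 1
      rw [hΦ, hΦ, lift_ic (pt_bound σ), lift_ic (pt_bound τ), pt_single, pt_single, brB_length,
        if_pos rfl, if_neg, sub_zero]
      intro h
      have h' : τ n :: brB τ n = σ n :: brB σ n := h
      rw [List.cons.injEq] at h'
      exact hn h'.1.symm
    rw [h4, abs_one] at h3
    have h5 := hK x
    have h6 : 1 / (2 * K) * ‖y x‖ ≤ 1 / 2 := by
      have h7 : ‖y x‖ ≤ K := h5.trans (by nlinarith)
      calc 1 / (2 * K) * ‖y x‖ ≤ 1 / (2 * K) * K :=
            mul_le_mul_of_nonneg_left h7 (by positivity)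
        _ = 1 / 2 := by field_simp
    linarith
  have hcount : Countable (ℕ → Bool) := hinj.countable
  have hcount2 : Countable (Set ℕ) := by
    classical
    exact Function.Injective.countable (f := fun (s : Set ℕ) (n : ℕ) => decide (n ∈ s)) (by
      intro s t hst
      ext n
      have := congrFun hst n
      simpa using this)
  obtain ⟨g, hg⟩ := exists_surjective_nat (Set ℕ)
  exact Function.cantor_surjective g hg

end Pool.Agent.H418R3.Gur
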