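import Mathlib
import Pool.Agent.H418R3.GurProp2
import Pool.Agent.H418R3.GurWell
import Pool.Agent.H418R3.GurWF

/-! The isomorphism class of the Gurarii space is not Borel. -/

namespace Pool.Agent.H418R3.Gur

open TopologicalSpace

theorem separable_Sp {I : Type} [Countable I] (μ : Seminorm ℝ (I →₀ ℝ)) :
    SeparableSpace (Sp μ) := by
  have h1 : IsSeparable (Set.range fun t : I => ic μ (Finsupp.single t 1)) :=
    (Set.countable_range _).isSeparable
  have h2 := h1.span (R := ℝ)
  have h3 : (Submodule.span ℝ (Set.range fun t : I => ic μ (Finsupp.single t 1)) : Set (Sp μ))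
      = Set.range (ic μ) := by
    have h4 : Submodule.span ℝ (Set.range fun t : I => ic μ (Finsupp.single t 1))
        = LinearMap.range (ic μ) := by
      have h5 : (fun t : I => ic μ (Finsupp.single t 1))
          = fun t => (ic μ) ((Finsupp.basisSingleOne (R := ℝ) (ι := I)) t) := by
        funext t; simp
      rw [h5]
      have h6 := LinearMap.map_span (ic μ)
        (Set.range (Finsupp.basisSingleOne (R := ℝ) (ι := I)))
      rw [Module.Basis.span_eq, Submodule.map_top, ← Set.range_comp] at h6
      exact h6.symm
    rw [h4]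
    rfl
  rw [h3] at h2
  have h7 := h2.closure
  rw [(dense_ic μ).closure_range] at h7
  exact isSeparable_univ_iff.mp h7

theorem not_borel {J : Set PN} (hJ : ∀ T, theta T ∈ J) :
    ¬ @MeasurableSet J (borel J) (isoClass J (Sp uni.sn)) := by
  intro h
  let th : (List ℕ → Bool) → J := fun T => ⟨theta T, hJ T⟩
  have hth : Continuous th := continuous_theta.subtype_mk hJ
  have h1 : @MeasurableSet (List ℕ → Bool) (borel _) (th ⁻¹' (isoClass J (Sp uni.sn))) := by
    let _ : MeasurableSpace (List ℕ → Bool) := borel _
    let _ : MeasurableSpace J := borel _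
    have _ : BorelSpace (List ℕ → Bool) := ⟨rfl⟩
    have _ : BorelSpace J := ⟨rfl⟩
    exact hth.measurable h
  have h2 : th ⁻¹' (isoClass J (Sp uni.sn)) = IF := by
    ext T
    constructor
    · intro hT
      by_contra hne
      exact theta_not_iso hne hT
    · intro hT
      exact theta_iso hT
  rw [h2] at h1
  exact IF_not_borel h1

theorem not_gdelta {J : Set PN} (hJ : ∀ T, theta T ∈ J) :
    ¬ IsGδ (isoClass J (Sp uni.sn)) := by
  intro h
  apply not_borel hJ
  let _ : MeasurableSpace J := borel _
  have _ : BorelSpace J := ⟨rfl⟩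
  exact h.measurableSet

end Pool.Agent.H418R3.Gur
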