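import Mathlib

/-!
# Oriented link diagrams on the sphere as combinatorial maps; warping span; Reidemeister II moves

A crossing `x` has four darts (half-edges) `(x, 0), (x, 1), (x, 2), (x, 3)`, in counterclockwise
order around the crossing.  The darts `(x, 0)` and `(x, 2)` form the under-strand of the crossing,
the darts `(x, 1)` and `(x, 3)` form the over-strand.  The edges of the diagram are given by a
pairing `glue` of the darts.
-/

namespace Pool.Agent.H418R3

/-- The darts (half-edges) of a diagram with set of crossings `X`: the dart `(x, j)` is the `j`-th
half-edge at the crossing `x`, in counterclockwise order; `j = 0, 2` is the under-strand and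
`j = 1, 3` the over-strand. -/
abbrev Dart (X : Type) : Type := X × ZMod 4

/-- An oriented link diagram with set of crossings `X` on a closed oriented surface. -/
structure Diagram (X : Type) where
  /-- `glue d` is the other end of the edge containing the dart `d` -/
  glue : Dart X → Dart X
  glue_glue : ∀ d, glue (glue d) = d
  /-- the orientation: `out d = true` if the link leaves its crossing along the dart `d` -/
  out : Dart X → Bool
  out_glue : ∀ d, out (glue d) = !(out d)
  out_opp : ∀ (x : X) (j : ZMod 4), out (x, j + 2) = !(out (x, j))
  /-- the number of components without crossings -/
  circles : ℕ

namespace Diagram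

variable {X : Type} (D : Diagram X)

/-- Walk along the edge of the dart `d`, keeping a face on the left, and turn left at the crossing
reached: the next dart with the same face on its left. -/
def turn (d : Dart X) : Dart X := ((D.glue d).1, (D.glue d).2 - 1)

/-- The faces: the classes of darts under `d ∼ turn d` (a dart stands for the face on its left). -/
def Face : Type := Quot fun d d' : Dart X => d' = D.turn d

/-- The connected pieces of the diagram (crossingless components left aside): the classes of darts
under the relation generated by lying at the same crossing and by lying on the same edge. -/
def Piece : Type := Quot fun d d' : Dart X => d'.1 = d.1 ∨ d' = D.glue d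

/-- The diagram lies on a sphere (each connected piece on its own sphere): Euler's formula
`V - E + F = 2 * (number of pieces)`, where `V` is the number of crossings and `E = 2 V`. -/
def Planar : Prop := Nat.card D.Face = Nat.card X + 2 * Nat.card D.Piece

/-- Travelling along the link: leave a crossing along the dart `d`, run along its edge, cross the
crossing at its end and leave it along the dart `next d`. -/
def next (d : Dart X) : Dart X := ((D.glue d).1, (D.glue d).2 + 2)

/-- `+1` if the crossing at the end of the edge of `d` is passed on the over-strand, `-1` if it is
passed on the under-strand. -/
def passSign (d : Dart X) : ℤ := if (D.glue d).2 = 1 ∨ (D.glue d).2 = 3 then 1 else -1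

/-- The weight of the `k`-th edge after the edge of `d`, in the order of travel: the weight of the
edge of `d` is `0`, and the weight goes up by one at an over-passage and down by one at an
under-passage. -/
def weight (d : Dart X) (k : ℕ) : ℤ := ∑ j ∈ Finset.range k, D.passSign (D.next^[j] d)

/-- The number of edges of the component through the dart `d`. -/
noncomputable def edgeCount (d : Dart X) : ℕ := Function.minimalPeriod D.next d

/-- The warping span of the diagram: the maximum of `(d_i - d_j - 1) / 2` over all components with
crossings, over all choices of the first edge of the component, and over all pairs of edges of the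
component, where `d_i` are the weights; `0` if there is no crossing. -/
noncomputable def warp : ℝ :=
  sSup ({0} ∪ {r : ℝ | ∃ (d : Dart X) (i j : ℕ), D.out d = true ∧ i < D.edgeCount d ∧
    j < D.edgeCount d ∧ r = ((D.weight d i : ℝ) - (D.weight d j : ℝ) - 1) / 2})

section Corner

open scoped Classical

/-- Auxiliary: the position of the dart `d` of the old diagram after the Reidemeister II move in the
corner between the darts `(x, i)` and `(x, i + 1)`: the ends `(x, i)` and `(x, i + 1)` of the two
strands involved are replaced by the darts `t + 2` and `t + 3` of the second new crossing. -/
noncomputable def stub (x : X) (i t : ZMod 4) (d : Dart X) : Dart (X ⊕ Bool) :=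
  if d = (x, i) then (Sum.inr true, t + 2)
  else if d = (x, i + 1) then (Sum.inr true, t + 3)
  else (Sum.inl d.1, d.2)

/-- The gluing after the move. -/
noncomputable def cornerGlue (x : X) (i t : ZMod 4) : Dart (X ⊕ Bool) → Dart (X ⊕ Bool)
  | (Sum.inl u, j) =>
      if (u, j) = (x, i) then (Sum.inr false, t)
      else if (u, j) = (x, i + 1) then (Sum.inr false, t + 3)
      else stub x i t (D.glue (u, j))
  | (Sum.inr false, j) =>
      if j = t then (Sum.inl x, i)
      else if j = t + 3 then (Sum.inl x, i + 1)
      else if j = t + 2 then (Sum.inr true, t)
      else (Sum.inr true, t + 1)
  | (Sum.inr true, j) =>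
      if j = t then (Sum.inr false, t + 2)
      else if j = t + 1 then (Sum.inr false, t + 1)
      else if j = t + 2 then stub x i t (D.glue (x, i))
      else stub x i t (D.glue (x, i + 1))

/-- The orientation after the move. -/
def cornerOut (x : X) (i t : ZMod 4) : Dart (X ⊕ Bool) → Bool
  | (Sum.inl u, j) => D.out (u, j)
  | (Sum.inr false, j) =>
      if j = t then !(D.out (x, i))
      else if j = t + 1 then D.out (x, i + 1)
      else if j = t + 2 then D.out (x, i)
      else !(D.out (x, i + 1))
  | (Sum.inr true, j) =>
      if j = t then !(D.out (x, i))
      else if j = t + 1 then !(D.out (x, i + 1))
      else if j = t + 2 then D.out (x, i)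
      else D.out (x, i + 1)

end Corner

end Diagram

end Pool.Agent.H418R3
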