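import Mathlib
import Pool.Agent.H418R3.WarpDefs

/-! The corner Reidemeister II move is a diagram. -/

namespace Pool.Agent.H418R3

namespace Diagram

variable {X : Type} (D : Diagram X) (x : X) (i t : ZMod 4)

theorem z4_cases (t j : ZMod 4) : j = t ∨ j = t + 1 ∨ j = t + 2 ∨ j = t + 3 := by
  decide +revert

theorem z4_10 (t : ZMod 4) : t + 1 ≠ t := by decide +revert
theorem z4_20 (t : ZMod 4) : t + 2 ≠ t := by decide +revert
theorem z4_30 (t : ZMod 4) : t + 3 ≠ t := by decide +revert
theorem z4_01 (t : ZMod 4) : t ≠ t + 1 := by decide +revert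
theorem z4_02 (t : ZMod 4) : t ≠ t + 2 := by decide +revert
theorem z4_03 (t : ZMod 4) : t ≠ t + 3 := by decide +revert
theorem z4_12 (t : ZMod 4) : t + 1 ≠ t + 2 := by decide +revert
theorem z4_13 (t : ZMod 4) : t + 1 ≠ t + 3 := by decide +revert
theorem z4_23 (t : ZMod 4) : t + 2 ≠ t + 3 := by decide +revert
theorem z4_21 (t : ZMod 4) : t + 2 ≠ t + 1 := by decide +revert
theorem z4_31 (t : ZMod 4) : t + 3 ≠ t + 1 := by decide +revert
theorem z4_32 (t : ZMod 4) : t + 3 ≠ t + 2 := by decide +revert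

theorem B_ne_A : ((x, i + 1) : Dart X) ≠ (x, i) := by
  intro h
  exact z4_10 i (congrArg Prod.snd h)

theorem stub_A : stub x i t (x, i) = (Sum.inr true, t + 2) := by
  unfold stub; rw [if_pos rfl]

theorem stub_B : stub x i t (x, i + 1) = (Sum.inr true, t + 3) := by
  unfold stub; rw [if_neg (B_ne_A x i), if_pos rfl]

theorem stub_old {d : Dart X} (hA : d ≠ (x, i)) (hB : d ≠ (x, i + 1)) :
    stub x i t d = (Sum.inl d.1, d.2) := by
  unfold stub; rw [if_neg hA, if_neg hB]

theorem cg_A : D.cornerGlue x i t (Sum.inl x, i) = (Sum.inr false, t) := by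
  dsimp only [cornerGlue]; rw [if_pos rfl]

theorem cg_B : D.cornerGlue x i t (Sum.inl x, i + 1) = (Sum.inr false, t + 3) := by
  dsimp only [cornerGlue]; rw [if_neg (B_ne_A x i), if_pos rfl]

theorem cg_old {d : Dart X} (hA : d ≠ (x, i)) (hB : d ≠ (x, i + 1)) :
    D.cornerGlue x i t (Sum.inl d.1, d.2) = stub x i t (D.glue d) := by
  dsimp only [cornerGlue]; rw [if_neg hA, if_neg hB]

theorem cg_y0 : D.cornerGlue x i t (Sum.inr false, t) = (Sum.inl x, i) := by
  dsimp only [cornerGlue]; rw [if_pos rfl]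

theorem cg_y3 : D.cornerGlue x i t (Sum.inr false, t + 3) = (Sum.inl x, i + 1) := by
  dsimp only [cornerGlue]; rw [if_neg (z4_30 t), if_pos rfl]

theorem cg_y2 : D.cornerGlue x i t (Sum.inr false, t + 2) = (Sum.inr true, t) := by
  dsimp only [cornerGlue]; rw [if_neg (z4_20 t), if_neg (z4_23 t), if_pos rfl]

theorem cg_y1 : D.cornerGlue x i t (Sum.inr false, t + 1) = (Sum.inr true, t + 1) := by
  dsimp only [cornerGlue]; rw [if_neg (z4_10 t), if_neg (z4_13 t), if_neg (z4_12 t)]

theorem cg_z0 : D.cornerGlue x i t (Sum.inr true, t) = (Sum.inr false, t + 2) := by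
  dsimp only [cornerGlue]; rw [if_pos rfl]

theorem cg_z1 : D.cornerGlue x i t (Sum.inr true, t + 1) = (Sum.inr false, t + 1) := by
  dsimp only [cornerGlue]; rw [if_neg (z4_10 t), if_pos rfl]

theorem cg_z2 : D.cornerGlue x i t (Sum.inr true, t + 2) = stub x i t (D.glue (x, i)) := by
  dsimp only [cornerGlue]; rw [if_neg (z4_20 t), if_neg (z4_21 t), if_pos rfl]

theorem cg_z3 : D.cornerGlue x i t (Sum.inr true, t + 3) = stub x i t (D.glue (x, i + 1)) := by
  dsimp only [cornerGlue]; rw [if_neg (z4_30 t), if_neg (z4_31 t), if_neg (z4_32 t)]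

theorem cg_stub (d : Dart X) :
    D.cornerGlue x i t (stub x i t d) = stub x i t (D.glue d) := by
  by_cases hA : d = (x, i)
  · subst hA; rw [stub_A, cg_z2]
  · by_cases hB : d = (x, i + 1)
    · subst hB; rw [stub_B, cg_z3]
    · rw [stub_old x i t hA hB, cg_old D x i t hA hB]

theorem co_inl (d : Dart X) : D.cornerOut x i t (Sum.inl d.1, d.2) = D.out d := rfl

theorem co_y0 : D.cornerOut x i t (Sum.inr false, t) = !(D.out (x, i)) := by
  dsimp only [cornerOut]; rw [if_pos rfl]

theorem co_y1 : D.cornerOut x i t (Sum.inr false, t + 1) = D.out (x, i + 1) := by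
  dsimp only [cornerOut]; rw [if_neg (z4_10 t), if_pos rfl]

theorem co_y2 : D.cornerOut x i t (Sum.inr false, t + 2) = D.out (x, i) := by
  dsimp only [cornerOut]; rw [if_neg (z4_20 t), if_neg (z4_21 t), if_pos rfl]

theorem co_y3 : D.cornerOut x i t (Sum.inr false, t + 3) = !(D.out (x, i + 1)) := by
  dsimp only [cornerOut]; rw [if_neg (z4_30 t), if_neg (z4_31 t), if_neg (z4_32 t)]

theorem co_z0 : D.cornerOut x i t (Sum.inr true, t) = !(D.out (x, i)) := by
  dsimp only [cornerOut]; rw [if_pos rfl]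

theorem co_z1 : D.cornerOut x i t (Sum.inr true, t + 1) = !(D.out (x, i + 1)) := by
  dsimp only [cornerOut]; rw [if_neg (z4_10 t), if_pos rfl]

theorem co_z2 : D.cornerOut x i t (Sum.inr true, t + 2) = D.out (x, i) := by
  dsimp only [cornerOut]; rw [if_neg (z4_20 t), if_neg (z4_21 t), if_pos rfl]

theorem co_z3 : D.cornerOut x i t (Sum.inr true, t + 3) = D.out (x, i + 1) := by
  dsimp only [cornerOut]; rw [if_neg (z4_30 t), if_neg (z4_31 t), if_neg (z4_32 t)]

theorem co_stub (d : Dart X) : D.cornerOut x i t (stub x i t d) = D.out d := by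
  by_cases hA : d = (x, i)
  · subst hA; rw [stub_A, co_z2]
  · by_cases hB : d = (x, i + 1)
    · subst hB; rw [stub_B, co_z3]
    · rw [stub_old x i t hA hB, co_inl]

/-- case analysis on the darts after the move -/
theorem dart_cases (p : Dart (X ⊕ Bool) → Prop)
    (hA : p (Sum.inl x, i)) (hB : p (Sum.inl x, i + 1))
    (hold : ∀ d : Dart X, d ≠ (x, i) → d ≠ (x, i + 1) → p (Sum.inl d.1, d.2))
    (hy0 : p (Sum.inr false, t)) (hy1 : p (Sum.inr false, t + 1)) (hy2 : p (Sum.inr false, t + 2))
    (hy3 : p (Sum.inr false, t + 3))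
    (hz0 : p (Sum.inr true, t)) (hz1 : p (Sum.inr true, t + 1)) (hz2 : p (Sum.inr true, t + 2))
    (hz3 : p (Sum.inr true, t + 3)) (d : Dart (X ⊕ Bool)) : p d := by
  obtain ⟨u, j⟩ := d
  rcases u with u | b
  · by_cases h1 : ((u, j) : Dart X) = (x, i)
    · obtain ⟨rfl, rfl⟩ := Prod.mk.inj h1; exact hA
    · by_cases h2 : ((u, j) : Dart X) = (x, i + 1)
      · obtain ⟨rfl, rfl⟩ := Prod.mk.inj h2; exact hB
      · exact hold (u, j) h1 h2
  · cases b
    · rcases z4_cases t j with rfl | rfl | rfl | rfl <;> assumption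
    · rcases z4_cases t j with rfl | rfl | rfl | rfl <;> assumption

/-- The diagram obtained from `D` by the Reidemeister II move in the corner between the darts
`A = (x, i)` and `B = (x, i + 1)`: the two strands leaving `x` along `A` and along `B` are made to
cross each other twice more, right behind `x`.  The first new crossing is `Sum.inr false`, the
second one `Sum.inr true`.  At both new crossings the strand of `A` enters at the dart `t` and
leaves at the dart `t + 2`; so it passes under the strand of `B` if `t` is even, and over it if `t`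
is odd. -/
noncomputable def cornerR2 : Diagram (X ⊕ Bool) where
  glue := D.cornerGlue x i t
  glue_glue := by
    refine dart_cases x i t _ ?_ ?_ ?_ ?_ ?_ ?_ ?_ ?_ ?_ ?_ ?_
    · rw [cg_A, cg_y0]
    · rw [cg_B, cg_y3]
    · intro d hA hB
      rw [cg_old D x i t hA hB, cg_stub, D.glue_glue, stub_old x i t hA hB]
    · rw [cg_y0, cg_A]
    · rw [cg_y1, cg_z1]
    · rw [cg_y2, cg_z0]
    · rw [cg_y3, cg_B]
    · rw [cg_z0, cg_y2]
    · rw [cg_z1, cg_y1]
    · rw [cg_z2, cg_stub, D.glue_glue, stub_A]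
    · rw [cg_z3, cg_stub, D.glue_glue, stub_B]
  out := D.cornerOut x i t
  out_glue := by
    refine dart_cases x i t _ ?_ ?_ ?_ ?_ ?_ ?_ ?_ ?_ ?_ ?_ ?_
    · rw [cg_A, co_y0]; rfl
    · rw [cg_B, co_y3]; rfl
    · intro d hA hB
      rw [cg_old D x i t hA hB, co_stub, co_inl, D.out_glue]
    · rw [cg_y0, co_y0, Bool.not_not]; rfl
    · rw [cg_y1, co_z1, co_y1]
    · rw [cg_y2, co_z0, co_y2]
    · rw [cg_y3, co_y3, Bool.not_not]; rfl
    · rw [cg_z0, co_z0, co_y2, Bool.not_not]
    · rw [cg_z1, co_z1, co_y1, Bool.not_not]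
    · rw [cg_z2, co_stub, co_z2, D.out_glue]
    · rw [cg_z3, co_stub, co_z3, D.out_glue]
  out_opp := by
    intro u j
    rcases u with u | b
    · exact D.out_opp u j
    · have e1 : t + 1 + 2 = t + 3 := by ring
      have e2 : t + 2 + 2 = t := by
        have : (2 : ZMod 4) + 2 = 0 := by decide
        rw [add_assoc, this, add_zero]
      have e3 : t + 3 + 2 = t + 1 := by
        have : (3 : ZMod 4) + 2 = 1 := by decide
        rw [add_assoc, this]
      cases b
      · rcases z4_cases t j with rfl | rfl | rfl | rfl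
        · rw [co_y2, co_y0, Bool.not_not]
        · rw [e1, co_y3, co_y1]
        · rw [e2, co_y0, co_y2]
        · rw [e3, co_y1, co_y3, Bool.not_not]
      · rcases z4_cases t j with rfl | rfl | rfl | rfl
        · rw [co_z2, co_z0, Bool.not_not]
        · rw [e1, co_z3, co_z1, Bool.not_not]
        · rw [e2, co_z0, co_z2]
        · rw [e3, co_z1, co_z3]
  circles := D.circles

end Diagram

end Pool.Agent.H418R3
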