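import Mathlib
import Pool.Agent.H418R3.WarpCorner

/-! The corner Reidemeister II move preserves planarity (Euler's formula). -/

namespace Pool.Agent.H418R3

namespace Diagram

variable {X : Type} (D : Diagram X) (x : X) (i t : ZMod 4)

theorem z4_sub0 (t : ZMod 4) : t - 1 = t + 3 := by decide +revert
theorem z4_sub1 (t : ZMod 4) : t + 1 - 1 = t := by decide +revert
theorem z4_sub2 (t : ZMod 4) : t + 2 - 1 = t + 1 := by decide +revert
theorem z4_sub3 (t : ZMod 4) : t + 3 - 1 = t + 2 := by decide +revert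
theorem z4_m10 (t : ZMod 4) : t - 1 ≠ t := by decide +revert
theorem z4_m11 (t : ZMod 4) : t - 1 ≠ t + 1 := by decide +revert

/-- class of a dart in the faces -/
def fmk (d : Dart X) : D.Face := Quot.mk _ d

theorem fmk_turn (d : Dart X) : D.fmk (D.turn d) = D.fmk d :=
  (Quot.sound (r := fun d d' : Dart X => d' = D.turn d) rfl).symm

section Face

open scoped Classical

/-- classes of the new darts among the old faces and two bigons -/
noncomputable def faceFun : Dart (X ⊕ Bool) → D.Face ⊕ Bool
  | (Sum.inl u, j) => if (u, j) = (x, i) then Sum.inr false else Sum.inl (D.fmk (u, j))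
  | (Sum.inr false, j) =>
      if j = t then Sum.inl (D.fmk (x, i - 1))
      else if j = t + 1 then Sum.inr true
      else if j = t + 2 then Sum.inl (D.fmk (x, i + 1))
      else Sum.inr false
  | (Sum.inr true, j) =>
      if j = t then Sum.inr true
      else if j = t + 1 then Sum.inl (D.fmk (x, i - 1))
      else if j = t + 2 then Sum.inl (D.fmk (x, i))
      else Sum.inl (D.fmk (x, i + 1))

theorem ff_A : D.faceFun x i t (Sum.inl x, i) = Sum.inr false := by
  dsimp only [faceFun]; rw [if_pos rfl]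
theorem ff_old {d : Dart X} (h : d ≠ (x, i)) :
    D.faceFun x i t (Sum.inl d.1, d.2) = Sum.inl (D.fmk d) := by
  dsimp only [faceFun]; rw [if_neg h]
theorem ff_y0 : D.faceFun x i t (Sum.inr false, t) = Sum.inl (D.fmk (x, i - 1)) := by
  dsimp only [faceFun]; rw [if_pos rfl]
theorem ff_y1 : D.faceFun x i t (Sum.inr false, t + 1) = Sum.inr true := by
  dsimp only [faceFun]; rw [if_neg (z4_10 t), if_pos rfl]
theorem ff_y2 : D.faceFun x i t (Sum.inr false, t + 2) = Sum.inl (D.fmk (x, i + 1)) := by
  dsimp only [faceFun]; rw [if_neg (z4_20 t), if_neg (z4_21 t), if_pos rfl]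
theorem ff_y3 : D.faceFun x i t (Sum.inr false, t + 3) = Sum.inr false := by
  dsimp only [faceFun]; rw [if_neg (z4_30 t), if_neg (z4_31 t), if_neg (z4_32 t)]
theorem ff_z0 : D.faceFun x i t (Sum.inr true, t) = Sum.inr true := by
  dsimp only [faceFun]; rw [if_pos rfl]
theorem ff_z1 : D.faceFun x i t (Sum.inr true, t + 1) = Sum.inl (D.fmk (x, i - 1)) := by
  dsimp only [faceFun]; rw [if_neg (z4_10 t), if_pos rfl]
theorem ff_z2 : D.faceFun x i t (Sum.inr true, t + 2) = Sum.inl (D.fmk (x, i)) := by
  dsimp only [faceFun]; rw [if_neg (z4_20 t), if_neg (z4_21 t), if_pos rfl]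
theorem ff_z3 : D.faceFun x i t (Sum.inr true, t + 3) = Sum.inl (D.fmk (x, i + 1)) := by
  dsimp only [faceFun]; rw [if_neg (z4_30 t), if_neg (z4_31 t), if_neg (z4_32 t)]

theorem sub_ne_A {d : Dart X} (hB : d ≠ (x, i + 1)) : ((d.1, d.2 - 1) : Dart X) ≠ (x, i) := by
  intro h
  apply hB
  obtain ⟨h1, h2⟩ := Prod.mk.inj h
  ext
  · exact h1
  · simp only
    rw [← h2, sub_add_cancel]

theorem ff_stub (d : Dart X) :
    D.faceFun x i t ((stub x i t d).1, (stub x i t d).2 - 1) = Sum.inl (D.fmk (d.1, d.2 - 1)) := by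
  by_cases hA : d = (x, i)
  · subst hA
    rw [stub_A]
    simp only
    rw [z4_sub2, ff_z1]
  · by_cases hB : d = (x, i + 1)
    · subst hB
      rw [stub_B]
      simp only
      rw [z4_sub3, ff_z2, z4_sub1]
    · rw [stub_old x i t hA hB]
      exact ff_old D x i t (sub_ne_A x i hB)

theorem turn_new (d : Dart (X ⊕ Bool)) : (D.cornerR2 x i t).turn d =
    ((D.cornerGlue x i t d).1, (D.cornerGlue x i t d).2 - 1) := rfl

theorem faceFun_turn (d : Dart (X ⊕ Bool)) :
    D.faceFun x i t ((D.cornerR2 x i t).turn d) = D.faceFun x i t d := by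
  revert d
  refine dart_cases x i t _ ?_ ?_ ?_ ?_ ?_ ?_ ?_ ?_ ?_ ?_ ?_
  · rw [turn_new, cg_A]; simp only; rw [z4_sub0, ff_y3, ff_A]
  · rw [turn_new, cg_B]; simp only; rw [z4_sub3, ff_y2]
    exact (ff_old D x i t (d := (x, i + 1)) (B_ne_A x i)).symm
  · intro d hA hB
    rw [turn_new, cg_old D x i t hA hB, ff_stub, ff_old D x i t hA]
    exact congrArg _ (D.fmk_turn d)
  · rw [turn_new, cg_y0]; simp only
    rw [ff_y0]
    exact ff_old D x i t (d := (x, i - 1)) (fun h => z4_m10 i (congrArg Prod.snd h))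
  · rw [turn_new, cg_y1]; simp only; rw [z4_sub1, ff_z0, ff_y1]
  · rw [turn_new, cg_y2]; simp only; rw [z4_sub0, ff_z3, ff_y2]
  · rw [turn_new, cg_y3]; simp only; rw [z4_sub1, ff_A, ff_y3]
  · rw [turn_new, cg_z0]; simp only; rw [z4_sub2, ff_y1, ff_z0]
  · rw [turn_new, cg_z1]; simp only; rw [z4_sub1, ff_y0, ff_z1]
  · rw [turn_new, cg_z2, ff_stub, ff_z2]
    exact congrArg _ (D.fmk_turn (x, i))
  · rw [turn_new, cg_z3, ff_stub, ff_z3]
    exact congrArg _ (D.fmk_turn (x, i + 1))

/-- the representative in the new diagram of an old face -/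
noncomputable def sstar (d : Dart X) : Dart (X ⊕ Bool) :=
  if d = (x, i) then (Sum.inr true, t + 2) else (Sum.inl d.1, d.2)

theorem sstar_A : sstar x i t (x, i) = (Sum.inr true, t + 2) := by
  unfold sstar; rw [if_pos rfl]
theorem sstar_old {d : Dart X} (h : d ≠ (x, i)) : sstar x i t d = (Sum.inl d.1, d.2) := by
  unfold sstar; rw [if_neg h]

theorem fmk_stub (d : Dart X) :
    (D.cornerR2 x i t).fmk ((stub x i t d).1, (stub x i t d).2 - 1)
      = (D.cornerR2 x i t).fmk (sstar x i t (d.1, d.2 - 1)) := by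
  by_cases hA : d = (x, i)
  · subst hA
    rw [stub_A]
    simp only
    rw [z4_sub2, ← fmk_turn, turn_new, cg_z1]
    simp only
    rw [z4_sub1, ← fmk_turn, turn_new, cg_y0]
    rw [sstar_old x i t (d := (x, i - 1)) (fun h => z4_m10 i (congrArg Prod.snd h))]
  · by_cases hB : d = (x, i + 1)
    · subst hB
      rw [stub_B]
      simp only
      rw [z4_sub3, z4_sub1, sstar_A]
    · rw [stub_old x i t hA hB, sstar_old x i t (sub_ne_A x i hB)]

theorem fmk_sstar_turn (d : Dart X) :
    (D.cornerR2 x i t).fmk (sstar x i t (D.turn d)) = (D.cornerR2 x i t).fmk (sstar x i t d) := by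
  have key := D.fmk_stub x i t (D.glue d)
  change _ = (D.cornerR2 x i t).fmk (sstar x i t (D.turn d)) at key
  rw [← key]
  by_cases hB : d = (x, i + 1)
  · subst hB
    rw [sstar_old x i t (d := (x, i + 1)) (B_ne_A x i)]
    have e1 := fmk_turn (D.cornerR2 x i t) (Sum.inl x, i + 1)
    rw [turn_new, cg_B] at e1
    simp only at e1
    rw [z4_sub3] at e1
    have e2 := fmk_turn (D.cornerR2 x i t) (Sum.inr false, t + 2)
    rw [turn_new, cg_y2] at e2
    simp only at e2
    rw [z4_sub0] at e2
    have e3 := fmk_turn (D.cornerR2 x i t) (Sum.inr true, t + 3)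
    rw [turn_new, cg_z3] at e3
    rw [e3, e2, e1]
  · by_cases hA : d = (x, i)
    · subst hA
      rw [sstar_A]
      have e3 := fmk_turn (D.cornerR2 x i t) (Sum.inr true, t + 2)
      rw [turn_new, cg_z2] at e3
      exact e3
    · rw [sstar_old x i t hA]
      have e3 := fmk_turn (D.cornerR2 x i t) (Sum.inl d.1, d.2)
      rw [turn_new, cg_old D x i t hA hB] at e3
      exact e3

/-- The faces after the move. -/
noncomputable def faceEquiv : (D.cornerR2 x i t).Face ≃ D.Face ⊕ Bool where
  toFun := Quot.lift (D.faceFun x i t) (by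
    rintro d _ rfl
    exact (D.faceFun_turn x i t d).symm)
  invFun := fun s => match s with
    | Sum.inl f => Quot.lift (fun d => (D.cornerR2 x i t).fmk (sstar x i t d)) (by
        rintro d _ rfl
        exact (D.fmk_sstar_turn x i t d).symm) f
    | Sum.inr false => (D.cornerR2 x i t).fmk (Sum.inl x, i)
    | Sum.inr true => (D.cornerR2 x i t).fmk (Sum.inr true, t)
  left_inv := by
    intro f
    obtain ⟨d, rfl⟩ := Quot.exists_rep f
    change (match D.faceFun x i t d with
      | Sum.inl f => Quot.lift (fun d => (D.cornerR2 x i t).fmk (sstar x i t d)) _ f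
      | Sum.inr false => (D.cornerR2 x i t).fmk (Sum.inl x, i)
      | Sum.inr true => (D.cornerR2 x i t).fmk (Sum.inr true, t)) = (D.cornerR2 x i t).fmk d
    revert d
    refine dart_cases x i t _ ?_ ?_ ?_ ?_ ?_ ?_ ?_ ?_ ?_ ?_ ?_
    · rw [ff_A]
    · rw [ff_old D x i t (d := (x, i + 1)) (B_ne_A x i)]
      change (D.cornerR2 x i t).fmk (sstar x i t (x, i + 1)) = _
      rw [sstar_old x i t (d := (x, i + 1)) (B_ne_A x i)]
    · intro d hA hB
      rw [ff_old D x i t hA]
      change (D.cornerR2 x i t).fmk (sstar x i t d) = _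
      rw [sstar_old x i t hA]
    · rw [ff_y0]
      change (D.cornerR2 x i t).fmk (sstar x i t (x, i - 1)) = _
      rw [sstar_old x i t (d := (x, i - 1)) (fun h => z4_m10 i (congrArg Prod.snd h))]
      rw [← fmk_turn _ (Sum.inr false, t), turn_new, cg_y0]
    · rw [ff_y1]
      change (D.cornerR2 x i t).fmk (Sum.inr true, t) = _
      rw [← fmk_turn _ (Sum.inr false, t + 1), turn_new, cg_y1]
      simp only
      rw [z4_sub1]
    · rw [ff_y2]
      change (D.cornerR2 x i t).fmk (sstar x i t (x, i + 1)) = _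
      rw [sstar_old x i t (d := (x, i + 1)) (B_ne_A x i)]
      simp only
      rw [← fmk_turn _ (Sum.inl x, i + 1), turn_new, cg_B]
      simp only
      rw [z4_sub3]
    · rw [ff_y3]
      change (D.cornerR2 x i t).fmk (Sum.inl x, i) = _
      rw [← fmk_turn _ (Sum.inr false, t + 3), turn_new, cg_y3]
      simp only
      rw [z4_sub1]
    · rw [ff_z0]
    · rw [ff_z1]
      change (D.cornerR2 x i t).fmk (sstar x i t (x, i - 1)) = _
      rw [sstar_old x i t (d := (x, i - 1)) (fun h => z4_m10 i (congrArg Prod.snd h))]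
      rw [← fmk_turn _ (Sum.inr true, t + 1), turn_new, cg_z1]
      simp only
      rw [z4_sub1, ← fmk_turn _ (Sum.inr false, t), turn_new, cg_y0]
    · rw [ff_z2]
      change (D.cornerR2 x i t).fmk (sstar x i t (x, i)) = _
      rw [sstar_A]
    · rw [ff_z3]
      change (D.cornerR2 x i t).fmk (sstar x i t (x, i + 1)) = _
      rw [sstar_old x i t (d := (x, i + 1)) (B_ne_A x i)]
      simp only
      rw [← fmk_turn _ (Sum.inl x, i + 1), turn_new, cg_B]
      simp only
      rw [z4_sub3, ← fmk_turn _ (Sum.inr false, t + 2), turn_new, cg_y2]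
      simp only
      rw [z4_sub0]
  right_inv := by
    rintro (f | b)
    · obtain ⟨d, rfl⟩ := Quot.exists_rep f
      change D.faceFun x i t (sstar x i t d) = Sum.inl (D.fmk d)
      by_cases hA : d = (x, i)
      · subst hA; rw [sstar_A, ff_z2]
      · rw [sstar_old x i t hA, ff_old D x i t hA]
    · cases b
      · exact D.ff_A x i t
      · exact D.ff_z0 x i t

end Face

end Diagram

end Pool.Agent.H418R3
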