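import Mathlib
import Pool.Agent.H418R3.WarpPlanar

/-! The corner Reidemeister II move preserves planarity: pieces, and the count. -/

namespace Pool.Agent.H418R3

namespace Diagram

variable {X : Type} (D : Diagram X) (x : X) (i t : ZMod 4)

/-- class of a dart in the pieces -/
def pmk (d : Dart X) : D.Piece := Quot.mk _ d

theorem pmk_vertex {d d' : Dart X} (h : d'.1 = d.1) : D.pmk d' = D.pmk d :=
  (Quot.sound (r := fun d d' : Dart X => d'.1 = d.1 ∨ d' = D.glue d) (Or.inl h)).symm

theorem pmk_glue (d : Dart X) : D.pmk (D.glue d) = D.pmk d :=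
  (Quot.sound (r := fun d d' : Dart X => d'.1 = d.1 ∨ d' = D.glue d) (Or.inr rfl)).symm

/-- pieces of the new darts -/
def pieceFun : Dart (X ⊕ Bool) → D.Piece
  | (Sum.inl u, j) => D.pmk (u, j)
  | (Sum.inr _, _) => D.pmk (x, i)

theorem pf_stub (d : Dart X) : D.pieceFun x i (stub x i t d) = D.pmk d := by
  by_cases hA : d = (x, i)
  · subst hA; rw [stub_A]; rfl
  · by_cases hB : d = (x, i + 1)
    · subst hB; rw [stub_B]; exact D.pmk_vertex rfl
    · rw [stub_old x i t hA hB]; rfl

theorem pf_glue (d : Dart (X ⊕ Bool)) :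
    D.pieceFun x i (D.cornerGlue x i t d) = D.pieceFun x i d := by
  revert d
  refine dart_cases x i t _ ?_ ?_ ?_ ?_ ?_ ?_ ?_ ?_ ?_ ?_ ?_
  · rw [cg_A]; rfl
  · rw [cg_B]; exact D.pmk_vertex rfl
  · intro d hA hB
    rw [cg_old D x i t hA hB, pf_stub]
    exact D.pmk_glue d
  · rw [cg_y0]; rfl
  · rw [cg_y1]; rfl
  · rw [cg_y2]; rfl
  · rw [cg_y3]; exact D.pmk_vertex rfl
  · rw [cg_z0]; rfl
  · rw [cg_z1]; rfl
  · rw [cg_z2, pf_stub]; exact D.pmk_glue _
  · rw [cg_z3, pf_stub]; exact (D.pmk_glue _).trans (D.pmk_vertex rfl)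

theorem pmk_stub (d : Dart X) :
    (D.cornerR2 x i t).pmk (stub x i t d) = (D.cornerR2 x i t).pmk (Sum.inl d.1, d.2) := by
  have hyz : (D.cornerR2 x i t).pmk (Sum.inr true, t) = (D.cornerR2 x i t).pmk (Sum.inr false, t) := by
    have h := pmk_glue (D.cornerR2 x i t) (Sum.inr false, t + 2)
    have e : (D.cornerR2 x i t).glue (Sum.inr false, t + 2) = (Sum.inr true, t) := cg_y2 D x i t
    rw [e] at h
    rw [h]
    exact pmk_vertex _ rfl
  have hx : (D.cornerR2 x i t).pmk (Sum.inr false, t) = (D.cornerR2 x i t).pmk (Sum.inl x, i) := by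
    have h := pmk_glue (D.cornerR2 x i t) (Sum.inl x, i)
    have e : (D.cornerR2 x i t).glue (Sum.inl x, i) = (Sum.inr false, t) := cg_A D x i t
    rw [e] at h
    exact h
  by_cases hA : d = (x, i)
  · subst hA
    rw [stub_A, pmk_vertex (D.cornerR2 x i t) (d := (Sum.inr true, t)) (d' := (Sum.inr true, t + 2)) rfl,
      hyz, hx]
  · by_cases hB : d = (x, i + 1)
    · subst hB
      rw [stub_B, pmk_vertex (D.cornerR2 x i t) (d := (Sum.inr true, t)) (d' := (Sum.inr true, t + 3)) rfl,
        hyz, hx]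
      exact pmk_vertex _ rfl
    · rw [stub_old x i t hA hB]

/-- The pieces after the move. -/
noncomputable def pieceEquiv : (D.cornerR2 x i t).Piece ≃ D.Piece where
  toFun := Quot.lift (D.pieceFun x i) (by
    rintro ⟨u, j⟩ d' (h | rfl)
    · obtain ⟨u', j'⟩ := d'
      simp only at h
      subst h
      rcases u' with u | b
      · exact D.pmk_vertex rfl
      · rfl
    · exact (D.pf_glue x i t _).symm)
  invFun := Quot.lift (fun d => (D.cornerR2 x i t).pmk (Sum.inl d.1, d.2)) (by
    rintro d d' (h | rfl)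
    · exact pmk_vertex _ (by rw [h])
    · rw [← pmk_stub, ← pmk_stub, ← cg_stub]
      exact (pmk_glue (D.cornerR2 x i t) (stub x i t d)).symm)
  left_inv := by
    intro f
    obtain ⟨d, rfl⟩ := Quot.exists_rep f
    change Quot.lift (fun d => (D.cornerR2 x i t).pmk (Sum.inl d.1, d.2)) _ (D.pieceFun x i d)
      = (D.cornerR2 x i t).pmk d
    have hyz : (D.cornerR2 x i t).pmk (Sum.inr true, t)
        = (D.cornerR2 x i t).pmk (Sum.inr false, t) := by
      have h := pmk_glue (D.cornerR2 x i t) (Sum.inr false, t + 2)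
      have e : (D.cornerR2 x i t).glue (Sum.inr false, t + 2) = (Sum.inr true, t) := cg_y2 D x i t
      rw [e] at h
      rw [h]
      exact pmk_vertex _ rfl
    have hx : (D.cornerR2 x i t).pmk (Sum.inr false, t) = (D.cornerR2 x i t).pmk (Sum.inl x, i) := by
      have h := pmk_glue (D.cornerR2 x i t) (Sum.inl x, i)
      have e : (D.cornerR2 x i t).glue (Sum.inl x, i) = (Sum.inr false, t) := cg_A D x i t
      rw [e] at h
      exact h
    obtain ⟨u | b, j⟩ := d
    · rfl
    · change (D.cornerR2 x i t).pmk (Sum.inl x, i) = (D.cornerR2 x i t).pmk (Sum.inr b, j)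
      cases b
      · rw [← hx]; exact pmk_vertex _ rfl
      · rw [← hx, ← hyz]; exact pmk_vertex _ rfl
  right_inv := by
    intro f
    obtain ⟨d, rfl⟩ := Quot.exists_rep f
    rfl

instance [Finite X] : Finite D.Face := Quot.finite _
instance [Finite X] : Finite D.Piece := Quot.finite _

theorem cornerR2_planar [Finite X] (hD : D.Planar) : (D.cornerR2 x i t).Planar := by
  unfold Planar at *
  rw [Nat.card_congr (D.faceEquiv x i t), Nat.card_congr (D.pieceEquiv x i t), Nat.card_sum,
    Nat.card_sum, hD]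
  simp
  ring

end Diagram

end Pool.Agent.H418R3
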