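import Mathlib
import Pool.Agent.H418R3.WarpPlanar2

/-! Planar diagrams have a checkerboard colouring (from Euler's formula). -/

namespace Pool.Agent.H418R3

namespace Diagram

section Checker

open scoped Classical

variable {X : Type} (D : Diagram X)

/-- edges, represented by their outgoing dart -/
abbrev OutDart : Type := {d : Dart X // D.out d = true}

/-- every dart is an outgoing dart or glued to one -/
def dartFun : D.OutDart ⊕ D.OutDart → Dart X
  | Sum.inl e => e.1
  | Sum.inr e => D.glue e.1

theorem dartFun_bij : Function.Bijective D.dartFun := by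
  constructor
  · rintro (e | e) (f | f) h
    · exact congrArg _ (Subtype.ext h)
    · exfalso
      have h1 : D.out e.1 = true := e.2
      have h2 : D.out (D.glue f.1) = false := by rw [D.out_glue, f.2]; rfl
      have h3 : e.1 = D.glue f.1 := h
      rw [h3, h2] at h1
      exact absurd h1 (by simp)
    · exfalso
      have h1 : D.out f.1 = true := f.2
      have h2 : D.out (D.glue e.1) = false := by rw [D.out_glue, e.2]; rfl
      have h3 : D.glue e.1 = f.1 := h
      rw [← h3, h2] at h1
      exact absurd h1 (by simp)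
    · have h3 : D.glue e.1 = D.glue f.1 := h
      have h4 := congrArg D.glue h3
      rw [D.glue_glue, D.glue_glue] at h4
      exact congrArg _ (Subtype.ext h4)
  · intro d
    by_cases h : D.out d = true
    · exact ⟨Sum.inl ⟨d, h⟩, rfl⟩
    · exact ⟨Sum.inr ⟨D.glue d, by rw [D.out_glue]; simpa using h⟩, D.glue_glue d⟩

/-- every dart is an outgoing dart or glued to one -/
noncomputable def dartEquiv : D.OutDart ⊕ D.OutDart ≃ Dart X :=
  Equiv.ofBijective D.dartFun D.dartFun_bij

variable [Fintype X]

theorem sum_darts {M : Type*} [AddCommMonoid M] (f : Dart X → M) :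
    ∑ e : D.OutDart, (f e.1 + f (D.glue e.1)) = ∑ d : Dart X, f d := by
  rw [← Equiv.sum_comp D.dartEquiv f, Fintype.sum_sum_type, Finset.sum_add_distrib]
  rfl

theorem card_outDart : Fintype.card D.OutDart = 2 * Fintype.card X := by
  have h := Fintype.card_congr D.dartEquiv
  rw [Fintype.card_sum, Fintype.card_prod] at h
  have h4 : Fintype.card (ZMod 4) = 4 := ZMod.card 4
  rw [h4] at h
  omega

/-- incidence matrix -/
noncomputable def inc : Matrix D.OutDart X (ZMod 2) :=
  fun e v => (if e.1.1 = v then 1 else 0) + (if (D.glue e.1).1 = v then 1 else 0)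

theorem inc_mulVec (g : X → ZMod 2) (e : D.OutDart) :
    (D.inc.mulVec g) e = g e.1.1 + g (D.glue e.1).1 := by
  simp only [Matrix.mulVec, dotProduct, inc, add_mul, Finset.sum_add_distrib, ite_mul, one_mul,
    zero_mul, Finset.sum_ite_eq, Finset.mem_univ, if_true]

theorem incT_mulVec (z : Dart X → ZMod 2) (hz : ∀ d, z (D.glue d) = z d) (v : X) :
    (D.inc.transpose.mulVec (fun e : D.OutDart => z e.1)) v = ∑ j : ZMod 4, z (v, j) := by
  have h1 : (D.inc.transpose.mulVec (fun e : D.OutDart => z e.1)) v
      = ∑ e : D.OutDart, ((fun d : Dart X => if d.1 = v then z d else 0) e.1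
        + (fun d : Dart X => if d.1 = v then z d else 0) (D.glue e.1)) := by
    simp only [Matrix.mulVec, dotProduct, inc, Matrix.transpose_apply]
    refine Finset.sum_congr rfl fun e _ => ?_
    rw [add_mul, ite_mul, ite_mul, one_mul, zero_mul, hz]
  rw [h1, D.sum_darts (fun d : Dart X => if d.1 = v then z d else 0), Fintype.sum_prod_type]
  simp only
  rw [Finset.sum_eq_single v]
  · simp
  · intro u _ hu
    simp [hu]
  · intro h; exact absurd (Finset.mem_univ v) h

/-- pull back functions on pieces to functions on crossings -/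
noncomputable def pullV : (D.Piece → ZMod 2) →ₗ[ZMod 2] (X → ZMod 2) where
  toFun f := fun v => f (D.pmk (v, 0))
  map_add' _ _ := rfl
  map_smul' _ _ := rfl

/-- the piece of a face -/
def facePiece : D.Face → D.Piece := Quot.lift (fun d => D.pmk d) (by
  rintro d _ rfl
  have h1 : D.pmk (D.turn d) = D.pmk (D.glue d) := D.pmk_vertex rfl
  rw [h1, D.pmk_glue])

/-- pull back functions on pieces to functions on faces -/
noncomputable def pullF : (D.Piece → ZMod 2) →ₗ[ZMod 2] (D.Face → ZMod 2) where
  toFun f := fun a => f (D.facePiece a)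
  map_add' _ _ := rfl
  map_smul' _ _ := rfl

/-- coboundary -/
noncomputable def cob : (D.Face → ZMod 2) →ₗ[ZMod 2] (D.OutDart → ZMod 2) where
  toFun c := fun e => c (D.fmk e.1) + c (D.fmk (D.glue e.1))
  map_add' _ _ := by funext e; simp only [Pi.add_apply]; ring
  map_smul' _ _ := by
    funext e; simp only [Pi.smul_apply, smul_eq_mul, RingHom.id_apply]; ring

theorem z2_eq {a b : ZMod 2} (h : a + b = 0) : a = b := by
  revert h; revert a b; decide

theorem ker_inc_le : LinearMap.ker D.inc.mulVecLin ≤ LinearMap.range D.pullV := by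
  intro g hg
  rw [LinearMap.mem_ker] at hg
  have hE : ∀ e : D.OutDart, g e.1.1 = g (D.glue e.1).1 := by
    intro e
    apply z2_eq
    rw [← D.inc_mulVec g e]
    exact congrFun hg e
  have hall : ∀ d : Dart X, g (D.glue d).1 = g d.1 := by
    intro d
    by_cases h : D.out d = true
    · exact (hE ⟨d, h⟩).symm
    · have h' : D.out (D.glue d) = true := by rw [D.out_glue]; simpa using h
      have := hE ⟨D.glue d, h'⟩
      simp only [D.glue_glue] at this
      exact this
  refine ⟨Quot.lift (fun d => g d.1) ?_, ?_⟩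
  · rintro d d' (h | rfl)
    · rw [h]
    · exact (hall d).symm
  · funext v; rfl

theorem ker_cob_le : LinearMap.ker D.cob ≤ LinearMap.range D.pullF := by
  intro c hc
  rw [LinearMap.mem_ker] at hc
  have hE : ∀ e : D.OutDart, c (D.fmk e.1) = c (D.fmk (D.glue e.1)) := by
    intro e
    apply z2_eq
    exact congrFun hc e
  have hall : ∀ d : Dart X, c (D.fmk (D.glue d)) = c (D.fmk d) := by
    intro d
    by_cases h : D.out d = true
    · exact (hE ⟨d, h⟩).symm
    · have h' : D.out (D.glue d) = true := by rw [D.out_glue]; simpa using h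
      have := hE ⟨D.glue d, h'⟩
      simp only [D.glue_glue] at this
      exact this
  -- rotation
  have hrot : ∀ (v : X) (j : ZMod 4), c (D.fmk (v, j - 1)) = c (D.fmk (v, j)) := by
    intro v j
    have h1 := D.fmk_turn (D.glue (v, j))
    have h2 : D.turn (D.glue (v, j)) = (v, j - 1) := by
      unfold turn; rw [D.glue_glue]
    rw [h2] at h1
    rw [h1, hall]
  have hrot' : ∀ (v : X) (j : ZMod 4), c (D.fmk (v, j)) = c (D.fmk (v, 0)) := by
    intro v j
    have e0 := hrot v 0
    have e1 := hrot v 1
    have e2 := hrot v 2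
    have e3 := hrot v 3
    have s1 : (1 : ZMod 4) - 1 = 0 := by decide
    have s2 : (2 : ZMod 4) - 1 = 1 := by decide
    have s3 : (3 : ZMod 4) - 1 = 2 := by decide
    rw [s1] at e1; rw [s2] at e2; rw [s3] at e3
    have hj : j = 0 ∨ j = 1 ∨ j = 2 ∨ j = 3 := by decide +revert
    rcases hj with rfl | rfl | rfl | rfl
    · rfl
    · exact e1.symm
    · rw [← e2, ← e1]
    · rw [← e3, ← e2, ← e1]
  refine ⟨Quot.lift (fun d => c (D.fmk d)) ?_, ?_⟩
  · rintro ⟨v, j⟩ ⟨v', j'⟩ (h | h)
    · simp only at h
      subst h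
      rw [hrot' v' j, hrot' v' j']
    · rw [h]; exact (hall _).symm
  · funext a
    obtain ⟨d, rfl⟩ := Quot.exists_rep a
    rfl

theorem cob_le_ker : LinearMap.range D.cob ≤ LinearMap.ker D.inc.transpose.mulVecLin := by
  rintro _ ⟨c, rfl⟩
  rw [LinearMap.mem_ker]
  funext v
  rw [Matrix.mulVecLin_apply]
  have h1 := D.incT_mulVec (fun d => c (D.fmk d) + c (D.fmk (D.glue d)))
    (fun d => by simp only [D.glue_glue]; ring) v
  have h2 : D.cob c = fun e : D.OutDart => c (D.fmk e.1) + c (D.fmk (D.glue e.1)) := rfl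
  rw [h2, h1]
  have h3 : ∀ j : ZMod 4, c (D.fmk (D.glue (v, j))) = c (D.fmk (v, j - 1)) := by
    intro j
    have h1 := D.fmk_turn (D.glue (v, j))
    have h2 : D.turn (D.glue (v, j)) = (v, j - 1) := by
      unfold turn; rw [D.glue_glue]
    rw [h2] at h1
    rw [h1]
  simp only [h3]
  rw [Finset.sum_add_distrib]
  have h4 : ∑ j : ZMod 4, c (D.fmk (v, j - 1)) = ∑ j : ZMod 4, c (D.fmk (v, j)) :=
    Equiv.sum_comp (Equiv.subRight (1 : ZMod 4)) (fun j => c (D.fmk (v, j)))
  rw [h4]
  exact CharTwo.add_self_eq_zero _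

theorem one_mem_ker : (fun _ : D.OutDart => (1 : ZMod 2)) ∈
    LinearMap.ker D.inc.transpose.mulVecLin := by
  rw [LinearMap.mem_ker]
  funext v
  rw [Matrix.mulVecLin_apply]
  have h1 := D.incT_mulVec (fun _ => 1) (fun _ => rfl) v
  rw [h1]
  rw [Finset.sum_const, Finset.card_univ, ZMod.card 4]
  have h4 : (4 : ℕ) • (1 : ZMod 2) = 0 := by decide
  exact h4

theorem checkerboard_fintype (hD : D.Planar) :
    ∃ c : D.Face → ZMod 2, ∀ d, c (D.fmk d) + c (D.fmk (D.glue d)) = 1 := by
  have : Fintype D.Face := Fintype.ofFinite _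
  have : Fintype D.Piece := Fintype.ofFinite _
  have hP : Fintype.card D.Face = Fintype.card X + 2 * Fintype.card D.Piece := by
    have := hD
    unfold Planar at this
    rwa [Nat.card_eq_fintype_card, Nat.card_eq_fintype_card, Nat.card_eq_fintype_card] at this
  -- rank of `inc`
  have r1 := LinearMap.finrank_range_add_finrank_ker D.inc.mulVecLin
  have k1 : Module.finrank (ZMod 2) (LinearMap.ker D.inc.mulVecLin) ≤ Fintype.card D.Piece :=
    (Submodule.finrank_mono D.ker_inc_le).trans
      ((LinearMap.finrank_range_le _).trans (by rw [Module.finrank_fintype_fun_eq_card]))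
  have r2 := LinearMap.finrank_range_add_finrank_ker D.inc.transpose.mulVecLin
  have rT : Module.finrank (ZMod 2) (LinearMap.range D.inc.transpose.mulVecLin)
      = Module.finrank (ZMod 2) (LinearMap.range D.inc.mulVecLin) := Matrix.rank_transpose _
  have r3 := LinearMap.finrank_range_add_finrank_ker D.cob
  have k3 : Module.finrank (ZMod 2) (LinearMap.ker D.cob) ≤ Fintype.card D.Piece :=
    (Submodule.finrank_mono D.ker_cob_le).trans
      ((LinearMap.finrank_range_le _).trans (by rw [Module.finrank_fintype_fun_eq_card]))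
  rw [Module.finrank_fintype_fun_eq_card] at r1 r2 r3
  rw [D.card_outDart] at r2
  have hle : Module.finrank (ZMod 2) (LinearMap.ker D.inc.transpose.mulVecLin)
      ≤ Module.finrank (ZMod 2) (LinearMap.range D.cob) := by
    rw [rT] at r2
    omega
  have heq := Submodule.eq_of_le_of_finrank_le D.cob_le_ker hle
  have h1 := D.one_mem_ker
  rw [← heq] at h1
  obtain ⟨c, hc⟩ := h1
  refine ⟨c, fun d => ?_⟩
  by_cases h : D.out d = true
  · exact congrFun hc ⟨d, h⟩
  · have h' : D.out (D.glue d) = true := by rw [D.out_glue]; simpa using h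
    have h2 := congrFun hc ⟨D.glue d, h'⟩
    change c (D.fmk (D.glue d)) + c (D.fmk (D.glue (D.glue d))) = 1 at h2
    rw [D.glue_glue, add_comm] at h2
    exact h2

end Checker

theorem checkerboard {X : Type} [Finite X] (D : Diagram X) (hD : D.Planar) :
    ∃ c : D.Face → ZMod 2, ∀ d, c (D.fmk d) + c (D.fmk (D.glue d)) = 1 := by
  have : Fintype X := Fintype.ofFinite X
  exact D.checkerboard_fintype hD

end Diagram

end Pool.Agent.H418R3
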