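import Mathlib
import Pool.Agent.H418R3.WarpChecker

/-! Potentials on link diagrams and the induction step. -/

namespace Pool.Agent.H418R3

namespace Diagram

/-- `+1` on the over-strand, `-1` on the under-strand -/
def sgn (j : ZMod 4) : ℤ := if j = 1 ∨ j = 3 then 1 else -1

theorem sgn_add_two (j : ZMod 4) : sgn (j + 2) = sgn j := by
  unfold sgn; revert j; decide

theorem z4_add4 (t : ZMod 4) : t + 2 + 2 = t := by decide +revert
theorem z4_add5 (t : ZMod 4) : t + 3 + 2 = t + 1 := by decide +revert
theorem z4_add3 (t : ZMod 4) : t + 1 + 2 = t + 3 := by decide +revert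

/-- a potential, correct outside `bad` and reversed at `bad` -/
structure Pot {X : Type} (D : Diagram X) (bad : X → Prop) (h : Dart X → ℤ) : Prop where
  glue : ∀ d, h (D.glue d) = h d
  nonneg : ∀ d, 0 ≤ h d
  le_two : ∀ d, h d ≤ 2
  good : ∀ x j, ¬ bad x → D.out (x, j) = false → h (x, j + 2) = h (x, j) + sgn j
  badc : ∀ x j, bad x → D.out (x, j) = false →
    h (x, j + 2) = h (x, j) - sgn j ∧ h (x, j) ≤ 1 ∧ h (x, j + 2) ≤ 1

section Step

open scoped Classical

variable {X : Type} (D : Diagram X) (x : X) (i t : ZMod 4) (h : Dart X → ℤ)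

/-- the new potential -/
noncomputable def newPot : Dart (X ⊕ Bool) → ℤ
  | (Sum.inl u, j) => if (u, j) = (x, i) ∨ (u, j) = (x, i + 1) then 2 else h (u, j)
  | (Sum.inr false, j) => if j = t ∨ j = t + 3 then 2 else 1
  | (Sum.inr true, j) => if j = t ∨ j = t + 1 then 1 else 0

theorem np_A : newPot x i t h (Sum.inl x, i) = 2 := by
  dsimp only [newPot]; rw [if_pos (Or.inl rfl)]
theorem np_B : newPot x i t h (Sum.inl x, i + 1) = 2 := by
  dsimp only [newPot]; rw [if_pos (Or.inr rfl)]
theorem np_old {d : Dart X} (hA : d ≠ (x, i)) (hB : d ≠ (x, i + 1)) :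
    newPot x i t h (Sum.inl d.1, d.2) = h d := by
  dsimp only [newPot]; rw [if_neg (by rintro (h | h); exacts [hA h, hB h])]
theorem np_y0 : newPot x i t h (Sum.inr false, t) = 2 := by
  dsimp only [newPot]; rw [if_pos (Or.inl rfl)]
theorem np_y1 : newPot x i t h (Sum.inr false, t + 1) = 1 := by
  dsimp only [newPot]; rw [if_neg (by rintro (h | h); exacts [z4_10 t h, z4_13 t h])]
theorem np_y2 : newPot x i t h (Sum.inr false, t + 2) = 1 := by
  dsimp only [newPot]; rw [if_neg (by rintro (h | h); exacts [z4_20 t h, z4_23 t h])]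
theorem np_y3 : newPot x i t h (Sum.inr false, t + 3) = 2 := by
  dsimp only [newPot]; rw [if_pos (Or.inr rfl)]
theorem np_z0 : newPot x i t h (Sum.inr true, t) = 1 := by
  dsimp only [newPot]; rw [if_pos (Or.inl rfl)]
theorem np_z1 : newPot x i t h (Sum.inr true, t + 1) = 1 := by
  dsimp only [newPot]; rw [if_pos (Or.inr rfl)]
theorem np_z2 : newPot x i t h (Sum.inr true, t + 2) = 0 := by
  dsimp only [newPot]; rw [if_neg (by rintro (h | h); exacts [z4_20 t h, z4_21 t h])]
theorem np_z3 : newPot x i t h (Sum.inr true, t + 3) = 0 := by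
  dsimp only [newPot]; rw [if_neg (by rintro (h | h); exacts [z4_30 t h, z4_31 t h])]

theorem np_x2 : newPot x i t h (Sum.inl x, i + 2) = h (x, i + 2) :=
  np_old x i t h (d := (x, i + 2)) (fun e => z4_20 i (congrArg Prod.snd e))
    (fun e => z4_21 i (congrArg Prod.snd e))
theorem np_x3 : newPot x i t h (Sum.inl x, i + 3) = h (x, i + 3) :=
  np_old x i t h (d := (x, i + 3)) (fun e => z4_30 i (congrArg Prod.snd e))
    (fun e => z4_31 i (congrArg Prod.snd e))

theorem np_stub (hA : h (x, i) = 0) (hB : h (x, i + 1) = 0) (d : Dart X) :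
    newPot x i t h (stub x i t d) = h d := by
  by_cases h1 : d = (x, i)
  · subst h1; rw [stub_A, np_z2, hA]
  · by_cases h2 : d = (x, i + 1)
    · subst h2; rw [stub_B, np_z3, hB]
    · rw [stub_old x i t h1 h2, np_old x i t h h1 h2]

theorem glue_new (d : Dart (X ⊕ Bool)) : (D.cornerR2 x i t).glue d = D.cornerGlue x i t d := rfl

/-- bad crossings after the move -/
def newBad (bad : X → Prop) (x : X) : X ⊕ Bool → Prop
  | Sum.inl u => bad u ∧ u ≠ x
  | Sum.inr _ => False

theorem pot_core {bad : X → Prop} (hP : Pot D bad h) (hA : h (x, i) = 0) (hB : h (x, i + 1) = 0)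
    (hA2 : h (x, i + 2) = 1) (hB2 : h (x, i + 3) = 1)
    (hs : (D.out (x, i) = true ∧ D.out (x, i + 1) = false ∧ sgn i = 1 ∧ sgn (i + 1) = -1
            ∧ sgn t = -1 ∧ sgn (t + 1) = 1) ∨
          (D.out (x, i) = false ∧ D.out (x, i + 1) = true ∧ sgn i = -1 ∧ sgn (i + 1) = 1
            ∧ sgn t = 1 ∧ sgn (t + 1) = -1)) :
    Pot (D.cornerR2 x i t) (newBad bad x) (newPot x i t h) where
  glue := by
    refine dart_cases x i t _ ?_ ?_ ?_ ?_ ?_ ?_ ?_ ?_ ?_ ?_ ?_
    · rw [glue_new, cg_A, np_y0, np_A]
    · rw [glue_new, cg_B, np_y3, np_B]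
    · intro d h1 h2
      rw [glue_new, cg_old D x i t h1 h2, np_stub x i t h hA hB, np_old x i t h h1 h2, hP.glue]
    · rw [glue_new, cg_y0, np_y0, np_A]
    · rw [glue_new, cg_y1, np_y1, np_z1]
    · rw [glue_new, cg_y2, np_y2, np_z0]
    · rw [glue_new, cg_y3, np_y3, np_B]
    · rw [glue_new, cg_z0, np_z0, np_y2]
    · rw [glue_new, cg_z1, np_z1, np_y1]
    · rw [glue_new, cg_z2, np_stub x i t h hA hB, hP.glue, np_z2, hA]
    · rw [glue_new, cg_z3, np_stub x i t h hA hB, hP.glue, np_z3, hB]
  nonneg := by
    rintro ⟨u | b, j⟩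
    · dsimp only [newPot]
      split_ifs
      · norm_num
      · exact hP.nonneg _
    · cases b <;> dsimp only [newPot] <;> split_ifs <;> norm_num
  le_two := by
    rintro ⟨u | b, j⟩
    · dsimp only [newPot]
      split_ifs
      · norm_num
      · exact hP.le_two _
    · cases b <;> dsimp only [newPot] <;> split_ifs <;> norm_num
  good := by
    rintro (u | b) j hb ho
    · by_cases hu : u = x
      · subst hu
        have ho' : D.out (u, j) = false := ho
        rcases z4_cases i j with rfl | rfl | rfl | rfl
        · rcases hs with hs | hs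
          · rw [hs.1] at ho'; exact absurd ho' (by simp)
          · rw [np_x2, np_A, hA2, hs.2.2.1]; norm_num
        · rcases hs with hs | hs
          · rw [z4_add3, np_x3, np_B, hB2, hs.2.2.2.1]; norm_num
          · rw [hs.2.1] at ho'; exact absurd ho' (by simp)
        · rcases hs with hs | hs
          · rw [z4_add4, np_x2, np_A, hA2, sgn_add_two, hs.2.2.1]; norm_num
          · rw [D.out_opp, hs.1] at ho'; exact absurd ho' (by simp)
        · rcases hs with hs | hs
          · rw [← z4_add3, D.out_opp, hs.2.1] at ho'; exact absurd ho' (by simp)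
          · rw [z4_add5, np_x3, np_B, hB2, ← z4_add3, sgn_add_two, hs.2.2.2.1]; norm_num
      · have hb' : ¬ bad u := fun hbu => hb ⟨hbu, hu⟩
        have e1 := np_old x i t h (d := (u, j)) (fun e => hu (congrArg Prod.fst e))
          (fun e => hu (congrArg Prod.fst e))
        have e2 := np_old x i t h (d := (u, j + 2)) (fun e => hu (congrArg Prod.fst e))
          (fun e => hu (congrArg Prod.fst e))
        change newPot x i t h (Sum.inl u, j + 2) = newPot x i t h (Sum.inl u, j) + sgn j
        rw [show newPot x i t h (Sum.inl u, j + 2) = h (u, j + 2) from e2,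
          show newPot x i t h (Sum.inl u, j) = h (u, j) from e1]
        exact hP.good u j hb' ho
    · cases b
      · rcases z4_cases t j with rfl | rfl | rfl | rfl
        · rcases hs with hs | hs
          · rw [np_y2, np_y0, hs.2.2.2.2.1]; norm_num
          · exfalso
            have : D.cornerOut x i j (Sum.inr false, j) = false := ho
            rw [co_y0, hs.1] at this; exact absurd this (by simp)
        · rcases hs with hs | hs
          · rw [z4_add3, np_y3, np_y1, hs.2.2.2.2.2]; norm_num
          · exfalso
            have : D.cornerOut x i t (Sum.inr false, t + 1) = false := ho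
            rw [co_y1, hs.2.1] at this; exact absurd this (by simp)
        · rcases hs with hs | hs
          · exfalso
            have : D.cornerOut x i t (Sum.inr false, t + 2) = false := ho
            rw [co_y2, hs.1] at this; exact absurd this (by simp)
          · rw [z4_add4, np_y2, np_y0, sgn_add_two, hs.2.2.2.2.1]; norm_num
        · rcases hs with hs | hs
          · exfalso
            have : D.cornerOut x i t (Sum.inr false, t + 3) = false := ho
            rw [co_y3, hs.2.1] at this; exact absurd this (by simp)
          · rw [z4_add5, np_y3, np_y1, ← z4_add3, sgn_add_two, hs.2.2.2.2.2]; norm_num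
      · rcases z4_cases t j with rfl | rfl | rfl | rfl
        · rcases hs with hs | hs
          · rw [np_z2, np_z0, hs.2.2.2.2.1]; norm_num
          · exfalso
            have : D.cornerOut x i j (Sum.inr true, j) = false := ho
            rw [co_z0, hs.1] at this; exact absurd this (by simp)
        · rcases hs with hs | hs
          · exfalso
            have : D.cornerOut x i t (Sum.inr true, t + 1) = false := ho
            rw [co_z1, hs.2.1] at this; exact absurd this (by simp)
          · rw [z4_add3, np_z3, np_z1, hs.2.2.2.2.2]; norm_num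
        · rcases hs with hs | hs
          · exfalso
            have : D.cornerOut x i t (Sum.inr true, t + 2) = false := ho
            rw [co_z2, hs.1] at this; exact absurd this (by simp)
          · rw [z4_add4, np_z2, np_z0, sgn_add_two, hs.2.2.2.2.1]; norm_num
        · rcases hs with hs | hs
          · rw [z4_add5, np_z3, np_z1, ← z4_add3, sgn_add_two, hs.2.2.2.2.2]; norm_num
          · exfalso
            have : D.cornerOut x i t (Sum.inr true, t + 3) = false := ho
            rw [co_z3, hs.2.1] at this; exact absurd this (by simp)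
  badc := by
    rintro (u | b) j hb ho
    · obtain ⟨hbu, hu⟩ := hb
      have e1 : newPot x i t h (Sum.inl u, j) = h (u, j) :=
        np_old x i t h (d := (u, j)) (fun e => hu (congrArg Prod.fst e))
          (fun e => hu (congrArg Prod.fst e))
      have e2 : newPot x i t h (Sum.inl u, j + 2) = h (u, j + 2) :=
        np_old x i t h (d := (u, j + 2)) (fun e => hu (congrArg Prod.fst e))
          (fun e => hu (congrArg Prod.fst e))
      rw [e1, e2]
      exact hP.badc u j hbu ho
    · exact absurd hb (by simp [newBad])

end Step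

end Diagram

end Pool.Agent.H418R3
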