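import Mathlib
import Pool.Agent.H418R3.WarpPot

/-! Link diagrams on the sphere, and the main theorem on the warping span. -/

namespace Pool.Agent.H418R3

/-- An oriented link diagram on the sphere: a finite set `X` of crossings, and a planar diagram
with these crossings. -/
structure LinkDiagram where
  X : Type
  finite : Finite X
  diag : Diagram X
  planar : diag.Planar

namespace LinkDiagram

/-- The Reidemeister II move in the corner of the crossing `x` between the darts `i` and `i + 1`
(the strand leaving along the dart `i` passes under the other strand if `t` is even, over it if `t`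
is odd). -/
noncomputable def cornerR2 (L : LinkDiagram) (x : L.X) (i t : ZMod 4) : LinkDiagram where
  X := L.X ⊕ Bool
  finite := haveI := L.finite; inferInstance
  diag := L.diag.cornerR2 x i t
  planar := haveI := L.finite; L.diag.cornerR2_planar x i t L.planar

/-- `R2Step L L'`: the diagram `L'` arises from `L` by one Reidemeister II move performed in the
corner of a crossing. -/
inductive R2Step : LinkDiagram → LinkDiagram → Prop
  | corner (L : LinkDiagram) (x : L.X) (i t : ZMod 4) : R2Step L (L.cornerR2 x i t)

/-- The warping span of the diagram. -/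
noncomputable def warp (L : LinkDiagram) : ℝ := L.diag.warp

end LinkDiagram

namespace Diagram

variable {X : Type} (D : Diagram X)

theorem out_next {d : Dart X} : D.out (D.next d) = D.out d := by
  unfold next
  rw [D.out_opp]
  change (!(D.out (D.glue d))) = D.out d
  rw [D.out_glue, Bool.not_not]

theorem out_iter {d : Dart X} (k : ℕ) : D.out (D.next^[k] d) = D.out d := by
  induction k with
  | zero => rfl
  | succ k ih => rw [Function.iterate_succ_apply', D.out_next, ih]

theorem pot_next {h : Dart X → ℤ} (hP : Pot D (fun _ => False) h) {d : Dart X}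
    (hd : D.out d = true) : h (D.next d) = h d + D.passSign d := by
  have h1 := hP.good (D.glue d).1 (D.glue d).2 (fun hf => hf)
    (by change D.out (D.glue d) = false; rw [D.out_glue, hd]; rfl)
  unfold next passSign
  rw [h1]
  change h (D.glue d) + _ = _
  rw [hP.glue]
  rfl

theorem pot_weight {h : Dart X → ℤ} (hP : Pot D (fun _ => False) h) {d : Dart X}
    (hd : D.out d = true) (k : ℕ) : D.weight d k = h (D.next^[k] d) - h d := by
  induction k with
  | zero => simp [weight]
  | succ k ih =>
    have h1 : D.weight d (k + 1) = D.weight d k + D.passSign (D.next^[k] d) := by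
      unfold weight; rw [Finset.sum_range_succ]
    rw [h1, ih, Function.iterate_succ_apply', D.pot_next hP (by rw [D.out_iter, hd])]
    ring

theorem warp_le_half {h : Dart X → ℤ} (hP : Pot D (fun _ => False) h) : D.warp ≤ 1 / 2 := by
  unfold warp
  refine csSup_le ⟨0, Or.inl rfl⟩ ?_
  rintro r (hr | ⟨d, i, j, hd, -, -, rfl⟩)
  · rw [Set.mem_singleton_iff.mp hr]; norm_num
  · have h1 : D.weight d i - D.weight d j ≤ 2 := by
      rw [D.pot_weight hP hd, D.pot_weight hP hd]
      have := hP.le_two (D.next^[i] d)
      have := hP.nonneg (D.next^[j] d)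
      linarith
    have h2 : (D.weight d i : ℝ) - (D.weight d j : ℝ) ≤ 2 := by exact_mod_cast h1
    linarith

/-- one bad crossing can be repaired by a corner Reidemeister II move -/
theorem pot_step {bad : X → Prop} {h : Dart X → ℤ} (hP : Pot D bad h) (x : X) (hx : bad x) :
    ∃ (i t : ZMod 4) (h' : Dart (X ⊕ Bool) → ℤ), Pot (D.cornerR2 x i t) (newBad bad x) h' := by
  -- values at `x`
  have hval : ∀ j : ZMod 4, D.out (x, j) = false → sgn j = 1 → h (x, j) = 1 ∧ h (x, j + 2) = 0 := by
    intro j hj hs
    obtain ⟨h1, h2, h3⟩ := hP.badc x j hx hj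
    rw [hs] at h1
    have h4 := hP.nonneg (x, j)
    have h5 := hP.nonneg (x, j + 2)
    constructor <;> omega
  have hval' : ∀ j : ZMod 4, D.out (x, j) = false → sgn j = -1 →
      h (x, j) = 0 ∧ h (x, j + 2) = 1 := by
    intro j hj hs
    obtain ⟨h1, h2, h3⟩ := hP.badc x j hx hj
    rw [hs] at h1
    have h4 := hP.nonneg (x, j)
    have h5 := hP.nonneg (x, j + 2)
    constructor <;> omega
  have s0 : sgn 0 = -1 := by decide
  have s1 : sgn 1 = 1 := by decide
  have s2 : sgn 2 = -1 := by decide
  have s3 : sgn 3 = 1 := by decide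
  have o2 : D.out (x, 2) = !(D.out (x, 0)) := D.out_opp x 0
  have o3 : D.out (x, 3) = !(D.out (x, 1)) := D.out_opp x 1
  have e1 : (1 : ZMod 4) + 2 = 3 := by decide
  have e2 : (2 : ZMod 4) + 2 = 0 := by decide
  have e3 : (3 : ZMod 4) + 2 = 1 := by decide
  have e0 : (0 : ZMod 4) + 2 = 2 := by decide
  have f0 : (0 : ZMod 4) + 1 = 1 := by decide
  have f1 : (1 : ZMod 4) + 1 = 2 := by decide
  have f2 : (2 : ZMod 4) + 1 = 3 := by decide
  have f3 : (3 : ZMod 4) + 1 = 0 := by decide
  have g0 : (0 : ZMod 4) + 3 = 3 := by decide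
  have g1 : (1 : ZMod 4) + 3 = 0 := by decide
  have g2 : (2 : ZMod 4) + 3 = 1 := by decide
  have g3 : (3 : ZMod 4) + 3 = 2 := by decide
  cases hO : D.out (x, 1) with
  | true =>
    -- over-strand leaves along 1, comes in along 3
    have i3 : D.out (x, 3) = false := by rw [o3, hO]; rfl
    have v3 := hval 3 i3 s3
    rw [e3] at v3
    cases hU : D.out (x, 0) with
    | false =>
      -- under-strand comes in along 0: corner 0, t = 1
      have v0 := hval' 0 hU s0
      rw [e0] at v0
      refine ⟨0, 1, _, pot_core D x 0 1 h hP v0.1 (by rw [f0]; exact v3.2) (by rw [e0]; exact v0.2)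
        (by rw [g0]; exact v3.1) (Or.inr ⟨hU, by rw [f0]; exact hO, s0, by rw [f0]; exact s1, s1,
          by rw [f1]; exact s2⟩)⟩
    | true =>
      -- under-strand comes in along 2: corner 1, t = 0
      have i2 : D.out (x, 2) = false := by rw [o2, hU]; rfl
      have v2 := hval' 2 i2 s2
      rw [e2] at v2
      refine ⟨1, 0, _, pot_core D x 1 0 h hP v3.2 (by rw [f1]; exact v2.1) (by rw [e1]; exact v3.1)
        (by rw [g1]; exact v2.2) (Or.inl ⟨hO, by rw [f1]; exact i2, s1, by rw [f1]; exact s2, s0,
          by rw [f0]; exact s1⟩)⟩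
  | false =>
    -- over-strand comes in along 1, leaves along 3
    have v1 := hval 1 hO s1
    rw [e1] at v1
    have i3 : D.out (x, 3) = true := by rw [o3, hO]; rfl
    cases hU : D.out (x, 0) with
    | false =>
      -- under-strand comes in along 0: corner 3, t = 0
      have v0 := hval' 0 hU s0
      rw [e0] at v0
      refine ⟨3, 0, _, pot_core D x 3 0 h hP v1.2 (by rw [f3]; exact v0.1) (by rw [e3]; exact v1.1)
        (by rw [g3]; exact v0.2) (Or.inl ⟨i3, by rw [f3]; exact hU, s3, by rw [f3]; exact s0, s0,
          by rw [f0]; exact s1⟩)⟩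
    | true =>
      -- under-strand comes in along 2: corner 2, t = 1
      have i2 : D.out (x, 2) = false := by rw [o2, hU]; rfl
      have v2 := hval' 2 i2 s2
      rw [e2] at v2
      refine ⟨2, 1, _, pot_core D x 2 1 h hP v2.1 (by rw [f2]; exact v1.2) (by rw [e2]; exact v2.2)
        (by rw [g2]; exact v1.1) (Or.inr ⟨i2, by rw [f2]; exact i3, s2, by rw [f2]; exact s3, s1,
          by rw [f1]; exact s2⟩)⟩

/-- the initial potential, from the checkerboard colouring -/
theorem pot_init [Finite X] (hD : D.Planar) : ∃ (bad : X → Prop) (h : Dart X → ℤ), Pot D bad h := by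
  classical
  obtain ⟨c, hc⟩ := D.checkerboard hD
  set col : Dart X → ZMod 2 := fun d => c (D.fmk d) with hcol
  have hglue : ∀ d, col (D.glue d) = col d + 1 := by
    intro d
    have := hc d
    have h2 : ∀ a b : ZMod 2, a + b = 1 → b = a + 1 := by decide
    exact h2 _ _ this
  have hrot : ∀ (v : X) (j : ZMod 4), col (v, j - 1) = col (v, j) + 1 := by
    intro v j
    have h1 := D.fmk_turn (D.glue (v, j))
    have h2 : D.turn (D.glue (v, j)) = (v, j - 1) := by
      unfold turn; rw [D.glue_glue]
    rw [h2] at h1
    change c (D.fmk (v, j - 1)) = _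
    rw [h1]; exact hglue _
  have hadd : ∀ a : ZMod 2, a + 1 + 1 = a := by decide
  have hrot2 : ∀ (v : X) (j : ZMod 4), col (v, j + 2) = col (v, j) := by
    intro v j
    have h1 := hrot v (j + 2)
    have h2 := hrot v (j + 1)
    have e1 : j + 2 - 1 = j + 1 := by ring
    have e2 : j + 1 - 1 = j := by ring
    rw [e1] at h1; rw [e2, h1, hadd] at h2
    exact h2.symm
  have hpar : ∀ (v : X) (j : ZMod 4), col (v, j) = if j = 1 ∨ j = 3 then col (v, 1) else
      col (v, 1) + 1 := by
    intro v j
    have e3 : (1 : ZMod 4) + 2 = 3 := by decide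
    have e0 : (1 : ZMod 4) - 1 = 0 := by decide
    have e2 : (0 : ZMod 4) + 2 = 2 := by decide
    have h3 := hrot2 v 1
    have h0 := hrot v 1
    have h2 := hrot2 v 0
    rw [e3] at h3; rw [e0] at h0; rw [e2] at h2
    have hj : j = 0 ∨ j = 1 ∨ j = 2 ∨ j = 3 := by decide +revert
    rcases hj with rfl | rfl | rfl | rfl
    · rw [if_neg (by decide)]; exact h0
    · rw [if_pos (by decide)]
    · rw [if_neg (by decide), h2]; exact h0
    · rw [if_pos (by decide)]; exact h3
  let h : Dart X → ℤ := fun d =>
    if (D.out d = true ∧ col d = 0) ∨ (D.out d = false ∧ col d = 1) then 1 else 0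
  have hin : ∀ d, D.out d = false → h d = if col d = 1 then 1 else 0 := by
    intro d hd
    simp only [h, hd]
    simp
  have hout : ∀ d, D.out d = true → h d = if col d = 0 then 1 else 0 := by
    intro d hd
    simp only [h, hd]
    simp
  have hle : ∀ d, h d ≤ 1 := by
    intro d; simp only [h]; split_ifs <;> norm_num
  refine ⟨fun v => col (v, 1) = 1, h, ?_, ?_, ?_, ?_, ?_⟩
  · intro d
    have key : ∀ a : ZMod 2, (a + 1 = 1 ↔ a = 0) ∧ (a + 1 = 0 ↔ a = 1) := by decide
    cases hd : D.out d with
    | true =>
      have h1 : D.out (D.glue d) = false := by rw [D.out_glue, hd]; rfl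
      rw [hin _ h1, hout _ hd, hglue]
      simp only [(key _).1]
    | false =>
      have h1 : D.out (D.glue d) = true := by rw [D.out_glue, hd]; rfl
      rw [hout _ h1, hin _ hd, hglue]
      simp only [(key _).2]
  · intro d; simp only [h]; split_ifs <;> norm_num
  · intro d; exact (hle d).trans (by norm_num)
  · intro v j hb ho
    have h1 : D.out (v, j + 2) = true := by rw [D.out_opp, ho]; rfl
    rw [hout _ h1, hin _ ho, hrot2, hpar v j]
    have hz : col (v, 1) = 0 := by
      have h2 : ∀ a : ZMod 2, ¬ a = 1 → a = 0 := by decide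
      exact h2 _ hb
    rw [hz]
    unfold sgn
    by_cases hj : j = 1 ∨ j = 3
    · rw [if_pos hj, if_pos hj]; decide
    · rw [if_neg hj, if_neg hj]; decide
  · intro v j hb ho
    refine ⟨?_, hle _, hle _⟩
    have h1 : D.out (v, j + 2) = true := by rw [D.out_opp, ho]; rfl
    rw [hout _ h1, hin _ ho, hrot2, hpar v j]
    have hz : col (v, 1) = 1 := hb
    rw [hz]
    unfold sgn
    by_cases hj : j = 1 ∨ j = 3
    · rw [if_pos hj, if_pos hj]; decide
    · rw [if_neg hj, if_neg hj]; decide

end Diagram

namespace LinkDiagram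

open Diagram

theorem exists_pot (n : ℕ) : ∀ (L : LinkDiagram) (bad : L.X → Prop) (h : Dart L.X → ℤ),
    Pot L.diag bad h → {v | bad v}.ncard = n →
    ∃ L' : LinkDiagram, Relation.ReflTransGen R2Step L L' ∧
      ∃ h' : Dart L'.X → ℤ, Pot L'.diag (fun _ => False) h' := by
  induction n with
  | zero =>
    intro L bad h hP hn
    have := L.finite
    have hb : ∀ v, ¬ bad v := by
      intro v hv
      have : {v | bad v} = ∅ := (Set.ncard_eq_zero (Set.toFinite _)).mp hn
      have h2 : v ∈ {v | bad v} := hv
      rw [this] at h2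
      exact h2
    refine ⟨L, Relation.ReflTransGen.refl, h, hP.glue, hP.nonneg, hP.le_two, ?_, ?_⟩
    · intro x j _ ho; exact hP.good x j (hb x) ho
    · intro x j hf _; exact absurd hf (fun h => h)
  | succ n ih =>
    intro L bad h hP hn
    have := L.finite
    have hne : {v | bad v}.Nonempty := by
      rw [Set.nonempty_iff_ne_empty]
      intro he
      rw [he, Set.ncard_empty] at hn
      omega
    obtain ⟨x, hx⟩ := hne
    obtain ⟨i, t, h', hP'⟩ := L.diag.pot_step hP x hx
    have hcard : {v | newBad bad x v}.ncard = n := by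
      have h1 : {v | newBad bad x v} = Sum.inl '' ({v | bad v} \ {x}) := by
        ext v
        constructor
        · intro hv
          rcases v with u | b
          · exact ⟨u, ⟨hv.1, hv.2⟩, rfl⟩
          · exact absurd hv (fun h => h)
        · rintro ⟨u, ⟨h1, h2⟩, rfl⟩
          exact ⟨h1, h2⟩
      rw [h1, Set.ncard_image_of_injective _ Sum.inl_injective,
        Set.ncard_sdiff_singleton_of_mem hx, hn]
      rfl
    obtain ⟨L', hL', h'', hP''⟩ := ih (L.cornerR2 x i t) (newBad bad x) h' hP' hcard
    exact ⟨L', Relation.ReflTransGen.head (R2Step.corner L x i t) hL', h'', hP''⟩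

/-- Every link diagram can be changed by Reidemeister II moves into a diagram of warping span at
most `1/2`. -/
theorem warp_le_half (L : LinkDiagram) :
    ∃ L' : LinkDiagram, Relation.ReflTransGen R2Step L L' ∧ L'.warp ≤ 1 / 2 := by
  have := L.finite
  obtain ⟨bad, h, hP⟩ := L.diag.pot_init L.planar
  obtain ⟨L', hL', h', hP'⟩ := exists_pot _ L bad h hP rfl
  exact ⟨L', hL', L'.diag.warp_le_half hP'⟩

end LinkDiagram

end Pool.Agent.H418R3
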