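import Mathlib
import Pool.Agent.H418R3.WarpMain

/-! Sanity checks: the set in the definition of `warp` is finite, every component is a finite
cycle of edges, and a component of warping span zero is passed alternatingly. -/

namespace Pool.Agent.H418R3

namespace Diagram

variable {X : Type} (D : Diagram X)

theorem next_injective : Function.Injective D.next := by
  intro d d' h
  unfold next at h
  have h1 := congrArg Prod.fst h
  have h2 := congrArg Prod.snd h
  simp only at h1 h2
  have h3 : D.glue d = D.glue d' := Prod.ext h1 (add_right_cancel h2)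
  have h4 := congrArg D.glue h3
  rwa [D.glue_glue, D.glue_glue] at h4

theorem edgeCount_pos [Finite X] (d : Dart X) : 0 < D.edgeCount d := by
  unfold edgeCount
  have : Finite (Dart X) := inferInstance
  exact Function.minimalPeriod_pos_of_mem_periodicPts
    (D.next_injective.mem_periodicPts d)

theorem warpSet_finite [Finite X] :
    ({0} ∪ {r : ℝ | ∃ (d : Dart X) (i j : ℕ), D.out d = true ∧ i < D.edgeCount d ∧
    j < D.edgeCount d ∧ r = ((D.weight d i : ℝ) - (D.weight d j : ℝ) - 1) / 2}).Finite := by
  refine (Set.finite_singleton _).union ?_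
  have h : (⋃ d : Dart X, (fun p : ℕ × ℕ => ((D.weight d p.1 : ℝ) - (D.weight d p.2 : ℝ) - 1) / 2) ''
      (Set.Iio (D.edgeCount d) ×ˢ Set.Iio (D.edgeCount d))).Finite := by
    refine Set.finite_iUnion fun d => Set.Finite.image _ ?_
    exact (Set.finite_Iio _).prod (Set.finite_Iio _)
  refine h.subset ?_
  rintro r ⟨d, i, j, -, hi, hj, rfl⟩
  exact Set.mem_iUnion.mpr ⟨d, ⟨(i, j), ⟨hi, hj⟩, rfl⟩⟩

/-- the supremum in the definition of `warp` is a maximum -/
theorem le_warp [Finite X] {d : Dart X} {i j : ℕ} (hd : D.out d = true)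
    (hi : i < D.edgeCount d) (hj : j < D.edgeCount d) :
    ((D.weight d i : ℝ) - (D.weight d j : ℝ) - 1) / 2 ≤ D.warp :=
  le_csSup D.warpSet_finite.bddAbove (Or.inr ⟨d, i, j, hd, hi, hj, rfl⟩)

end Diagram

end Pool.Agent.H418R3
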